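import Mathlib

set_option autoImplicit false

/-!
# Powers of `1 + p²`, and a choice of multiples
-/

namespace Pool.Agent.N76.EC

open scoped Real

theorem pow_one_add (y : ℤ) (q : ℕ) : ∃ r : ℤ, (1 + y) ^ q = 1 + q * y + y ^ 2 * r := by
  induction q with
  | zero => exact ⟨0, by simp⟩
  | succ q ih =>
    obtain ⟨r, hr⟩ := ih
    refine ⟨q + r + y * r, ?_⟩
    rw [pow_succ, hr]
    push_cast
    ring

/-- an integer which is `1` modulo `p ^ i` exactly -/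
def Ex (p i : ℕ) (x : ℤ) : Prop := ∃ u : ℤ, ¬ (p : ℤ) ∣ u ∧ x = 1 + p ^ i * u

theorem Ex.pow_coprime {p i : ℕ} (hp : p.Prime) (hi : 1 ≤ i) {x : ℤ} (h : Ex p i x) {q : ℕ} (hq : ¬ p ∣ q) :
    Ex p i (x ^ q) := by
  obtain ⟨u, hu, rfl⟩ := h
  obtain ⟨r, hr⟩ := pow_one_add (p ^ i * u) q
  have hp' : Prime (p : ℤ) := Nat.prime_iff_prime_int.1 hp
  refine ⟨q * u + p ^ i * u ^ 2 * r, ?_, ?_⟩
  · intro h1
    have h2 : (p : ℤ) ∣ p ^ i * u ^ 2 * r := by
      refine Dvd.dvd.mul_right (Dvd.dvd.mul_right ?_ _) _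
      exact dvd_pow_self _ (by omega)
    have h3 : (p : ℤ) ∣ q * u := (dvd_add_left h2).1 h1
    rcases hp'.dvd_or_dvd h3 with h4 | h4
    · exact hq (by exact_mod_cast h4)
    · exact hu h4
  · rw [hr]
    ring

theorem Ex.pow_prime {p i : ℕ} (hp : p.Prime) (hi : 2 ≤ i) {x : ℤ} (h : Ex p i x) : Ex p (i + 1) (x ^ p) := by
  obtain ⟨u, hu, rfl⟩ := h
  obtain ⟨r, hr⟩ := pow_one_add (p ^ i * u) p
  obtain ⟨m, rfl⟩ : ∃ m, i = m + 2 := ⟨i - 2, by omega⟩
  refine ⟨u + p ^ (m + 1) * u ^ 2 * r, ?_, ?_⟩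
  · intro h1
    have h2 : (p : ℤ) ∣ p ^ (m + 1) * u ^ 2 * r := by
      refine Dvd.dvd.mul_right (Dvd.dvd.mul_right ?_ _) _
      exact dvd_pow_self _ (by omega)
    exact hu ((dvd_add_left h2).1 h1)
  · rw [hr]
    ring

theorem Ex.pow_prime_pow {p : ℕ} (hp : p.Prime) (e : ℕ) : ∀ {i : ℕ}, 2 ≤ i → ∀ {x : ℤ}, Ex p i x →
    Ex p (i + e) (x ^ p ^ e) := by
  induction e with
  | zero =>
    intro i _ x h
    simpa using h
  | succ e ih =>
    intro i hi x h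
    rw [pow_succ', pow_mul]
    have h1 := ih (i := i + 1) (by omega) (h.pow_prime hp hi)
    rwa [show i + (e + 1) = i + 1 + e by ring]

theorem Ex.start {p : ℕ} (hp : p.Prime) : Ex p 2 (1 + p ^ 2) := by
  refine ⟨1, fun h => ?_, by ring⟩
  have h1 : (p : ℤ) ∣ 1 := h
  have h2 := Int.le_of_dvd one_pos h1
  have h3 := hp.two_le
  omega

/-- the power `q p ^ e` -/
theorem Ex.pow_mul {p : ℕ} (hp : p.Prime) {e q : ℕ} (hq : ¬ p ∣ q) {i : ℕ} (hi : 2 ≤ i) {x : ℤ} (h : Ex p i x) :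
    Ex p (i + e) (x ^ (q * p ^ e)) := by
  rw [_root_.pow_mul]
  exact (h.pow_coprime hp (by omega) hq).pow_prime_pow hp e hi

theorem exists_exponent {p : ℕ} (hp : p.Prime) {f : ℕ} (hf : f ≠ 0) :
    ∃ a : ℕ, Ex p (2 + a) ((1 + (p : ℤ) ^ 2) ^ f) := by
  obtain ⟨a, q, hq, rfl⟩ := Nat.exists_eq_pow_mul_and_not_dvd hf p hp.ne_one
  refine ⟨a, ?_⟩
  rw [mul_comm]
  exact (Ex.start hp).pow_mul hp hq le_rfl

/-- **The choice of the multiples.** -/
theorem exists_multiple (α₀ β₀ : ℝ) {δ : ℝ} (hδ : 0 < δ) {p : ℕ} (hp : p.Prime) : ∃ C : ℕ, ∀ k i : ℕ, C ≤ i → i + C ≤ k →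
    ∀ x : ℤ, Ex p i x → ∃ j a b : ℤ, |2 * π * ((j : ℝ) / (p ^ k : ℕ) - a) - α₀| < δ ∧
      |2 * π * ((x : ℝ) * ((j : ℝ) / (p ^ k : ℕ)) - b) - β₀| < δ := by
  have hπ := Real.pi_pos
  obtain ⟨C, hC⟩ : ∃ C : ℕ, 2 * π * 2 / δ < (p : ℝ) ^ C :=
    pow_unbounded_of_one_lt _ (by exact_mod_cast hp.one_lt)
  have hp0 : (0 : ℝ) < p := by exact_mod_cast hp.pos
  have hp1 : (1 : ℝ) ≤ p := by exact_mod_cast hp.one_lt.le
  refine ⟨C, fun k i hi hk x hx => ?_⟩
  obtain ⟨u, hu, rfl⟩ := hx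
  obtain ⟨m, rfl⟩ : ∃ m, k = i + m := ⟨k - i, by omega⟩
  have hm : C ≤ m := by omega
  set M : ℝ := (p : ℝ) ^ m with hM
  set I : ℝ := (p : ℝ) ^ i with hI
  have hM0 : 0 < M := by positivity
  have hI0 : 0 < I := by positivity
  have hIC : (p : ℝ) ^ C ≤ I := pow_le_pow_right₀ hp1 hi
  have hMC : (p : ℝ) ^ C ≤ M := pow_le_pow_right₀ hp1 hm
  set d : ℝ := (β₀ - α₀) / (2 * π) with hd
  set a' : ℤ := ⌊M * d⌋ with ha'
  -- solve `u a = a'` modulo `p ^ m`
  obtain ⟨a, r, har⟩ : ∃ a r : ℤ, u * a = a' + p ^ m * r := by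
    have hcop : IsCoprime u ((p : ℤ) ^ m) := by
      refine IsCoprime.pow_right ?_
      exact ((Nat.prime_iff_prime_int.1 hp).coprime_iff_not_dvd.2 hu).symm
    obtain ⟨s, t, hst⟩ := hcop
    refine ⟨s * a', -(t * a'), ?_⟩
    linear_combination a' * hst
  set n : ℤ := ⌊(α₀ / (2 * π) - a / (I * M)) * I⌋ with hn
  refine ⟨a + p ^ m * n, 0, r + u * n, ?_⟩
  have hN : ((p ^ (i + m) : ℕ) : ℝ) = I * M := by
    rw [hI, hM]
    push_cast
    rw [pow_add]
  have e1 : ((a + p ^ m * n : ℤ) : ℝ) / ((p ^ (i + m) : ℕ) : ℝ) = a / (I * M) + n / I := by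
    rw [hN]
    push_cast
    rw [← hM]
    field_simp
  have har' : (u : ℝ) * a = a' + M * r := by
    rw [hM]
    exact_mod_cast har
  have e2 : ((1 + p ^ i * u : ℤ) : ℝ) * (((a + p ^ m * n : ℤ) : ℝ) / ((p ^ (i + m) : ℕ) : ℝ)) - ((r + u * n : ℤ) : ℝ) =
      a / (I * M) + n / I + a' / M := by
    rw [e1]
    push_cast
    rw [← hI]
    have h3 : I * u * (a / (I * M)) = (u * a) / M := by
      field_simp
    have h4 : I * u * (n / I) = u * n := by field_simp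
    have h5 : (u * a : ℝ) / M = a' / M + r := by
      rw [har']
      field_simp
    calc (1 + I * u) * (a / (I * M) + n / I) - (r + u * n)
        = (a / (I * M) + n / I) + I * u * (a / (I * M)) + I * u * (n / I) - (r + u * n) := by ring
      _ = _ := by
        rw [h3, h4, h5]
        ring
  have f1 : |a / (I * M) + n / I - α₀ / (2 * π)| ≤ 1 / I := by
    have h1 := Int.floor_le ((α₀ / (2 * π) - a / (I * M)) * I)
    have h2 := Int.lt_floor_add_one ((α₀ / (2 * π) - a / (I * M)) * I)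
    rw [← hn] at h1 h2
    have h3 : a / (I * M) + n / I - α₀ / (2 * π) = (n - (α₀ / (2 * π) - a / (I * M)) * I) / I := by
      field_simp
      ring
    rw [h3, abs_div, abs_of_pos hI0]
    refine div_le_div_of_nonneg_right ?_ hI0.le
    rw [abs_le]
    constructor <;> linarith
  have f2 : |a' / M - d| ≤ 1 / M := by
    have h1 := Int.floor_le (M * d)
    have h2 := Int.lt_floor_add_one (M * d)
    rw [← ha'] at h1 h2
    have h3 : a' / M - d = (a' - M * d) / M := by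
      field_simp
    rw [h3, abs_div, abs_of_pos hM0]
    refine div_le_div_of_nonneg_right ?_ hM0.le
    rw [abs_le]
    constructor <;> linarith
  have hsmall : 2 * π * (2 / (p : ℝ) ^ C) < δ := by
    rw [div_lt_iff₀ hδ] at hC
    rw [← mul_div_assoc, div_lt_iff₀ (by positivity)]
    linarith
  have g1 : 1 / I ≤ 1 / (p : ℝ) ^ C := one_div_le_one_div_of_le (by positivity) hIC
  have g2 : 1 / M ≤ 1 / (p : ℝ) ^ C := one_div_le_one_div_of_le (by positivity) hMC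
  have g3 : 2 / (p : ℝ) ^ C = 1 / (p : ℝ) ^ C + 1 / (p : ℝ) ^ C := by ring
  have g4 : 0 < 1 / (p : ℝ) ^ C := by positivity
  constructor
  · rw [e1]
    have h1 : 2 * π * (a / (I * M) + n / I - ((0 : ℤ) : ℝ)) - α₀ = 2 * π * (a / (I * M) + n / I - α₀ / (2 * π)) := by
      push_cast
      field_simp
      ring
    rw [h1, abs_mul, abs_of_pos (by positivity : 0 < 2 * π)]
    refine lt_of_le_of_lt (mul_le_mul_of_nonneg_left f1 (by positivity)) (lt_of_le_of_lt ?_ hsmall)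
    refine mul_le_mul_of_nonneg_left ?_ (by positivity)
    linarith
  · rw [e2]
    have h1 : 2 * π * (a / (I * M) + n / I + a' / M) - β₀ = 2 * π * ((a / (I * M) + n / I - α₀ / (2 * π)) + (a' / M - d)) := by
      rw [hd]
      field_simp
      ring
    rw [h1, abs_mul, abs_of_pos (by positivity : 0 < 2 * π)]
    refine lt_of_le_of_lt (mul_le_mul_of_nonneg_left (abs_add_le _ _) (by positivity)) (lt_of_le_of_lt ?_ hsmall)
    refine mul_le_mul_of_nonneg_left ?_ (by positivity)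
    linarith

end Pool.Agent.N76.EC
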