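import Pool.Agent.N76.IR.Emb
import Pool.Agent.N76.IR.Gal

set_option autoImplicit false

/-!
# An automorphism of `L` over `K` with a given action on the roots of unity
-/

namespace Pool.Agent.N76.EC

open Polynomial Module
open Pool.Agent.TH826.MK (circ)
open Pool.Agent.Y775.CC
open Pool.Agent.N76.IR

/-- **The automorphism.** -/
theorem exists_tau {K : Type*} [Field K] [NumberField K] {L : Type*} [Field L] [NumberField L]
    [Algebra K L] [Normal K L] (s₀ : L →+* ℂ) {N : ℕ} [NeZero N] {t : ℕ} (ht : t.Coprime N) :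
    ∃ τ : L ≃ₐ[K] L, ∀ (y : L) (j : ℤ), s₀ y = uu 1 ((j : ℝ) / N) →
      s₀ (τ y) = uu 1 (((t ^ (finrank ℚ K).factorial : ℕ) : ℝ) * ((j : ℝ) / N)) := by
  classical
  have hKL : Algebra.IsAlgebraic K L := by
    have : Algebra.IsAlgebraic ℚ L := inferInstance
    exact Algebra.IsAlgebraic.tower_top (K := ℚ) K
  have hLA : Algebra.IsAlgebraic L (AlgebraicClosure L) := inferInstance
  have hKA : Algebra.IsAlgebraic K (AlgebraicClosure L) := Algebra.IsAlgebraic.trans K L (AlgebraicClosure L)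
  have hcl : IsAlgClosure K (AlgebraicClosure L) := ⟨inferInstance, hKA⟩
  -- extension of `s₀`
  obtain ⟨ι₀, hι₀⟩ : ∃ ι₀ : AlgebraicClosure L →+* ℂ, ∀ y : L, ι₀ (algebraMap L _ y) = s₀ y := by
    let _ : Algebra L ℂ := s₀.toAlgebra
    exact ⟨(IsAlgClosed.lift : AlgebraicClosure L →ₐ[L] ℂ),
      fun y => (IsAlgClosed.lift : AlgebraicClosure L →ₐ[L] ℂ).commutes y⟩
  obtain ⟨ζ, hζ⟩ := exists_zeta ι₀ (N := N) (ξ := circ 1 (1 / N)) prim_circ.pow_eq_one
  have hprim : IsPrimitiveRoot ζ N := by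
    have h1 : IsPrimitiveRoot (circ 1 (1 / (N : ℝ))) N := prim_circ
    rw [← hζ] at h1
    exact IsPrimitiveRoot.of_map_of_injective h1 ι₀.injective
  obtain ⟨τ, hτ⟩ := exists_aut (K := K) hprim ht
  refine ⟨τ.restrictNormal L, fun y j hy => ?_⟩
  have h1 : algebraMap L (AlgebraicClosure L) y = ζ ^ j + ζ ^ (-j) := by
    apply ι₀.injective
    rw [hι₀, hy, map_add, map_zpow₀, map_zpow₀, hζ]
    have h2 := circ_zpow' (N := N) j 1
    rw [Nat.cast_one, Nat.cast_one, one_mul, one_mul] at h2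
    rw [zpow_neg, h2]
    rfl
  rw [← hι₀, AlgEquiv.restrictNormal_commutes]
  have h3 : ι₀ (τ ζ) = circ 1 (1 / N) ^ (t ^ (finrank ℚ K).factorial) := by
    rw [hτ, map_pow, hζ]
  rw [h1, map_add, map_add, map_zpow₀, map_zpow₀, map_zpow₀, map_zpow₀, h3, ← zpow_natCast, ← zpow_mul,
    ← zpow_mul, circ_zpow', mul_neg, zpow_neg, circ_zpow']
  rfl

/-- its powers -/
theorem tau_pow {K L : Type*} [Field K] [Field L] [Algebra K L] {s₀ : L →+* ℂ} {N : ℕ} {x : ℤ} {τ : L ≃ₐ[K] L}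
    (h : ∀ (y : L) (j : ℤ), s₀ y = uu 1 ((j : ℝ) / N) → s₀ (τ y) = uu 1 ((x : ℝ) * ((j : ℝ) / N))) (m : ℕ) :
    ∀ (y : L) (j : ℤ), s₀ y = uu 1 ((j : ℝ) / N) → s₀ ((τ ^ m) y) = uu 1 (((x ^ m : ℤ) : ℝ) * ((j : ℝ) / N)) := by
  induction m with
  | zero =>
    intro y j hy
    rw [pow_zero, pow_zero, Int.cast_one, one_mul]
    exact hy
  | succ m ih =>
    intro y j hy
    have h1 : s₀ (τ y) = uu 1 (((x * j : ℤ) : ℝ) / N) := by
      rw [h y j hy]
      push_cast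
      rw [mul_div_assoc]
    have h2 := ih (τ y) (x * j) h1
    have h3 : (τ ^ (m + 1)) y = (τ ^ m) (τ y) := by
      rw [pow_succ]
      rfl
    rw [h3, h2]
    congr 1
    push_cast
    ring

end Pool.Agent.N76.EC
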