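import Pool.Agent.N76.EC.Jf

set_option autoImplicit false

/-!
# Combinations of the loops

Analytic continuation along a vertical line.
-/

namespace Pool.Agent.N76.EC

open Polynomial MeasureTheory Set Filter Topology Complex
open Pool.Agent.TH826.UH (pr NZ pr_mul pr_one cont_int pr_prod pr_neg)
open Pool.Agent.N76.IR (Strip mem_Strip isOpen_Strip convex_Strip)
open scoped ComplexConjugate Interval Real

variable {G : ℂ[X]} {n : ℕ} {η φ₀ ε : ℝ} {L : Fin n → ℂ → ℂ} {X : Fin n → ℝ → ℂ} (S : Sys G n η φ₀ ε L X)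

theorem norm_cos_ge (x τ : ℝ) : |τ| ≤ ‖2 * Complex.cos ((x : ℂ) + τ * I)‖ := by
  have key : ∀ τ : ℝ, 0 ≤ τ → ∀ x : ℝ, τ ≤ ‖2 * Complex.cos ((x : ℂ) + τ * I)‖ := by
    intro τ hτ x
    have e : 2 * Complex.cos ((x : ℂ) + τ * I) =
        Complex.exp (-((x : ℂ) + τ * I) * I) - -Complex.exp (((x : ℂ) + τ * I) * I) := by
      rw [Complex.cos, mul_div_cancel₀ _ two_ne_zero]
      ring
    have h1 := norm_sub_norm_le (Complex.exp (-((x : ℂ) + τ * I) * I)) (-Complex.exp (((x : ℂ) + τ * I) * I))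
    rw [← e, norm_neg, Complex.norm_exp, Complex.norm_exp] at h1
    have e1 : (-((x : ℂ) + τ * I) * I).re = τ := by
      simp
    have e2 : (((x : ℂ) + τ * I) * I).re = -τ := by
      simp
    rw [e1, e2] at h1
    have h2 := Real.add_one_le_exp τ
    have h3 : Real.exp (-τ) ≤ 1 := Real.exp_le_one_iff.2 (by linarith)
    linarith
  rcases le_total 0 τ with h | h
  · rw [abs_of_nonneg h]
    exact key τ h x
  · rw [abs_of_nonpos h]
    have h1 := key (-τ) (by linarith) (-x)
    have e : ((-x : ℝ) : ℂ) + ((-τ : ℝ) : ℂ) * I = -((x : ℂ) + τ * I) := by push_cast; ring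
    rw [e, Complex.cos_neg] at h1
    exact h1

include S

/-- **A combination of the other loops is not constant on a branch**, if the sum of the coefficients is
positive. -/
theorem Sys.comb_pos (k : Fin n) (d : Fin n → ℝ) (hd : 0 < ∑ l ∈ Finset.univ.erase k, d l) :
    ∃ α : ℝ, |α - φ₀| < ε ∧ ∑ l ∈ Finset.univ.erase k, d l * J X η L l k α ≠
      ∑ l ∈ Finset.univ.erase k, d l * J X η L l k φ₀ := by
  classical
  by_contra hcon
  push Not at hcon
  set E : Finset (Fin n) := Finset.univ.erase k with hE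
  set U : ℂ → ℝ := fun x => ∑ l ∈ E, d l * P (X l) (Zp η) x with hU
  set Sg : ℂ → ℂ := fun x => ∑ l ∈ E, (d l : ℂ) * T (X l) (Zp η) x with hSg
  have hπ := Real.pi_pos
  set f : ℂ → ℂ := L k with hf
  have hfd : DifferentiableOn ℂ f (Strip φ₀ ε) := S.Ld k
  have hJU : ∀ α : ℝ, ∑ l ∈ E, d l * J X η L l k α = U (f α) := fun α => rfl
  have hUpath : ∀ {p : ℝ → ℂ} {p' : ℂ} {s : ℝ}, HasDerivAt p p' s → (∀ l ∈ E, ∀ t, X l t ≠ p s) →
      HasDerivAt (fun s => U (p s)) (Sg (p s) * p').im s := by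
    intro p p' s hp hx
    have h1 : HasDerivAt (fun s => ∑ l ∈ E, d l * P (X l) (Zp η) (p s))
        (∑ l ∈ E, d l * (T (X l) (Zp η) (p s) * p').im) s :=
      HasDerivAt.fun_sum fun l hl => (P_path (S.loop l) hp fun t => hx l hl t).const_mul (d l)
    refine h1.congr_deriv ?_
    rw [hSg]
    simp only
    rw [Finset.sum_mul, Complex.im_sum]
    refine Finset.sum_congr rfl fun l _ => ?_
    rw [mul_assoc, Complex.im_ofReal_mul]
  have hconst : ∀ x : ℝ, |x - φ₀| < ε → U (f x) = U (f φ₀) := by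
    intro x hx
    rw [← hJU, hcon x hx, hJU]
  -- the strip avoids the loops
  have havoid : ∀ y ∈ Strip φ₀ ε, ∀ l ∈ E, ∀ t : ℝ, X l t ≠ f y := fun y hy l hl t =>
    S.avoid (Finset.ne_of_mem_erase hl) hy t
  set Ψ : ℂ → ℂ := fun y => Sg (f y) * deriv f y with hΨ
  have hWo := isOpen_Strip φ₀ ε
  have hΨd : DifferentiableOn ℂ Ψ (Strip φ₀ ε) := by
    intro y hy
    have h1 : DifferentiableAt ℂ (fun y => Sg (f y)) y := by
      have h3 : DifferentiableAt ℂ (fun y => ∑ l ∈ E, (d l : ℂ) * T (X l) (Zp η) (f y)) y := by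
        refine DifferentiableAt.fun_sum fun l hl => ?_
        have h4 : DifferentiableAt ℂ (fun y => T (X l) (Zp η) (f y)) y :=
          (T_diff (S.loop l) fun t => havoid y hy l hl t).comp y (hfd.differentiableAt (hWo.mem_nhds hy))
        exact h4.const_mul _
      exact h3
    have h2 : DifferentiableAt ℂ (deriv f) y := (hfd.deriv hWo).differentiableAt (hWo.mem_nhds hy)
    exact (h1.mul h2).differentiableWithinAt
  have hconjW : ∀ y, y ∈ Strip φ₀ ε → conj y ∈ Strip φ₀ ε := by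
    intro y hy
    rw [mem_Strip] at hy ⊢
    rwa [Complex.conj_re]
  have hΨr : ∀ x : ℝ, |x - φ₀| < ε → (Ψ x).im = 0 := by
    intro x hx
    have hxW : (x : ℂ) ∈ Strip φ₀ ε := real_mem hx
    have h1 : HasDerivAt (fun s : ℝ => f (s : ℂ)) (deriv f x) x :=
      ((hfd.differentiableAt (hWo.mem_nhds hxW)).hasDerivAt).comp_ofReal
    have h2 := hUpath h1 fun l hl t => havoid x hxW l hl t
    have h3 : (fun s : ℝ => U (f (s : ℂ))) =ᶠ[𝓝 x] fun _ => U (f φ₀) := by
      have h4 : {s : ℝ | |s - φ₀| < ε} ∈ 𝓝 x := by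
        refine IsOpen.mem_nhds ?_ hx
        exact isOpen_lt (continuous_abs.comp (continuous_id.sub continuous_const)) continuous_const
      filter_upwards [h4] with s hs
      exact hconst s hs
    have h5 : HasDerivAt (fun _ : ℝ => U (f φ₀)) (Sg (f x) * deriv f x).im x :=
      h2.congr_of_eventuallyEq h3.symm
    exact h5.unique (hasDerivAt_const x _)
  -- reflection
  have hsym : ∀ y ∈ Strip φ₀ ε, Ψ y = conj (Ψ (conj y)) := by
    have h1 : AnalyticOnNhd ℂ Ψ (Strip φ₀ ε) := hΨd.analyticOnNhd hWo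
    have h2 : AnalyticOnNhd ℂ (fun y => conj (Ψ (conj y))) (Strip φ₀ ε) := by
      refine DifferentiableOn.analyticOnNhd (fun y hy => ?_) hWo
      have h3 : DifferentiableAt ℂ (conj ∘ Ψ ∘ conj) y := by
        rw [differentiableAt_conj_conj_iff]
        exact hΨd.differentiableAt (hWo.mem_nhds (hconjW y hy))
      exact h3.differentiableWithinAt
    have hy0W : (φ₀ : ℂ) ∈ Strip φ₀ ε := real_mem S.φ_mem
    have h3 : ∃ᶠ z in 𝓝[≠] (φ₀ : ℂ), Ψ z = conj (Ψ (conj z)) := by
      have h4 : Tendsto (fun x : ℝ => (x : ℂ)) (𝓝[≠] φ₀) (𝓝[≠] (φ₀ : ℂ)) := by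
        refine tendsto_nhdsWithin_of_tendsto_nhds_of_eventually_within _ ?_ ?_
        · exact (Complex.continuous_ofReal.tendsto φ₀).mono_left nhdsWithin_le_nhds
        · filter_upwards [self_mem_nhdsWithin] with x hx
          exact fun h5 => hx (Complex.ofReal_injective h5)
      have h5 : ∀ᶠ x : ℝ in 𝓝[≠] φ₀, Ψ (x : ℂ) = conj (Ψ (conj (x : ℂ))) := by
        have h6 : {s : ℝ | |s - φ₀| < ε} ∈ 𝓝 φ₀ := by
          refine IsOpen.mem_nhds ?_ S.φ_mem
          exact isOpen_lt (continuous_abs.comp (continuous_id.sub continuous_const)) continuous_const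
        filter_upwards [nhdsWithin_le_nhds h6] with x hx
        rw [Complex.conj_ofReal]
        apply Complex.ext
        · rw [Complex.conj_re]
        · rw [Complex.conj_im, hΨr x hx, neg_zero]
      exact h4.frequently h5.frequently
    intro y hy
    exact h1.eqOn_of_preconnected_of_frequently_eq h2 (convex_Strip φ₀ ε).isPreconnected hy0W h3 hy
  -- the vertical line
  set p : ℝ → ℂ := fun τ => (φ₀ : ℂ) + τ * I with hp
  have hpW : ∀ τ, p τ ∈ Strip φ₀ ε := by
    intro τ
    rw [mem_Strip]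
    simpa [hp] using S.hε
  have hpd : ∀ τ, HasDerivAt p I τ := by
    intro τ
    have h1 := ((hasDerivAt_id τ).ofReal_comp.mul_const I).const_add (φ₀ : ℂ)
    simpa [hp] using h1
  set a : ℝ → ℝ := fun τ => U (f (p τ)) with ha
  have had : ∀ τ, HasDerivAt a ((Ψ (p τ)).re) τ := by
    intro τ
    have h1 : HasDerivAt (fun τ => f (p τ)) (deriv f (p τ) * I) τ :=
      ((hfd.differentiableAt (hWo.mem_nhds (hpW τ))).hasDerivAt).comp_of_eq τ (hpd τ) rfl
    have h2 := hUpath h1 fun l hl t => havoid _ (hpW τ) l hl t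
    refine h2.congr_deriv ?_
    rw [← mul_assoc, Complex.mul_I_im]
  have hodd : ∀ τ, a τ + a (-τ) = 2 * a 0 := by
    have h1 : ∀ τ, HasDerivAt (fun τ => a τ + a (-τ)) 0 τ := by
      intro τ
      have h2 := (had τ).add ((had (-τ)).comp_of_eq τ (hasDerivAt_neg τ) rfl)
      refine h2.congr_deriv ?_
      have h3 := hsym (p τ) (hpW τ)
      have h4 : conj (p τ) = p (-τ) := by
        simp only [hp, map_add, map_mul, Complex.conj_ofReal, Complex.conj_I]
        push_cast
        ring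
      rw [h4] at h3
      have h5 := congrArg Complex.re h3
      rw [Complex.conj_re] at h5
      rw [h5]
      ring
    have h2 : ∀ τ, (fun τ => a τ + a (-τ)) τ = (fun τ => a τ + a (-τ)) 0 :=
      fun τ => is_const_of_deriv_eq_zero (fun τ => (h1 τ).differentiableAt) (fun τ => (h1 τ).deriv) τ 0
    intro τ
    have h3 := h2 τ
    simp only [neg_zero] at h3
    linarith
  -- growth
  have hnear : ∀ l, ∃ M C : ℝ, 0 < M ∧ ∀ b : ℂ, M ≤ ‖b‖ → |P (X l) (Zp η) b + 2 * π * Real.log ‖b‖| ≤ C := fun l =>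
    P_near (S.loop l) (by simp only [ld_Zp_im]; simp)
  choose M₁ C₁ hM₁0 hM₁ using hnear
  set M : ℝ := ∑ l, M₁ l with hM
  have hMl : ∀ l, M₁ l ≤ M := fun l =>
    Finset.single_le_sum (f := M₁) (fun l _ => (hM₁0 l).le) (Finset.mem_univ l)
  set D : ℝ := ∑ l ∈ E, d l with hD
  set C : ℝ := ∑ l ∈ E, |d l| * C₁ l with hC
  have hgrow : ∀ x : ℂ, M ≤ ‖x‖ → U x ≤ C - 2 * π * D * Real.log ‖x‖ := by
    intro x hx
    have h1 : C - 2 * π * D * Real.log ‖x‖ = ∑ l ∈ E, (|d l| * C₁ l - d l * (2 * π * Real.log ‖x‖)) := by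
      rw [Finset.sum_sub_distrib, hC, ← Finset.sum_mul]
      ring
    rw [h1]
    refine Finset.sum_le_sum fun l _ => ?_
    have h2 := hM₁ l x ((hMl l).trans hx)
    have h3 : |d l * (P (X l) (Zp η) x + 2 * π * Real.log ‖x‖)| ≤ |d l| * C₁ l := by
      rw [abs_mul]
      exact mul_le_mul_of_nonneg_left h2 (abs_nonneg _)
    have h4 := (abs_le.1 h3).2
    linarith
  set X₀ : ℝ := max M (Real.exp ((C + 1 - a 0) / (2 * π * D))) with hX₀
  obtain ⟨B, hB⟩ : ∃ B : ℝ, ∀ x : ℂ, ‖x‖ ≤ X₀ → ‖G.eval x‖ ≤ B := by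
    obtain ⟨B, hB⟩ := (isCompact_closedBall (0 : ℂ) X₀).exists_bound_of_continuousOn
      G.continuous.continuousOn
    exact ⟨B, fun x hx => hB x (by rwa [mem_closedBall_zero_iff])⟩
  have hbig : ∀ τ : ℝ, B < |τ| → a τ ≤ a 0 - 1 := by
    intro τ hτ
    have h1 : B < ‖2 * Complex.cos (p τ)‖ := hτ.trans_le (norm_cos_ge φ₀ τ)
    have h2 : X₀ < ‖f (p τ)‖ := by
      by_contra hcon2
      push Not at hcon2
      have h3 := hB _ hcon2
      rw [S.Lev k _ (hpW τ)] at h3
      linarith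
    have h4 : M ≤ ‖f (p τ)‖ := (le_max_left _ _).trans h2.le
    have h5 : Real.exp ((C + 1 - a 0) / (2 * π * D)) ≤ ‖f (p τ)‖ := (le_max_right _ _).trans h2.le
    have h6 : 0 < ‖f (p τ)‖ := (Real.exp_pos _).trans_le h5
    have h7 := hgrow _ h4
    have h8 : (C + 1 - a 0) / (2 * π * D) ≤ Real.log ‖f (p τ)‖ := by
      rw [Real.le_log_iff_exp_le h6]
      exact h5
    rw [div_le_iff₀ (by positivity)] at h8
    have h9 : a τ = U (f (p τ)) := rfl
    rw [h9]
    linarith
  have hτ0 : B < |(|B| + 1)| := by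
    have h1 := le_abs_self B
    have h3 := abs_nonneg B
    have h4 : |(|B| + 1)| = |B| + 1 := abs_of_nonneg (by positivity)
    rw [h4]
    linarith
  have h1 := hbig (|B| + 1) hτ0
  have h2 := hbig (-(|B| + 1)) (by rw [abs_neg]; exact hτ0)
  have h3 := hodd (|B| + 1)
  linarith

/-- **Nondegeneracy**: if a combination of the loops is constant on all branches then all coefficients are equal. -/
theorem Sys.comb_const (c : Fin n → ℝ)
    (h : ∀ k α, |α - φ₀| < ε → ∑ l, c l * J X η L l k α = ∑ l, c l * J X η L l k φ₀) (i j : Fin n) : c i = c j := by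
  classical
  have key : ∀ k, ∑ l, (c l - c k) = 0 := by
    intro k
    by_contra hne
    have hsum : ∀ α, |α - φ₀| < ε → ∑ l ∈ Finset.univ.erase k, (c l - c k) * J X η L l k α =
        ∑ l, c l * J X η L l k α - c k * P (Wp η) (Zp η) (2 * Complex.cos φ₀) := by
      intro α hα
      have h1 := S.sum_J k hα
      have h2 : ∑ l, (c l - c k) * J X η L l k α = ∑ l, c l * J X η L l k α - c k * ∑ l, J X η L l k α := by
        simp only [sub_mul, Finset.sum_sub_distrib]
        rw [← Finset.mul_sum]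
      rw [← h1, ← h2, ← Finset.add_sum_erase _ _ (Finset.mem_univ k), sub_self, zero_mul, zero_add]
    have hne' : ∑ l ∈ Finset.univ.erase k, (c l - c k) ≠ 0 := by
      rw [← Finset.add_sum_erase _ _ (Finset.mem_univ k), sub_self, zero_add] at hne
      exact hne
    rcases lt_or_gt_of_ne hne' with h1 | h1
    · obtain ⟨α, hα, hne2⟩ := S.comb_pos k (fun l => -(c l - c k)) (by
        rw [Finset.sum_neg_distrib]
        linarith)
      apply hne2
      simp only [neg_mul, Finset.sum_neg_distrib]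
      rw [hsum α hα, hsum φ₀ S.φ_mem, h k α hα]
    · obtain ⟨α, hα, hne2⟩ := S.comb_pos k (fun l => c l - c k) h1
      apply hne2
      rw [hsum α hα, hsum φ₀ S.φ_mem, h k α hα]
  have h2 : ∀ k, (n : ℝ) * c k = ∑ l, c l := by
    intro k
    have h3 := key k
    rw [Finset.sum_sub_distrib, Finset.sum_const, Finset.card_univ, Fintype.card_fin, nsmul_eq_mul] at h3
    linarith
  have hn : (n : ℝ) ≠ 0 := by
    have : 0 < n := Fin.pos i
    positivity
  exact mul_left_cancel₀ hn ((h2 i).trans (h2 j).symm)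

end Pool.Agent.N76.EC
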