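import Pool.Agent.N76.IR.Fam

set_option autoImplicit false

/-!
# Families of functions on fibres over windows: independence for all permutations of the fibres
-/

namespace Pool.Agent.N76.EC

open Set Filter Topology
open Pool.Agent.N76.IR (Lc Good exists_dense)

variable {m g : ℕ} {J : Fin m → Fin (g + 1) → Fin (g + 1) → ℝ → ℝ} {W : Fin m → Set ℝ} {x₀ : Fin m → ℝ}

/-- **One relation.** -/
theorem exists_good (hW : ∀ a, OrdConnected (W a)) (hx₀ : ∀ a, x₀ a ∈ W a) (hc : ∀ a l k, ContinuousOn (J a l k) (W a))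
    (hJ : ∀ a (c : Fin (g + 1) → ℝ), (∀ k, ∀ θ ∈ W a, ∑ l, c l * J a l k θ = ∑ l, c l * J a l k (x₀ a)) →
      ∀ i j, c i = c j)
    (c : (Fin m → Fin g → ℝ) × ℝ) (h0 : c ≠ 0) : ∃ x : Fin m → ℝ, (∀ a, x a ∈ W a) ∧ Good J c x := by
  classical
  obtain ⟨c, c₀⟩ := c
  by_contra hcon
  push Not at hcon
  unfold Good at hcon
  push Not at hcon
  simp only at hcon
  have hcne : c ≠ 0 := by
    intro h1
    obtain ⟨π, -, hπ⟩ := hcon x₀ hx₀
    have h2 := hπ 0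
    unfold Lc at h2
    rw [h1] at h2
    simp only [Pi.zero_apply, zero_mul, Finset.sum_const_zero] at h2
    apply h0
    rw [h1, ← h2]
    rfl
  obtain ⟨a₀, ha₀⟩ := Function.ne_iff.1 hcne
  obtain ⟨l₀, hl₀⟩ := Function.ne_iff.1 ha₀
  simp only [Pi.zero_apply] at hl₀
  -- a branch on which the combination is not constant
  have h1 : ¬ ∀ k, ∀ θ ∈ W a₀, ∑ l, (Fin.cons 0 (c a₀) : Fin (g + 1) → ℝ) l * J a₀ l k θ =
      ∑ l, (Fin.cons 0 (c a₀) : Fin (g + 1) → ℝ) l * J a₀ l k (x₀ a₀) := by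
    intro h2
    have h3 := hJ a₀ _ h2 l₀.succ 0
    rw [Fin.cons_succ, Fin.cons_zero] at h3
    exact hl₀ h3
  push Not at h1
  obtain ⟨k₀, θ₀, hθW, hθ₀⟩ := h1
  set v : ℝ → ℝ := fun θ => ∑ l, c a₀ l * J a₀ l.succ k₀ θ with hv
  have hvv : ∀ θ, ∑ l, (Fin.cons 0 (c a₀) : Fin (g + 1) → ℝ) l * J a₀ l k₀ θ = v θ := by
    intro θ
    rw [Fin.sum_univ_succ]
    simp [hv]
  rw [hvv, hvv] at hθ₀
  have hvc : ContinuousOn v (W a₀) := continuousOn_finsetSum _ fun l _ => continuousOn_const.mul (hc _ _ _)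
  -- finitely many values
  set Φ : (Fin m → Fin (g + 1)) → ℝ := fun κ =>
    c₀ - ∑ a ∈ Finset.univ.erase a₀, ∑ l, c a l * J a l.succ (κ a) (x₀ a) with hΦ
  have hfin : (range Φ).Finite := finite_range Φ
  have hmem : ∀ θ ∈ W a₀, v θ ∈ range Φ := by
    intro θ hθ
    obtain ⟨π, hπ, h2⟩ := hcon (Function.update x₀ a₀ θ) (fun a => by
      by_cases ha : a = a₀
      · subst ha
        rwa [Function.update_self]
      · rw [Function.update_of_ne ha]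
        exact hx₀ a)
    obtain ⟨k, hk⟩ := (hπ a₀).2 k₀
    have h3 := h2 k
    unfold Lc at h3
    rw [← Finset.add_sum_erase _ _ (Finset.mem_univ a₀)] at h3
    refine ⟨fun a => π a k, ?_⟩
    have h4 : ∑ l, c a₀ l * J a₀ l.succ (π a₀ k) (Function.update x₀ a₀ θ a₀) = v θ := by
      rw [Function.update_self, hk]
    have h5 : ∑ a ∈ Finset.univ.erase a₀, ∑ l, c a l * J a l.succ (π a k) (Function.update x₀ a₀ θ a) =
        ∑ a ∈ Finset.univ.erase a₀, ∑ l, c a l * J a l.succ (π a k) (x₀ a) := by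
      refine Finset.sum_congr rfl fun a ha => ?_
      rw [Function.update_of_ne (Finset.ne_of_mem_erase ha)]
    rw [h4, h5] at h3
    show c₀ - ∑ a ∈ Finset.univ.erase a₀, ∑ l, c a l * J a l.succ (π a k) (x₀ a) = v θ
    linarith
  have hinf : (uIcc (v (x₀ a₀)) (v θ₀)).Infinite := by
    rw [uIcc]
    exact Set.Icc_infinite (by
      rw [inf_lt_sup]
      exact hθ₀.symm)
  have hsub : uIcc (x₀ a₀) θ₀ ⊆ W a₀ := (hW a₀).uIcc_subset (hx₀ a₀) hθW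
  refine hinf (hfin.subset fun y hy => ?_)
  obtain ⟨θ, hθ, hθy⟩ := intermediate_value_uIcc (hvc.mono hsub) hy
  rw [← hθy]
  exact hmem θ (hsub hθ)

/-- the condition is open -/
theorem eventually_good (hWo : ∀ a, IsOpen (W a)) (hc : ∀ a l k, ContinuousOn (J a l k) (W a))
    {c : (Fin m → Fin g → ℝ) × ℝ} {x : Fin m → ℝ} (hx : ∀ a, x a ∈ W a) (h : Good J c x) :
    ∀ᶠ q : ((Fin m → Fin g → ℝ) × ℝ) × (Fin m → ℝ) in 𝓝 (c, x), (∀ a, q.2 a ∈ W a) ∧ Good J q.1 q.2 := by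
  classical
  have h1 : ∀ᶠ q : ((Fin m → Fin g → ℝ) × ℝ) × (Fin m → ℝ) in 𝓝 (c, x), ∀ a, q.2 a ∈ W a := by
    rw [eventually_all]
    intro a
    have h2 : ContinuousAt (fun q : ((Fin m → Fin g → ℝ) × ℝ) × (Fin m → ℝ) => q.2 a) (c, x) :=
      ((continuous_apply a).comp continuous_snd).continuousAt
    exact h2.eventually ((hWo a).mem_nhds (hx a))
  have h3 : ∀ π : {π : Fin m → Fin (g + 1) → Fin (g + 1) // ∀ a, Function.Bijective (π a)},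
      ∀ᶠ q : ((Fin m → Fin g → ℝ) × ℝ) × (Fin m → ℝ) in 𝓝 (c, x), ∃ k, Lc J q.1.1 q.2 π.1 k ≠ q.1.2 := by
    intro π
    obtain ⟨k, hk⟩ := h π.1 π.2
    have h4 : ContinuousAt (fun q : ((Fin m → Fin g → ℝ) × ℝ) × (Fin m → ℝ) => Lc J q.1.1 q.2 π.1 k) (c, x) := by
      unfold Lc
      refine tendsto_finsetSum _ fun a _ => tendsto_finsetSum _ fun l _ => ?_
      refine Filter.Tendsto.mul ?_ ?_
      · exact (((continuous_apply l).comp ((continuous_apply a).comp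
          (continuous_fst.comp continuous_fst))).continuousAt (x := (c, x)))
      · have h5 : ContinuousAt (J a l.succ (π.1 a k)) (x a) := (hc _ _ _).continuousAt ((hWo a).mem_nhds (hx a))
        have h6 : ContinuousAt (fun q : ((Fin m → Fin g → ℝ) × ℝ) × (Fin m → ℝ) => q.2 a) (c, x) :=
          ((continuous_apply a).comp continuous_snd).continuousAt
        exact ContinuousAt.comp (f := fun q : ((Fin m → Fin g → ℝ) × ℝ) × (Fin m → ℝ) => q.2 a)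
          (g := J a l.succ (π.1 a k)) h5 h6
    have h5 : ContinuousAt (fun q : ((Fin m → Fin g → ℝ) × ℝ) × (Fin m → ℝ) => q.1.2) (c, x) :=
      (continuous_snd.comp continuous_fst).continuousAt
    filter_upwards [(h4.sub h5).eventually_ne (sub_ne_zero.2 hk)] with q hq
    exact ⟨k, sub_ne_zero.1 hq⟩
  have h4 := eventually_all.2 h3
  filter_upwards [h1, h4] with q hq1 hq2
  exact ⟨hq1, fun π hπ => hq2 ⟨π, hπ⟩⟩

/-- **Uniformity.** -/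
theorem exists_delta (hWo : ∀ a, IsOpen (W a)) (hW : ∀ a, OrdConnected (W a)) (hx₀ : ∀ a, x₀ a ∈ W a)
    (hc : ∀ a l k, ContinuousOn (J a l k) (W a))
    (hJ : ∀ a (c : Fin (g + 1) → ℝ), (∀ k, ∀ θ ∈ W a, ∑ l, c l * J a l k θ = ∑ l, c l * J a l k (x₀ a)) →
      ∀ i j, c i = c j) :
    ∃ δ : ℝ, 0 < δ ∧ ∀ c : (Fin m → Fin g → ℝ) × ℝ, c ≠ 0 → ∃ x : Fin m → ℝ, ∀ x' : Fin m → ℝ,
      (∀ a, |x' a - x a| < δ) → (∀ a, x' a ∈ W a) ∧ Good J c x' := by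
  classical
  have key : ∃ δ : ℝ, 0 < δ ∧ ∀ c ∈ Metric.sphere (0 : (Fin m → Fin g → ℝ) × ℝ) 1, ∃ x : Fin m → ℝ,
      ∀ x' : Fin m → ℝ, (∀ a, |x' a - x a| < δ) → (∀ a, x' a ∈ W a) ∧ Good J c x' := by
    refine IsCompact.induction_on (isCompact_sphere (0 : (Fin m → Fin g → ℝ) × ℝ) 1)
      (p := fun S => ∃ δ : ℝ, 0 < δ ∧ ∀ c ∈ S, ∃ x : Fin m → ℝ,
        ∀ x' : Fin m → ℝ, (∀ a, |x' a - x a| < δ) → (∀ a, x' a ∈ W a) ∧ Good J c x') ?_ ?_ ?_ ?_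
    · exact ⟨1, one_pos, fun c hc => hc.elim⟩
    · rintro S S' hSS ⟨δ, hδ, h⟩
      exact ⟨δ, hδ, fun c hc => h c (hSS hc)⟩
    · rintro S S' ⟨δ, hδ, h⟩ ⟨δ', hδ', h'⟩
      refine ⟨min δ δ', lt_min hδ hδ', ?_⟩
      rintro c (hc | hc)
      · obtain ⟨x, hx⟩ := h c hc
        exact ⟨x, fun x' hx' => hx x' fun a => (hx' a).trans_le (min_le_left _ _)⟩
      · obtain ⟨x, hx⟩ := h' c hc
        exact ⟨x, fun x' hx' => hx x' fun a => (hx' a).trans_le (min_le_right _ _)⟩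
    · intro c hcS
      have hc0 : c ≠ 0 := by
        rintro rfl
        simp at hcS
      obtain ⟨x, hxW, hx⟩ := exists_good hW hx₀ hc hJ c hc0
      obtain ⟨δ, hδ, hball⟩ := Metric.eventually_nhds_iff.1 (eventually_good hWo hc hxW hx)
      refine ⟨Metric.ball c δ, mem_nhdsWithin_of_mem_nhds (Metric.ball_mem_nhds c hδ), δ, hδ, fun c' hc' =>
        ⟨x, fun x' hx' => ?_⟩⟩
      refine hball (y := (c', x')) ?_
      rw [Prod.dist_eq, max_lt_iff]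
      refine ⟨hc', ?_⟩
      rw [dist_pi_lt_iff hδ]
      intro a
      rw [Real.dist_eq]
      exact hx' a
  obtain ⟨δ, hδ, h⟩ := key
  refine ⟨δ, hδ, fun c hc0 => ?_⟩
  have hn : 0 < ‖c‖ := norm_pos_iff.2 hc0
  obtain ⟨x, hx⟩ := h (‖c‖⁻¹ • c) (by
    rw [mem_sphere_zero_iff_norm, norm_smul, norm_inv, norm_norm, inv_mul_cancel₀ hn.ne'])
  refine ⟨x, fun x' hx' => ⟨(hx x' hx').1, fun π hπ => ?_⟩⟩
  obtain ⟨k, hk⟩ := (hx x' hx').2 π hπ
  refine ⟨k, fun h1 => hk ?_⟩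
  have h2 : Lc J (‖c‖⁻¹ • c).1 x' π k = ‖c‖⁻¹ * Lc J c.1 x' π k := by
    unfold Lc
    rw [Finset.mul_sum]
    refine Finset.sum_congr rfl fun a _ => ?_
    rw [Finset.mul_sum]
    refine Finset.sum_congr rfl fun l _ => ?_
    show ‖c‖⁻¹ * c.1 a l * _ = _
    ring
  rw [h2, h1]
  rfl

/-- **Points with a large denominator.** -/
theorem exists_int (hWo : ∀ a, IsOpen (W a)) (hW : ∀ a, OrdConnected (W a)) (hx₀ : ∀ a, x₀ a ∈ W a)
    (hc : ∀ a l k, ContinuousOn (J a l k) (W a))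
    (hJ : ∀ a (c : Fin (g + 1) → ℝ), (∀ k, ∀ θ ∈ W a, ∑ l, c l * J a l k θ = ∑ l, c l * J a l k (x₀ a)) →
      ∀ i j, c i = c j)
    {p : ℕ} (hp : 2 ≤ p) :
    ∃ (k N₀ : ℕ), ∀ N : ℕ, N₀ ≤ N → ∀ c : (Fin m → Fin g → ℝ) × ℝ, c ≠ 0 →
      ∃ (j : ℤ) (n : Fin m → ℤ), (∀ a, ((p ^ k : ℕ) : ℝ) ^ (a : ℕ) * ((j : ℝ) / N) - n a ∈ W a) ∧
        Good J c fun a => ((p ^ k : ℕ) : ℝ) ^ (a : ℕ) * ((j : ℝ) / N) - n a := by
  obtain ⟨δ, hδ, h⟩ := exists_delta hWo hW hx₀ hc hJ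
  obtain ⟨k, N₀, hN⟩ := exists_dense hp m hδ
  refine ⟨k, N₀, fun N hNN c hc0 => ?_⟩
  obtain ⟨x, hx⟩ := h c hc0
  obtain ⟨j, n, hj⟩ := hN N hNN x
  obtain ⟨h1, h2⟩ := hx (fun a => ((p ^ k : ℕ) : ℝ) ^ (a : ℕ) * ((j : ℝ) / N) - n a) fun a => hj a
  exact ⟨j, n, h1, h2⟩

end Pool.Agent.N76.EC
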