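import Pool.Agent.N76.EC.Jf

set_option autoImplicit false

/-!
# Small deformations of the loops

The loops over `z = exp (i θ - u)` for small real `u`.
-/

namespace Pool.Agent.N76.EC

open Polynomial MeasureTheory Set Filter Topology Complex
open Pool.Agent.TH826.UH (pr NZ pr_mul pr_one cont_int pr_prod pr_neg)
open Pool.Agent.N76.IR (Strip mem_Strip isOpen_Strip convex_Strip)
open scoped ComplexConjugate Interval Real

/-- the path `z + 1/z` with the additional height `u` -/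
noncomputable def Wq (η u t : ℝ) : ℂ := 2 * Complex.cos (th η t + u * I)

/-- the path `z` -/
noncomputable def Zq (η u t : ℝ) : ℂ := (Real.exp (-u) : ℝ) * Zp η t

theorem Zq_eq (η u t : ℝ) : Zq η u t = Complex.exp ((th η t + u * I) * I) := by
  unfold Zq Zp
  rw [Complex.ofReal_exp, ← Complex.exp_add]
  congr 1
  push_cast
  linear_combination (-u : ℂ) * I_mul_I

theorem Zq_ne_zero (η u t : ℝ) : Zq η u t ≠ 0 := by
  rw [Zq_eq]
  exact Complex.exp_ne_zero _

theorem Zq_add_inv (η u t : ℝ) : Zq η u t + (Zq η u t)⁻¹ = Wq η u t := by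
  rw [Zq_eq]
  unfold Wq
  rw [← Complex.exp_neg, Complex.cos, mul_div_cancel₀ _ two_ne_zero, neg_mul]

theorem contDiff_Zq (η u : ℝ) : ContDiff ℝ 2 (Zq η u) := contDiff_const.mul (contDiff_Zp η)

theorem nz_Zq (η u : ℝ) : NZ (Zq η u) := ⟨contDiff_Zq η u, Zq_ne_zero η u⟩

theorem Zq_add_one (η u t : ℝ) : Zq η u (t + 1) = Zq η u t := by
  unfold Zq
  rw [Zp_add_one]

theorem Wq_add_one (η u t : ℝ) : Wq η u (t + 1) = Wq η u t := by
  rw [← Zq_add_inv, ← Zq_add_inv, Zq_add_one]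

theorem Wq_zero (η t : ℝ) : Wq η 0 t = Wp η t := by
  unfold Wq Wp
  simp

theorem contDiff_Wq (η u : ℝ) : ContDiff ℝ 2 (Wq η u) := by
  have e : Wq η u = fun t => Zq η u t + (Zq η u t)⁻¹ := funext fun t => (Zq_add_inv η u t).symm
  rw [e]
  exact (contDiff_Zq η u).add ((contDiff_Zq η u).inv (Zq_ne_zero η u))

theorem continuous_Wq (η : ℝ) : Continuous fun p : ℝ × ℝ => Wq η p.1 p.2 := by
  unfold Wq
  have h1 : Continuous fun p : ℝ × ℝ => th η p.2 := (contDiff_th η).continuous.comp continuous_snd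
  have h2 : Continuous fun p : ℝ × ℝ => (p.1 : ℂ) * I := (Complex.continuous_ofReal.comp continuous_fst).mul continuous_const
  exact continuous_const.mul (Complex.continuous_cos.comp (h1.add h2))

/-- the derivative of `θ` -/
noncomputable def th' (η t : ℝ) : ℂ := ((2 * π : ℝ) : ℂ) + ((η * (Real.cos (2 * π * t) * (2 * π)) : ℝ) : ℂ) * I

theorem continuous_th' (η : ℝ) : Continuous (th' η) := by
  unfold th'
  have h1 : Continuous fun t : ℝ => Real.cos (2 * π * t) :=
    Real.continuous_cos.comp (continuous_const.mul continuous_id)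
  exact continuous_const.add ((Complex.continuous_ofReal.comp (continuous_const.mul (h1.mul continuous_const))).mul
    continuous_const)

/-- the derivative of `W` -/
noncomputable def Wq' (η u t : ℝ) : ℂ := 2 * (-Complex.sin (th η t + u * I) * th' η t)

theorem hasDerivAt_Wq (η u t : ℝ) : HasDerivAt (Wq η u) (Wq' η u t) t := by
  have h1 : HasDerivAt (fun t => th η t + u * I) (th' η t) t := (hasDerivAt_th η t).add_const _
  exact ((Complex.hasDerivAt_cos (th η t + u * I)).comp t h1).const_mul 2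

theorem continuous_Wq' (η : ℝ) : Continuous fun p : ℝ × ℝ => Wq' η p.1 p.2 := by
  unfold Wq'
  have h1 : Continuous fun p : ℝ × ℝ => th η p.2 := (contDiff_th η).continuous.comp continuous_snd
  have h2 : Continuous fun p : ℝ × ℝ => (p.1 : ℂ) * I := (Complex.continuous_ofReal.comp continuous_fst).mul continuous_const
  exact continuous_const.mul ((Complex.continuous_sin.comp (h1.add h2)).neg.mul ((continuous_th' η).comp continuous_snd))

theorem ld_Zq (η u t : ℝ) : ld (Zq η u) t = ld (Zp η) t := by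
  unfold ld Zq
  have hd : DifferentiableAt ℝ (Zp η) t := (contDiff_Zp η).differentiable (by norm_num) t
  rw [deriv_const_mul _ hd]
  have h1 : ((Real.exp (-u) : ℝ) : ℂ) ≠ 0 := Complex.ofReal_ne_zero.2 (Real.exp_pos _).ne'
  rw [mul_div_mul_left _ _ h1]

theorem continuous_Wqu (η : ℝ) {u : ℝ → ℝ} (hu : Continuous u) : Continuous fun p : ℝ × ℝ => Wq η (u p.1) p.2 := by
  unfold Wq
  have h1 : Continuous fun p : ℝ × ℝ => th η p.2 := (contDiff_th η).continuous.comp continuous_snd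
  have h2 : Continuous fun p : ℝ × ℝ => (u p.1 : ℂ) * I :=
    (Complex.continuous_ofReal.comp (hu.comp continuous_fst)).mul continuous_const
  exact continuous_const.mul (Complex.continuous_cos.comp (h1.add h2))

theorem continuous_Wqu' (η : ℝ) {u : ℝ → ℝ} (hu : Continuous u) : Continuous fun p : ℝ × ℝ => Wq' η (u p.1) p.2 := by
  unfold Wq'
  have h1 : Continuous fun p : ℝ × ℝ => th η p.2 := (contDiff_th η).continuous.comp continuous_snd
  have h2 : Continuous fun p : ℝ × ℝ => (u p.1 : ℂ) * I :=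
    (Complex.continuous_ofReal.comp (hu.comp continuous_fst)).mul continuous_const
  exact continuous_const.mul ((Complex.continuous_sin.comp (h1.add h2)).neg.mul ((continuous_th' η).comp continuous_snd))

theorem continuous_Zqu (η : ℝ) {u : ℝ → ℝ} (hu : Continuous u) : Continuous fun p : ℝ × ℝ => Zq η (u p.1) p.2 := by
  unfold Zq
  exact (Complex.continuous_ofReal.comp (Real.continuous_exp.comp (hu.comp continuous_fst).neg)).mul
    ((contDiff_Zp η).continuous.comp continuous_snd)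

variable {G : ℂ[X]} {n : ℕ} {η φ₀ ε : ℝ} {L : Fin n → ℂ → ℂ} {X : Fin n → ℝ → ℂ} (S : Sys G n η φ₀ ε L X)

include S

/-- the loops avoid the critical values -/
theorem Sys.not_crit (t : ℝ) : Wp η t ∉ Cv G := by
  rintro ⟨x, hx, hxw⟩
  have hmon : (G - Polynomial.C (Wp η t)).Monic := by
    refine S.monic.sub_of_left ?_
    rw [degree_eq_natDegree S.monic.ne_zero, S.deg]
    exact lt_of_le_of_lt degree_C_le (by exact_mod_cast S.pos)
  have h1 := Pool.Agent.TH826.UH.eq_prod hmon (by rw [natDegree_sub_C, S.deg]) (S.Xinj t) fun l => by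
    rw [eval_sub, eval_C, S.Xev, sub_self]
  have hxw' : G.eval x = Wp η t := hxw
  have h2 : x ∈ Set.range fun l => X l t := by
    have h3 := S.prodX t x
    rw [hxw', sub_self] at h3
    obtain ⟨l, -, hl⟩ := Finset.prod_eq_zero_iff.1 h3.symm
    exact ⟨l, (sub_eq_zero.1 hl).symm⟩
  obtain ⟨l, rfl⟩ := h2
  have h3 := Pool.Agent.TH826.UH.deriv_prod_ne_zero (S.Xinj t) l
  rw [← h1, derivative_sub, derivative_C, sub_zero] at h3
  exact h3 hx

/-- small heights avoid the critical values -/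
theorem Sys.exists_r : ∃ r : ℝ, 0 < r ∧ ∀ u t : ℝ, |u| < r → Wq η u t ∉ Cv G := by
  have hfin : (Cv G).Finite := Pool.Agent.Y775.CC.finite_crit (by rw [S.deg]; exact S.pos)
  have h1 : ∀ y ∈ Icc (0 : ℝ) 1, ∀ᶠ z : ℝ × ℝ in 𝓝 ((0 : ℝ), y), Wq η z.1 z.2 ∉ Cv G := by
    intro y _
    have h2 : Wq η 0 y ∉ Cv G := by
      rw [Wq_zero]
      exact S.not_crit y
    have h5 : ContinuousAt (fun p : ℝ × ℝ => Wq η p.1 p.2) ((0 : ℝ), y) := (continuous_Wq η).continuousAt
    have h6 : (Cv G)ᶜ ∈ 𝓝 ((fun p : ℝ × ℝ => Wq η p.1 p.2) ((0 : ℝ), y)) := hfin.isClosed.isOpen_compl.mem_nhds h2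
    exact h5 h6
  have h3 := (isCompact_Icc (a := (0 : ℝ)) (b := 1)).eventually_forall_of_forall_eventually
    (P := fun u t => Wq η u t ∉ Cv G) h1
  obtain ⟨r, hr, h4⟩ := Metric.eventually_nhds_iff.1 h3
  refine ⟨r, hr, fun u t hu => ?_⟩
  have hp : Function.Periodic (Wq η u) 1 := Wq_add_one η u
  obtain ⟨y, hy, h5⟩ := hp.exists_mem_Ico₀ one_pos t
  rw [h5]
  exact h4 (by rwa [Real.dist_eq, sub_zero]) y ⟨hy.1, hy.2.le⟩

omit S in
theorem lift_family {f : ℝ × ℝ → ℂ} (hf : Continuous f) (hcr : ∀ p, f p ∉ Cv G)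
    (hper : ∀ v t : ℝ, f (v, t + 1) = f (v, t)) {X : ℝ → ℂ} (hX : Continuous X) (hXev : ∀ t, G.eval (X t) = f (0, t))
    (hXper : ∀ t, X (t + 1) = X t) : ∃ F : ℝ × ℝ → ℂ, Continuous F ∧ (∀ t, F (0, t) = X t) ∧
      (∀ v t, F (v, t + 1) = F (v, t)) ∧ ∀ p, G.eval (F p) = f p := by
  have hc0 : Continuous fun t : ℝ => ((0 : ℝ), t) := continuous_const.prodMk continuous_id
  obtain ⟨F, hFc, hF0, hFev⟩ := exists_lift (A := ℝ × ℝ) (G := G) hf hcr (0, 0) (x₀ := X 0) (hXev 0)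
  have h0 : (fun t => F (0, t)) = X :=
    lift_unique (A := ℝ) (G := G) (f := fun t => f (0, t)) (hf.comp hc0) (fun t => hcr (0, t))
      (F := fun t => F (0, t)) (F' := X) (hFc.comp hc0) hX (fun t => hFev (0, t)) hXev (a₀ := 0) hF0
  have h0' : ∀ t, F (0, t) = X t := fun t => congrFun h0 t
  have hc1 : Continuous fun p : ℝ × ℝ => (p.1, p.2 + 1) := continuous_fst.prodMk (continuous_snd.add continuous_const)
  have h1 : (fun p : ℝ × ℝ => F (p.1, p.2 + 1)) = F := by
    refine lift_unique (A := ℝ × ℝ) (G := G) hf hcr (hFc.comp hc1) hFc (fun p => ?_) hFev (a₀ := ((0 : ℝ), (0 : ℝ))) ?_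
    · rw [hFev, hper]
    · show F ((0 : ℝ), (0 : ℝ) + 1) = F ((0 : ℝ), (0 : ℝ))
      rw [h0', h0', hXper]
  exact ⟨F, hFc, h0', fun v t => congrFun h1 (v, t), hFev⟩

omit S in
theorem contDiff_lift {f X : ℝ → ℂ} (hf : ContDiff ℝ 2 f) (hX : Continuous X) (hXev : ∀ t, G.eval (X t) = f t)
    (hd : ∀ t, (derivative G).eval (X t) ≠ 0) : ContDiff ℝ 2 X := by
  rw [contDiff_iff_contDiffAt]
  intro t
  obtain ⟨g, hg, hgev⟩ := exists_inv (hd t)
  have h3 : X =ᶠ[𝓝 t] fun t => g (f t) := by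
    filter_upwards [hX.continuousAt.eventually hgev] with w hw
    rw [← hXev w, hw]
  rw [hXev t] at hg
  exact ((hg.restrict_scalars ℝ).comp t hf.contDiffAt).congr_of_eventuallyEq h3

omit S in
theorem exists_u {r : ℝ} (hr : 0 < r) : ∃ u : ℝ → ℝ, Continuous u ∧ u 0 = 0 ∧ Function.Injective u ∧ ∀ v, |u v| < r := by
  have hπ := Real.pi_pos
  refine ⟨fun v => (2 * r / π) * Real.arctan v, continuous_const.mul Real.continuous_arctan, by simp, ?_, ?_⟩
  · intro a b hab
    have h1 : (2 * r / π) ≠ 0 := by positivity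
    exact Real.arctan_injective (mul_left_cancel₀ h1 hab)
  · intro v
    have h1 := Real.arctan_lt_pi_div_two v
    have h2 := Real.neg_pi_div_two_lt_arctan v
    have h3 : |Real.arctan v| < π / 2 := abs_lt.2 ⟨by linarith, h1⟩
    simp only
    rw [abs_mul, abs_of_pos (by positivity : 0 < 2 * r / π)]
    calc 2 * r / π * |Real.arctan v| < 2 * r / π * (π / 2) := mul_lt_mul_of_pos_left h3 (by positivity)
      _ = r := by field_simp

/-- **the family of loops** -/
theorem Sys.exists_family (l : Fin n) : ∃ (u : ℝ → ℝ) (F : ℝ × ℝ → ℂ), Continuous u ∧ u 0 = 0 ∧ Function.Injective u ∧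
    Continuous F ∧ (∀ t, F (0, t) = X l t) ∧ (∀ v t, F (v, t + 1) = F (v, t)) ∧
    (∀ v, ContDiff ℝ 2 fun t => F (v, t)) ∧ (∀ v t, G.eval (F (v, t)) = Wq η (u v) t) ∧
    ∀ v t, (derivative G).eval (F (v, t)) ≠ 0 := by
  obtain ⟨r, hr, hW⟩ := S.exists_r
  obtain ⟨u, huc, hu0, huinj, hur⟩ := exists_u hr
  have hcr : ∀ p : ℝ × ℝ, Wq η (u p.1) p.2 ∉ Cv G := fun p => hW _ _ (hur p.1)
  have hfc : Continuous fun p : ℝ × ℝ => Wq η (u p.1) p.2 := continuous_Wqu η huc
  obtain ⟨F, hFc, h0, hper, hFev⟩ := lift_family (G := G) (f := fun p : ℝ × ℝ => Wq η (u p.1) p.2) hfc hcr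
    (fun v t => Wq_add_one η (u v) t) (X := X l) (S.loop l).continuous (fun t => by
      show G.eval (X l t) = Wq η (u 0) t
      rw [hu0, Wq_zero, S.Xev]) (S.loop l).perX
  have hd : ∀ v t, (derivative G).eval (F (v, t)) ≠ 0 := fun v t h => hcr (v, t) ⟨_, h, hFev (v, t)⟩
  have hcv : ∀ v : ℝ, Continuous fun t : ℝ => (v, t) := fun v => continuous_const.prodMk continuous_id
  exact ⟨u, F, huc, hu0, huinj, hFc, h0, hper, fun v => contDiff_lift (contDiff_Wq η (u v)) (hFc.comp (hcv v))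
    (fun t => hFev (v, t)) (hd v), fun v t => hFev (v, t), hd⟩

omit S in
/-- integrals of functions which depend continuously on a parameter -/
theorem tendsto_int {H : ℝ → ℝ → ℝ} (cH : ∀ t ∈ Icc (0 : ℝ) 1, ContinuousAt (fun p : ℝ × ℝ => H p.1 p.2) (0, t))
    (hc : ∀ᶠ v in 𝓝 (0 : ℝ), ContinuousOn (H v) (Icc 0 1)) :
    Tendsto (fun v => ∫ t in (0 : ℝ)..1, H v t) (𝓝 0) (𝓝 (∫ t in (0 : ℝ)..1, H 0 t)) := by
  have hcomp := isCompact_Icc (a := (0 : ℝ)) (b := 1)
  rw [Metric.tendsto_nhds]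
  intro δ hδ
  have h1 : ∀ᶠ v in 𝓝 (0 : ℝ), ∀ t ∈ Icc (0 : ℝ) 1, |H v t - H 0 t| < δ / 2 := by
    refine hcomp.eventually_forall_of_forall_eventually (P := fun v t => |H v t - H 0 t| < δ / 2) fun y hy => ?_
    have c1 := cH y hy
    have c0 : ContinuousAt (fun p : ℝ × ℝ => ((0 : ℝ), p.2)) ((0 : ℝ), y) :=
      (continuous_const.prodMk continuous_snd).continuousAt
    have c2 : ContinuousAt (fun p : ℝ × ℝ => H 0 p.2) ((0 : ℝ), y) :=
      ContinuousAt.comp (f := fun p : ℝ × ℝ => (((0 : ℝ), p.2) : ℝ × ℝ)) (g := fun p : ℝ × ℝ => H p.1 p.2) c1 c0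
    have c3 : Tendsto (fun p : ℝ × ℝ => |H p.1 p.2 - H 0 p.2|) (𝓝 ((0 : ℝ), y)) (𝓝 |H 0 y - H 0 y|) :=
      (c1.tendsto.sub c2.tendsto).abs
    rw [sub_self, abs_zero] at c3
    exact c3.eventually (gt_mem_nhds (by positivity))
  have h0 : ContinuousOn (H 0) (Icc 0 1) := hc.self_of_nhds
  have i1 : ∀ v, ContinuousOn (H v) (Icc 0 1) → IntervalIntegrable (H v) volume 0 1 := by
    intro v hv
    refine ContinuousOn.intervalIntegrable ?_
    rwa [uIcc_of_le zero_le_one]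
  filter_upwards [h1, hc] with v hv hv2
  rw [Real.dist_eq, ← intervalIntegral.integral_sub (i1 v hv2) (i1 0 h0)]
  have h2 := intervalIntegral.norm_integral_le_of_norm_le_const (a := (0 : ℝ)) (b := 1) (C := δ / 2)
    (f := fun t => H v t - H 0 t) (fun t ht => by
      rw [uIoc_of_le zero_le_one] at ht
      exact (hv t ⟨ht.1.le, ht.2⟩).le)
  rw [sub_zero, abs_one, mul_one, Real.norm_eq_abs] at h2
  linarith

/-- the integrand -/
noncomputable def HH (G : ℂ[X]) (η : ℝ) (u : ℝ → ℝ) (F : ℝ × ℝ → ℂ) (b : ℂ) (v t : ℝ) : ℝ :=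
  Real.log ‖Zq η (u v) t‖ * (Wq' η (u v) t / (derivative G).eval (F (v, t)) / (F (v, t) - b)).im -
    Real.log ‖F (v, t) - b‖ * (ld (Zp η) t).im

omit S in
theorem pr_HH {G : ℂ[X]} {η : ℝ} {u : ℝ → ℝ} {F : ℝ × ℝ → ℂ} (hYs : ∀ v, ContDiff ℝ 2 fun t => F (v, t))
    (hYev : ∀ v t, G.eval (F (v, t)) = Wq η (u v) t) (hYd : ∀ v t, (derivative G).eval (F (v, t)) ≠ 0) (b : ℂ) (v : ℝ) :
    (pr (Zq η (u v)) fun t => F (v, t) - b) = ∫ t in (0 : ℝ)..1, HH G η u F b v t := by
  have hY' : ∀ t, HasDerivAt (fun t => F (v, t)) (Wq' η (u v) t / (derivative G).eval (F (v, t))) t := by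
    intro t
    have h1 : HasDerivAt (fun t => F (v, t)) (deriv (fun t => F (v, t)) t) t :=
      ((hYs v).differentiable (by norm_num) t).hasDerivAt
    have h2 : HasDerivAt (fun t => G.eval (F (v, t))) ((derivative G).eval (F (v, t)) * deriv (fun t => F (v, t)) t) t :=
      HasDerivAt.comp (h₂ := fun x => G.eval x) t (G.hasDerivAt (F (v, t))) h1
    have h3 : HasDerivAt (fun t => G.eval (F (v, t))) (Wq' η (u v) t) t := by
      have e : (fun t => G.eval (F (v, t))) = Wq η (u v) := funext fun t => hYev v t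
      rw [e]
      exact hasDerivAt_Wq η (u v) t
    have h4 := h2.unique h3
    refine h1.congr_deriv ?_
    rw [← h4, mul_div_cancel_left₀ _ (hYd v t)]
  unfold pr
  refine intervalIntegral.integral_congr fun t _ => ?_
  have h1 : deriv (fun t => F (v, t) - b) t = Wq' η (u v) t / (derivative G).eval (F (v, t)) :=
    ((hY' t).sub_const b).deriv
  have h2 : deriv (Zq η (u v)) t / Zq η (u v) t = ld (Zp η) t := ld_Zq η (u v) t
  simp only [HH]
  rw [h1, h2]

omit S in
theorem cont_HH {G : ℂ[X]} {η : ℝ} {u : ℝ → ℝ} {F : ℝ × ℝ → ℂ} (huc : Continuous u) (hYc : Continuous F)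
    (hYd : ∀ v t, (derivative G).eval (F (v, t)) ≠ 0) {b : ℂ} {p : ℝ × ℝ} (hp : F p ≠ b) :
    ContinuousAt (fun p : ℝ × ℝ => HH G η u F b p.1 p.2) p := by
  unfold HH
  have c1 : ContinuousAt (fun p : ℝ × ℝ => Real.log ‖Zq η (u p.1) p.2‖) p :=
    ((continuous_Zqu η huc).norm.continuousAt).log (norm_ne_zero_iff.2 (Zq_ne_zero _ _ _))
  have c2 : ContinuousAt (fun p : ℝ × ℝ => F (p.1, p.2) - b) p := (hYc.sub continuous_const).continuousAt
  have c2' : ContinuousAt (fun p : ℝ × ℝ => (derivative G).eval (F (p.1, p.2))) p :=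
    ((derivative G).continuous.comp hYc).continuousAt
  have c3 : ContinuousAt (fun p : ℝ × ℝ =>
      (Wq' η (u p.1) p.2 / (derivative G).eval (F (p.1, p.2)) / (F (p.1, p.2) - b)).im) p :=
    Complex.continuous_im.continuousAt.comp
      (((continuous_Wqu' η huc).continuousAt.div c2' (hYd _ _)).div c2 (sub_ne_zero.2 hp))
  have c4 : ContinuousAt (fun p : ℝ × ℝ => Real.log ‖F (p.1, p.2) - b‖) p :=
    c2.norm.log (norm_ne_zero_iff.2 (sub_ne_zero.2 hp))
  have cl : Continuous fun p : ℝ × ℝ => (ld (Zp η) p.2).im :=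
    Complex.continuous_im.comp ((continuous_ld (nz_Zp η)).comp continuous_snd)
  exact (c1.mul c3).sub (c4.mul cl.continuousAt)

omit S in
/-- **continuity of the regulators of the family** -/
theorem tendsto_pr {G : ℂ[X]} {η : ℝ} {u : ℝ → ℝ} {F : ℝ × ℝ → ℂ} (huc : Continuous u) (hu0 : u 0 = 0)
    (hYc : Continuous F) (hYs : ∀ v, ContDiff ℝ 2 fun t => F (v, t))
    (hYev : ∀ v t, G.eval (F (v, t)) = Wq η (u v) t) (hYd : ∀ v t, (derivative G).eval (F (v, t)) ≠ 0) {b : ℂ}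
    (hb : ∀ t ∈ Icc (0 : ℝ) 1, F (0, t) ≠ b) :
    Tendsto (fun v => pr (Zq η (u v)) fun t => F (v, t) - b) (𝓝 0) (𝓝 (pr (Zp η) fun t => F (0, t) - b)) ∧
      ∀ᶠ v in 𝓝 (0 : ℝ), ∀ t ∈ Icc (0 : ℝ) 1, F (v, t) ≠ b := by
  have hcomp := isCompact_Icc (a := (0 : ℝ)) (b := 1)
  have hev : ∀ᶠ v in 𝓝 (0 : ℝ), ∀ t ∈ Icc (0 : ℝ) 1, F (v, t) ≠ b := by
    refine hcomp.eventually_forall_of_forall_eventually (P := fun v t => F (v, t) ≠ b) fun y hy => ?_
    have h1 : ContinuousAt F ((0 : ℝ), y) := hYc.continuousAt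
    exact h1.eventually_ne (hb y hy)
  refine ⟨?_, hev⟩
  have e0 : (pr (Zp η) fun t => F (0, t) - b) = ∫ t in (0 : ℝ)..1, HH G η u F b 0 t := by
    rw [← pr_HH hYs hYev hYd b 0, hu0]
    have e1 : Zq η 0 = Zp η := by
      funext t
      unfold Zq
      simp
    rw [e1]
  rw [e0]
  simp only [pr_HH hYs hYev hYd b]
  refine tendsto_int (fun t ht => cont_HH huc hYc hYd (hb t ht)) ?_
  filter_upwards [hev] with v hv
  intro t ht
  have c0 : ContinuousAt (fun t : ℝ => (v, t)) t := (continuous_const.prodMk continuous_id).continuousAt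
  exact (ContinuousAt.comp (f := fun t : ℝ => ((v, t) : ℝ × ℝ)) (g := fun p : ℝ × ℝ => HH G η u F b p.1 p.2)
    (cont_HH huc hYc hYd (hv t ht)) c0).continuousWithinAt

end Pool.Agent.N76.EC
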