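import Pool.Agent.N76.EC.Fml
import Pool.Agent.TH826.UH.Tor

set_option autoImplicit false

/-!
# Loops of transcendental points: regulators on the function field
-/

namespace Pool.Agent.N76.EC

open Polynomial MeasureTheory Set Filter Topology
open Pool.Agent.TH826.MK (KQ Torus symb pairing)
open Pool.Agent.TH826.HD
open Pool.Agent.TH826.UH (pr NZ pr_div pairing_eq_pr PtS contDiff_evA)

section trans

variable {L : Type*} [Field L] [NumberField L]

/-- a point with a transcendental coordinate `z` has a transcendental coordinate `x` -/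
theorem trans_x {s : L →+* ℂ} {F : L[X]} {x z : ℂ} (h : z ^ 2 - F.eval₂ s x * z + 1 = 0) (hz : ¬ IsAlgebraic ℚ z)
    {p : L[X]} (hp : p ≠ 0) : p.eval₂ s x ≠ 0 := by
  intro h0
  let _ : Algebra L ℂ := s.toAlgebra
  have hsc : IsScalarTower ℚ L ℂ := IsScalarTower.of_algebraMap_eq' (Subsingleton.elim _ _)
  have hxL : IsAlgebraic L x := ⟨p, hp, h0⟩
  have hxi : IsIntegral L x := hxL.isIntegral
  have hFi : IsIntegral L (F.eval₂ s x) := by
    have h1 : F.eval₂ s x = aeval x F := rfl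
    rw [h1]
    have h2 : Algebra.adjoin L {x} ≤ integralClosure L ℂ := Algebra.adjoin_le (Set.singleton_subset_iff.2 hxi)
    exact h2 (aeval_mem_adjoin_singleton L x)
  apply hz
  set c : integralClosure L ℂ := ⟨F.eval₂ s x, hFi⟩ with hc
  have h2 : IsIntegral (integralClosure L ℂ) z := by
    refine ⟨X ^ 2 - C c * X + 1, ?_, ?_⟩
    · monicity!
    · simp only [eval₂_add, eval₂_sub, eval₂_mul, eval₂_X_pow, eval₂_C, eval₂_X, eval₂_one]
      exact h
  have h3 : IsIntegral L z := isIntegral_trans z h2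
  have h4 : Algebra.IsIntegral ℚ L := inferInstance
  exact (isIntegral_trans (R := ℚ) (A := L) z h3).isAlgebraic

/-- **the evaluation at a transcendental point is injective** -/
theorem evP_injective {s : L →+* ℂ} {F : L[X]} (hF : 0 < F.natDegree) {x z : ℂ} (h : z ^ 2 - F.eval₂ s x * z + 1 = 0)
    (hz : ¬ IsAlgebraic ℚ z) : Function.Injective (evP s x z h) := by
  have hdom : IsDomain (PRing F) := isDomain_PRing hF
  let _ : Algebra L[X] (PRing F) := (ppol F).toAlgebra
  have hint : Algebra.IsIntegral L[X] (PRing F) := by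
    have h0 : Module.Finite L[X] (AdjoinRoot (peqn F)) := (monic_peqn F).finite_adjoinRoot
    have h1 : Algebra.IsIntegral L[X] (AdjoinRoot (peqn F)) := inferInstance
    exact ⟨h1.isIntegral⟩
  rw [injective_iff_map_eq_zero]
  have h2 : RingHom.ker (evP s x z h) = ⊥ := by
    apply Ideal.eq_bot_of_comap_eq_bot (R := L[X])
    rw [eq_bot_iff]
    intro p hp
    rw [Ideal.mem_comap, RingHom.mem_ker] at hp
    have h3 : p.eval₂ s x = 0 := by
      rw [← evP_ppol s x z h p]
      exact hp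
    by_contra hne
    exact trans_x h hz hne h3
  intro a ha
  have h3 : a ∈ RingHom.ker (evP s x z h) := ha
  rwa [h2, Ideal.mem_bot] at h3

end trans

section torus

variable {L : Type*} [Field L] {F : L[X]} {s : L →+* ℂ}

theorem evP_congr {x z x' z' : ℂ} (h : z ^ 2 - F.eval₂ s x * z + 1 = 0) (h' : z' ^ 2 - F.eval₂ s x' * z' + 1 = 0)
    (e : x = x') (e' : z = z') : evP s x z h = evP s x' z' h' := by
  subst e
  subst e'
  rfl

theorem contDiff_evP {X Z : ℝ → ℂ} (hX : ContDiff ℝ 2 X) (hZ : ContDiff ℝ 2 Z)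
    (heq : ∀ t, Z t ^ 2 - F.eval₂ s (X t) * Z t + 1 = 0) (a : PRing F) :
    ContDiff ℝ 2 fun θ : Fin 1 → ℝ => evP s (X (θ 0)) (Z (θ 0)) (heq (θ 0)) a := by
  have hP : ∀ θ : Fin 1 → ℝ, PtS s F (Fin.elim0 : Fin 0 → L) (X (θ 0)) (Z (θ 0)) := fun θ =>
    ⟨heq (θ 0), fun m => m.elim0⟩
  have h1 := contDiff_evA (X := fun θ : Fin 1 → ℝ => X (θ 0)) (Z := fun θ : Fin 1 → ℝ => Z (θ 0))
    (hX.comp (contDiff_apply ℝ ℝ 0)) (hZ.comp (contDiff_apply ℝ ℝ 0)) hP (toP F _ a)
  have e : (fun θ : Fin 1 → ℝ => (hP θ).evA (toP F _ a)) =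
      fun θ : Fin 1 → ℝ => evP s (X (θ 0)) (Z (θ 0)) (heq (θ 0)) a := by
    funext θ
    rw [(hP θ).evA_toP]
    rfl
  rw [← e]
  exact h1

variable (M : Type*) [Field M] [Algebra (PRing F) M] [IsFractionRing (PRing F) M]

theorem lift_div {x z : ℂ} {h : z ^ 2 - F.eval₂ s x * z + 1 = 0} (hinj : Function.Injective (evP s x z h)) (a b : PRing F) :
    (IsFractionRing.lift hinj : M →+* ℂ) (algebraMap (PRing F) M a / algebraMap (PRing F) M b) =
      evP s x z h a / evP s x z h b := by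
  rw [map_div₀, IsFractionRing.lift_algebraMap, IsFractionRing.lift_algebraMap]

/-- **a loop of complex points of the function field** -/
noncomputable def torM {X Z : ℝ → ℂ} (hX : ContDiff ℝ 2 X) (hZ : ContDiff ℝ 2 Z) (hX1 : ∀ t, X (t + 1) = X t)
    (hZ1 : ∀ t, Z (t + 1) = Z t) (heq : ∀ t, Z t ^ 2 - F.eval₂ s (X t) * Z t + 1 = 0)
    (hinj : ∀ t, Function.Injective (evP s (X t) (Z t) (heq t))) : Torus M 1 where
  e θ := IsFractionRing.lift (hinj (θ 0))
  smooth h := by
    obtain ⟨a, b, hb, rfl⟩ := IsFractionRing.div_surjective (A := PRing F) h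
    have hb0 : b ≠ 0 := by
      rintro rfl
      have h1 : (0 : PRing F) * 1 = 0 := zero_mul 1
      have h2 := (mem_nonZeroDivisors_iff.1 hb).2 1 (by simp)
      have h3 := hinj 0
      have h4 := congrArg (evP s (X 0) (Z 0) (heq 0)) h2
      rw [map_one, map_zero] at h4
      exact one_ne_zero h4
    have e : (fun θ : Fin 1 → ℝ => (IsFractionRing.lift (hinj (θ 0)) : M →+* ℂ)
        (algebraMap (PRing F) M a / algebraMap (PRing F) M b)) =
        fun θ : Fin 1 → ℝ => evP s (X (θ 0)) (Z (θ 0)) (heq (θ 0)) a / evP s (X (θ 0)) (Z (θ 0)) (heq (θ 0)) b := by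
      funext θ
      exact lift_div M (hinj (θ 0)) a b
    rw [e]
    simp only [div_eq_mul_inv]
    refine (contDiff_evP hX hZ heq a).mul ((contDiff_evP hX hZ heq b).inv fun θ h0 => hb0 ?_)
    apply hinj (θ 0)
    rw [h0, map_zero]
  periodic θ i := by
    have h0 : (θ + Pi.single i 1 : Fin 1 → ℝ) 0 = θ 0 + 1 := by
      rw [Pi.add_apply, Subsingleton.elim i 0, Pi.single_eq_same]
    ext h
    obtain ⟨a, b, hb, rfl⟩ := IsFractionRing.div_surjective (A := PRing F) h
    rw [lift_div, lift_div, evP_congr (heq _) (heq (θ 0)) (by rw [h0, hX1]) (by rw [h0, hZ1])]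

theorem torM_e {X Z : ℝ → ℂ} (hX : ContDiff ℝ 2 X) (hZ : ContDiff ℝ 2 Z) (hX1 : ∀ t, X (t + 1) = X t)
    (hZ1 : ∀ t, Z (t + 1) = Z t) (heq : ∀ t, Z t ^ 2 - F.eval₂ s (X t) * Z t + 1 = 0)
    (hinj : ∀ t, Function.Injective (evP s (X t) (Z t) (heq t))) (θ : Fin 1 → ℝ) :
    (torM M hX hZ hX1 hZ1 heq hinj).e θ = IsFractionRing.lift (hinj (θ 0)) := rfl

/-- **the regulator on the function field** -/
theorem torM_reg {X Z : ℝ → ℂ} (hX : ContDiff ℝ 2 X) (hZ : NZ Z) (hX1 : ∀ t, X (t + 1) = X t)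
    (hZ1 : ∀ t, Z (t + 1) = Z t) (heq : ∀ t, Z t ^ 2 - F.eval₂ s (X t) * Z t + 1 = 0)
    (hinj : ∀ t, Function.Injective (evP s (X t) (Z t) (heq t))) {n : ℕ} {b : Fin n → L} (f : POpen F b →+* M)
    (hf : ∀ a : PRing F, f (toP F b a) = algebraMap (PRing F) M a) (m l : Fin n) :
    (torM M hX hZ.smooth hX1 hZ1 heq hinj).reg (KQ.map 2 f (symb (pent F b m l))) =
      pr Z (fun t => X t - s (b m)) - pr Z (fun t => X t - s (b l)) := by
  have hz : ∀ t, (IsFractionRing.lift (hinj t) : M →+* ℂ) (f (uz F b : POpen F b)) = Z t := by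
    intro t
    rw [coe_uz, hf, IsFractionRing.lift_algebraMap, evP_pz]
  have hx : ∀ t m, (IsFractionRing.lift (hinj t) : M →+* ℂ) (f (ux F b m : POpen F b)) = X t - s (b m) := by
    intro t m
    rw [coe_ux, hf, IsFractionRing.lift_algebraMap, evP_ppol]
    simp
  have hne : ∀ t m, X t - s (b m) ≠ 0 := by
    intro t m
    rw [← hx t m]
    exact (((ux F b m).isUnit.map f).map _).ne_zero
  have nX : ∀ m, NZ fun t => X t - s (b m) := fun m => ⟨hX.sub contDiff_const, fun t => hne t m⟩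
  rw [KQ.map_symb, ← pr_div hZ (nX m) (nX l), ← pairing_eq_pr hZ ((nX m).div (nX l)), Torus.reg_symb]
  unfold Torus.pair
  congr 1
  funext i θ
  fin_cases i
  · show (IsFractionRing.lift (hinj (θ 0)) : M →+* ℂ) (f (uz F b : POpen F b)) = Z (θ 0)
    exact hz _
  · show (IsFractionRing.lift (hinj (θ 0)) : M →+* ℂ) (f ((ux F b m / ux F b l : (POpen F b)ˣ) : POpen F b)) =
      (X (θ 0) - s (b m)) / (X (θ 0) - s (b l))
    have h1 : (IsFractionRing.lift (hinj (θ 0)) : M →+* ℂ) (f ((ux F b m / ux F b l : (POpen F b)ˣ) : POpen F b)) *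
        (IsFractionRing.lift (hinj (θ 0)) : M →+* ℂ) (f (ux F b l : POpen F b)) =
        (IsFractionRing.lift (hinj (θ 0)) : M →+* ℂ) (f (ux F b m : POpen F b)) := by
      rw [← map_mul, ← map_mul, ← Units.val_mul, div_mul_cancel]
    rw [hx, hx] at h1
    rw [eq_div_iff (hne _ l)]
    exact h1

end torus

end Pool.Agent.N76.EC
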