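import Pool.Agent.N76.EC.Comb
import Pool.Agent.N76.EC.Fam2
import Pool.Agent.N76.IR.Emb

set_option autoImplicit false

/-!
# Full rank at many places: the points, the embeddings and the determinant
-/

namespace Pool.Agent.N76.EC

open Polynomial MeasureTheory Set
open Pool.Agent.TH826.MK (Torus symb circ)
open Pool.Agent.TH826.HD (PRing POpen pent toP pcst pDel)
open Pool.Agent.TH826.UH (PtS mkS mkS_e mkS_reg)
open Pool.Agent.Y775.CC (uu uu_one circ_ne_zero)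
open Pool.Agent.N76.IR (Lc Good exists_embedding' Strip mem_Strip)
open scoped Real

/-- **A loop over the embedding `s`** with the regulators of all symbols `{z, (x - b_m) / (x - b_k)}`. -/
theorem exists_loop {K : Type*} [Field K] {s : K →+* ℂ} {F : K[X]} {n r : ℕ} {η φ₀ ε : ℝ} {L : Fin n → ℂ → ℂ}
    {X : Fin n → ℝ → ℂ} (S : Sys (F.map s) n η φ₀ ε L X) (b : Fin r → K) (β : Fin r → Fin n) (x : Fin r → ℝ)
    (hx : ∀ m, |x m - φ₀| < ε) (hb : ∀ m, s (b m) = L (β m) (x m)) (l : Fin n) :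
    ∃ Γ : Torus (POpen F b) 1, (∀ t (y : K), Γ.e t (pcst F b y) = s y) ∧
      ∀ m k, Γ.reg (symb (pent F b m k)) = J X η L l (β m) (x m) - J X η L l (β k) (x k) := by
  have heq : ∀ t, Zp η t ^ 2 - F.eval₂ s (X l t) * Zp η t + 1 = 0 := by
    intro t
    rw [← eval_map, S.Xev]
    have h1 : Zp η t * (Zp η t)⁻¹ = 1 := mul_inv_cancel₀ (Zp_ne_zero η t)
    rw [← Zp_add_inv]
    linear_combination -h1
  have hP : ∀ t, PtS s F b (X l t) (Zp η t) := by
    intro t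
    refine ⟨heq t, fun m => ?_⟩
    rw [hb m]
    exact S.avoid_real (hx m) l t
  refine ⟨mkS (S.loop l).hX (nz_Zp η).smooth (S.loop l).perX (Zp_add_one η) hP, fun t y => ?_, fun m k => ?_⟩
  · rw [mkS_e, PtS.evA_pcst]
  · rw [mkS_reg (S.loop l).hX (nz_Zp η)]
    simp only [hb]
    rfl

/-- the points -/
theorem exists_point {L : Type*} [Field L] {s : L →+* ℂ} {F : L[X]} (hdeg : 0 < F.natDegree) {N : ℕ} (hN : 0 < N)
    (hsplit : ((Chebyshev.C L N).comp F - C 2).Splits) {x : ℂ}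
    (hx : (Chebyshev.C ℂ N).eval ((F.map s).eval x) = 2) : ∃ b : L, s b = x := by
  have h2 : (((Chebyshev.C L N).comp F - C 2).map s).IsRoot x := by
    rw [IsRoot.def, Pool.Agent.N686.PF.eval_map_comp, hx, map_ofNat, sub_self]
  obtain ⟨b, hb⟩ := hsplit.mem_range_of_isRoot (Pool.Agent.N686.PF.comp_ne_zero (κ := 2) (ζ := 1) s hdeg (by simp) (by
      rw [map_ofNat]
      norm_num) hN) h2
  exact ⟨b, hb⟩

/-- the permutation of the fibre defined by an embedding -/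
theorem exists_perm {n : ℕ} {G : ℂ[X]} {η φ₀ ε : ℝ} {L : Fin n → ℂ → ℂ} {X : Fin n → ℝ → ℂ} (S : Sys G n η φ₀ ε L X)
    {x : Fin n → ℂ} (hx : Function.Injective x) {α : ℝ} (hα : |α - φ₀| < ε) (hG : ∀ k, G.eval (x k) = 2 * Complex.cos α) :
    ∃ ρ : Fin n → Fin n, Function.Bijective ρ ∧ ∀ k, x k = L (ρ k) α := by
  have h1 : ∀ k, ∃ l, x k = L l α := by
    intro k
    have h2 := S.prodL (real_mem hα) (x k)
    rw [hG, sub_self] at h2
    obtain ⟨l, -, hl⟩ := Finset.prod_eq_zero_iff.1 h2.symm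
    exact ⟨l, sub_eq_zero.1 hl⟩
  choose ρ hρ using h1
  refine ⟨ρ, Finite.injective_iff_bijective.1 fun k l hkl => hx ?_, hρ⟩
  rw [hρ k, hρ l, hkl]

theorem map_cheb' {L : Type*} [Field L] (s : L →+* ℂ) (N : ℤ) (y : L) :
    s ((Chebyshev.C L N).eval y) = (Chebyshev.C ℂ N).eval (s y) := by
  rw [← Chebyshev.map_C s, eval_map, eval₂_hom]

theorem uu_cos (t : ℝ) : uu 1 t = 2 * Complex.cos ((2 * π * t : ℝ) : ℂ) := by
  rw [uu_one, ← Complex.ofReal_cos]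
  push_cast
  ring

/-- the `N`-th roots of unity -/
theorem cheb_cos {N : ℕ} (hN : 0 < N) (j : ℤ) :
    (Chebyshev.C ℂ N).eval (2 * Complex.cos ((2 * π * ((j : ℝ) / N) : ℝ) : ℂ)) = 2 := by
  have h0 : (N : ℂ) ≠ 0 := Nat.cast_ne_zero.2 hN.ne'
  set z : ℂ := Complex.exp (((2 * π * ((j : ℝ) / N) : ℝ) : ℂ) * Complex.I) with hz
  have hz0 : z ≠ 0 := Complex.exp_ne_zero _
  have h1 : 2 * Complex.cos ((2 * π * ((j : ℝ) / N) : ℝ) : ℂ) = z + z⁻¹ := by
    rw [hz, ← Complex.exp_neg, Complex.cos, mul_div_cancel₀ _ two_ne_zero, neg_mul]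
  have h2 : z ^ N = 1 := by
    rw [hz, ← Complex.exp_nat_mul]
    have e : (N : ℂ) * (((2 * π * ((j : ℝ) / N) : ℝ) : ℂ) * Complex.I) = j * (2 * π * Complex.I) := by
      push_cast
      field_simp
    rw [e, Complex.exp_int_mul_two_pi_mul_I]
  rw [h1, Pool.Agent.N686.PF.eval_cheb ℂ _ _ (mul_inv_cancel₀ hz0), inv_pow, h2]
  norm_num

/-- **Full rank at many places.** -/
theorem main3 {g m : ℕ} (hm : 0 < m) {K : Type*} [Field K] [NumberField K] {F : K[X]} (hdeg : 0 < F.natDegree)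
    (σ : Fin m → (K →+* ℂ)) {η φ₀ ε : Fin m → ℝ} {B : Fin m → Fin (g + 1) → ℂ → ℂ} {X : Fin m → Fin (g + 1) → ℝ → ℂ}
    (S : ∀ a, Sys (F.map (σ a)) (g + 1) (η a) (φ₀ a) (ε a) (B a) (X a)) {p : ℕ} (hp : 2 ≤ p) :
    ∃ N₀ : ℕ, ∀ N : ℕ, N₀ ≤ N → N.Coprime p → N.Coprime (NumberField.discr K).natAbs →
      ∀ (L : Type*) [Field L] [NumberField L] [Algebra K L],
      ((Chebyshev.C L N).comp (F.map (algebraMap K L)) - C 2).Splits →
      ∀ s₀ : L →+* ℂ, s₀.comp (algebraMap K L) = σ ⟨0, hm⟩ →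
      ∃ (s : Fin m → (L →+* ℂ)) (b : Fin (m * g + 1) → L)
        (Γ : Fin m × Fin g → Torus (POpen (F.map (algebraMap K L)) b) 1),
        s ⟨0, hm⟩ = s₀ ∧
        (∀ x, (Chebyshev.C L N).eval ((F.map (algebraMap K L)).eval (b x)) = 2) ∧
        (∀ a, (s a).comp (algebraMap K L) = σ a) ∧
        (∀ x t (y : L), (Γ x).e t (pcst (F.map (algebraMap K L)) b y) = s x.1 y) ∧
        (Matrix.of fun x k : Fin (m * g) =>
          (Γ (finProdFinEquiv.symm x)).reg (symb (pent (F.map (algebraMap K L)) b k.succ 0))).det ≠ 0 := by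
  classical
  have hπ := Real.pi_pos
  set J' : Fin m → Fin (g + 1) → Fin (g + 1) → ℝ → ℝ := fun a l k x => J (X a) (η a) (B a) l k (2 * π * x) with hJdef
  set W : Fin m → Set ℝ := fun a => {x | |2 * π * x - φ₀ a| < ε a} with hWdef
  have hWI : ∀ a, W a = Ioo ((φ₀ a - ε a) / (2 * π)) ((φ₀ a + ε a) / (2 * π)) := by
    intro a
    ext x
    rw [mem_Ioo, div_lt_iff₀ (by positivity), lt_div_iff₀ (by positivity)]
    show |2 * π * x - φ₀ a| < ε a ↔ _
    rw [abs_lt]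
    constructor
    · rintro ⟨h1, h2⟩
      constructor <;> linarith
    · rintro ⟨h1, h2⟩
      constructor <;> linarith
  have hWo : ∀ a, IsOpen (W a) := fun a => by
    rw [hWI]
    exact isOpen_Ioo
  have hWc : ∀ a, OrdConnected (W a) := fun a => by
    rw [hWI]
    exact ordConnected_Ioo
  set x₀ : Fin m → ℝ := fun a => φ₀ a / (2 * π) with hx₀def
  have hx₀' : ∀ a, 2 * π * x₀ a = φ₀ a := fun a => by
    rw [hx₀def]
    field_simp
  have hx₀ : ∀ a, x₀ a ∈ W a := fun a => by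
    show |2 * π * x₀ a - φ₀ a| < ε a
    rw [hx₀']
    exact (S a).φ_mem
  obtain ⟨κ, N₁, hN₁⟩ := exists_int (J := J') (W := W) (x₀ := x₀) hWo hWc hx₀
    (fun a l k => by
      refine ContinuousOn.comp (g := J (X a) (η a) (B a) l k) (f := fun x => 2 * π * x) ((S a).continuousOn_J l k)
        (continuous_const.mul continuous_id).continuousOn fun x hx => ?_
      have h1 := abs_lt.1 (show |2 * π * x - φ₀ a| < ε a from hx)
      constructor <;> linarith)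
    (fun a c h => (S a).comb_const c fun k α hα => by
      have h1 := h k (α / (2 * π)) (by
        show |2 * π * (α / (2 * π)) - φ₀ a| < ε a
        rwa [mul_div_cancel₀ _ (by positivity : (2 * π) ≠ 0)])
      simp only [hJdef, hx₀', mul_div_cancel₀ _ (by positivity : (2 * π) ≠ 0)] at h1
      exact h1) hp
  refine ⟨N₁ + 1, fun N hN hNp hNd L _ _ _ hsplit s₀ hs₀ => ?_⟩
  have hN0 : 0 < N := by omega
  have : NeZero N := ⟨hN0.ne'⟩
  have hgood := hN₁ N (by omega)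
  set T : ℕ := p ^ κ with hT
  have hTN : ∀ a : ℕ, (T ^ a).Coprime N := fun a =>
    Nat.Coprime.pow_left _ (Nat.Coprime.pow_left _ hNp.symm)
  set F' : L[X] := F.map (algebraMap K L) with hF'
  -- the embeddings
  have hemb : ∀ a : Fin m, ∃ s : L →+* ℂ, s.comp (algebraMap K L) = σ a ∧
      (∀ (y : L) (j : ℤ), s₀ y = uu 1 ((j : ℝ) / N) → s y = uu 1 (((T ^ (a : ℕ) : ℕ) : ℝ) * ((j : ℝ) / N))) ∧
      (a = ⟨0, hm⟩ → s = s₀) := by
    intro a
    by_cases ha : a = ⟨0, hm⟩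
    · refine ⟨s₀, by rw [ha, hs₀], fun y j hy => ?_, fun _ => rfl⟩
      rw [ha, pow_zero, Nat.cast_one, one_mul, hy]
    · obtain ⟨s, h1, h2⟩ := exists_embedding' s₀ (σ a) hNd (hTN a)
      exact ⟨s, h1, h2, fun h => absurd h ha⟩
  choose s hs1 hs2 hs3 using hemb
  have hFs : ∀ a, F'.map (s a) = F.map (σ a) := fun a => by
    rw [hF', Polynomial.map_map, hs1]
  have hFs₀ : F'.map s₀ = F.map (σ ⟨0, hm⟩) := by
    rw [hF', Polynomial.map_map, hs₀]
  have hdeg' : 0 < F'.natDegree := by rwa [hF', natDegree_map]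
  have S' : ∀ a, Sys (F'.map (s a)) (g + 1) (η a) (φ₀ a) (ε a) (B a) (X a) := fun a => by
    rw [hFs]
    exact S a
  -- the fibres
  set Ω := {q : ℤ × (Fin m → ℤ) // ∀ a, ((T : ℕ) : ℝ) ^ (a : ℕ) * ((q.1 : ℝ) / N) - q.2 a ∈ W a} with hΩ
  set y : Ω → Fin m → ℝ := fun ω a => ((T : ℕ) : ℝ) ^ (a : ℕ) * ((ω.1.1 : ℝ) / N) - ω.1.2 a with hy
  have hyW : ∀ ω a, |2 * π * y ω a - φ₀ a| < ε a := fun ω a => ω.2 a
  have hycos : ∀ (ω : Ω) (a : Fin m), uu 1 (((T : ℕ) : ℝ) ^ (a : ℕ) * ((ω.1.1 : ℝ) / N)) = 2 * Complex.cos ((2 * π * y ω a : ℝ) : ℂ) := by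
    intro ω a
    rw [uu_cos]
    have e : ((2 * π * y ω a : ℝ) : ℂ) =
        ((2 * π * (((T : ℕ) : ℝ) ^ (a : ℕ) * ((ω.1.1 : ℝ) / N)) : ℝ) : ℂ) - (ω.1.2 a) * (2 * π) := by
      rw [hy]
      push_cast
      ring
    rw [e, Complex.cos_sub_int_mul_two_pi]
  have hy0 : ∀ ω, 2 * Complex.cos ((2 * π * y ω ⟨0, hm⟩ : ℝ) : ℂ) = uu 1 ((ω.1.1 : ℝ) / N) := by
    intro ω
    rw [← hycos ω ⟨0, hm⟩, pow_zero, one_mul]
  have hpt : ∀ (ω : Ω) (l : Fin (g + 1)), ∃ b : L, s₀ b = B ⟨0, hm⟩ l ((2 * π * y ω ⟨0, hm⟩ : ℝ) : ℂ) := by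
    intro ω l
    refine exists_point hdeg' hN0 hsplit ?_
    rw [hFs₀, (S ⟨0, hm⟩).Lev l _ (real_mem (hyW ω _)), hy0, uu_cos, cheb_cos hN0]
  choose b hb using hpt
  have hbinj : ∀ ω, Function.Injective (b ω) := by
    intro ω l l' h1
    have h2 : B ⟨0, hm⟩ l ((2 * π * y ω ⟨0, hm⟩ : ℝ) : ℂ) = B ⟨0, hm⟩ l' ((2 * π * y ω ⟨0, hm⟩ : ℝ) : ℂ) := by
      rw [← hb, ← hb, h1]
    exact (S ⟨0, hm⟩).Linj _ (real_mem (hyW ω _)) h2
  have hFb : ∀ ω l, s₀ (F'.eval (b ω l)) = uu 1 ((ω.1.1 : ℝ) / N) := fun ω l => by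
    have h1 : (F'.map s₀).eval (s₀ (b ω l)) = s₀ (F'.eval (b ω l)) := by
      rw [eval_map, eval₂_hom]
    rw [← h1, hb, hFs₀, (S ⟨0, hm⟩).Lev l _ (real_mem (hyW ω _)), hy0]
  -- the permutations
  have hperm : ∀ ω a, ∃ ρ : Fin (g + 1) → Fin (g + 1), Function.Bijective ρ ∧
      ∀ l, s a (b ω l) = B a (ρ l) ((2 * π * y ω a : ℝ) : ℂ) := by
    intro ω a
    refine exists_perm (S a) (x := fun l => s a (b ω l)) ((s a).injective.comp (hbinj ω)) (hyW ω a) fun l => ?_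
    have h1 : (F.map (σ a)).eval (s a (b ω l)) = s a (F'.eval (b ω l)) := by
      rw [← hFs a, eval_map, eval₂_hom]
    rw [h1, hs2 a _ ω.1.1 (hFb ω l), Nat.cast_pow, hycos]
  choose τ hτ1 hτ2 using hperm
  set e : Fin m × Fin g ≃ Fin (m * g) := finProdFinEquiv with he
  set v : Ω × Fin (g + 1) → Fin (m * g) → ℝ := fun x z =>
    J' (e.symm z).1 (e.symm z).2.succ (τ x.1 (e.symm z).1 x.2) (y x.1 (e.symm z).1) with hv
  -- a base point
  obtain ⟨ω₀⟩ : Nonempty Ω := by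
    obtain ⟨j, n, h1, -⟩ := hgood (0, 1) (by
      intro h
      have := congrArg Prod.snd h
      simp at this)
    exact ⟨⟨(j, n), h1⟩⟩
  obtain ⟨β, hβ⟩ := Pool.Agent.N686.PF.exists_det (fun x z => v x z - v (ω₀, 0) z) (fun c hc => by
    by_contra hc0
    have h1 : ∀ x, ∑ z, c z * v x z = ∑ z, c z * v (ω₀, 0) z := by
      intro x
      have h2 := hc x
      simp only [mul_sub, Finset.sum_sub_distrib] at h2
      linarith
    set c' : Fin m → Fin g → ℝ := fun a l => c (e (a, l)) with hc'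
    have hc'0 : (c', ∑ z, c z * v (ω₀, 0) z) ≠ (0 : (Fin m → Fin g → ℝ) × ℝ) := by
      intro h2
      apply hc0
      funext z
      have h3 : c' (e.symm z).1 (e.symm z).2 = 0 := by
        have h4 := congrArg Prod.fst h2
        simp only at h4
        rw [h4]
        rfl
      rw [hc'] at h3
      simp only [Prod.mk.eta, Equiv.apply_symm_apply] at h3
      exact h3
    obtain ⟨j, n, hjn, hj⟩ := hgood _ hc'0
    set ω : Ω := ⟨(j, n), hjn⟩ with hω
    obtain ⟨k, hk⟩ := hj (τ ω) (hτ1 ω)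
    apply hk
    show Lc J' c' _ (τ ω) k = ∑ z, c z * v (ω₀, 0) z
    rw [← h1 (ω, k)]
    unfold Lc
    rw [← e.sum_comp, Fintype.sum_prod_type]
    refine Finset.sum_congr rfl fun a _ => Finset.sum_congr rfl fun l _ => ?_
    simp only [hv, Equiv.symm_apply_apply, hc']
    rfl)
  -- the points and the loops
  set Y : Fin (m * g + 1) → Ω × Fin (g + 1) := Fin.cons (ω₀, 0) β with hY
  have hb' : ∀ (a : Fin m) (x : Fin (m * g + 1)), s a (b (Y x).1 (Y x).2) =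
      B a (τ (Y x).1 a (Y x).2) ((2 * π * y (Y x).1 a : ℝ) : ℂ) := fun a x => hτ2 (Y x).1 a (Y x).2
  choose Γ hΓ1 hΓ2 using fun x : Fin m × Fin g => exists_loop (S' x.1)
    (fun z : Fin (m * g + 1) => b (Y z).1 (Y z).2) (fun z => τ (Y z).1 x.1 (Y z).2)
    (fun z => 2 * π * y (Y z).1 x.1) (fun z => hyW _ _) (hb' x.1) x.2.succ
  refine ⟨s, fun z => b (Y z).1 (Y z).2, Γ, hs3 _ rfl, fun x => ?_, hs1, hΓ1, ?_⟩
  · apply s₀.injective
    rw [map_cheb', hFb, uu_cos, cheb_cos hN0, map_ofNat]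
  · have h1 : (Matrix.of fun x k : Fin (m * g) =>
        (Γ (e.symm x)).reg (symb (pent F' (fun z => b (Y z).1 (Y z).2) k.succ 0))) =
        Matrix.of fun x k : Fin (m * g) => v (β k) x - v (ω₀, 0) x := by
      ext x k
      rw [Matrix.of_apply, Matrix.of_apply, hΓ2]
      rfl
    rw [h1]
    exact hβ

end Pool.Agent.N76.EC
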