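import Mathlib

set_option autoImplicit false

/-!
# Orders of rational matrices
-/

namespace Pool.Agent.N76.EC

open Module Polynomial

variable {V : Type*} [AddCommGroup V] [Module ℚ V] [FiniteDimensional ℚ V]

/-- an element of order `p ^ (a + 1)` -/
theorem totient_le_finrank {p : ℕ} (hp : p.Prime) {a : ℕ} {T : V →ₗ[ℚ] V} (h1 : T ^ (p ^ (a + 1)) = 1)
    (h2 : T ^ (p ^ a) ≠ 1) : Nat.totient (p ^ (a + 1)) ≤ finrank ℚ V := by
  have : Fact p.Prime := ⟨hp⟩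
  have hfac := cyclotomic_prime_pow_mul_X_pow_sub_one ℚ p a
  have hdvd : minpoly ℚ T ∣ cyclotomic (p ^ (a + 1)) ℚ * (X ^ p ^ a - 1) := by
    rw [hfac]
    refine minpoly.dvd ℚ T ?_
    rw [map_sub, map_pow, aeval_X, map_one, h1, sub_self]
  have hirr : Irreducible (cyclotomic (p ^ (a + 1)) ℚ) := cyclotomic.irreducible_rat (pow_pos hp.pos _)
  by_cases h3 : cyclotomic (p ^ (a + 1)) ℚ ∣ minpoly ℚ T
  · have hint : IsIntegral ℚ T := Algebra.IsIntegral.isIntegral T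
    have h4 := natDegree_le_of_dvd h3 (minpoly.ne_zero hint)
    rw [natDegree_cyclotomic] at h4
    have h5 := natDegree_le_of_dvd (LinearMap.minpoly_dvd_charpoly T) (LinearMap.charpoly_monic T).ne_zero
    rw [LinearMap.charpoly_natDegree] at h5
    exact h4.trans h5
  · exfalso
    have hcop : IsCoprime (cyclotomic (p ^ (a + 1)) ℚ) (minpoly ℚ T) := (hirr.coprime_iff_not_dvd).2 h3
    obtain ⟨c, hc⟩ := hcop.symm.dvd_of_dvd_mul_left hdvd
    apply h2
    have h4 := congrArg (aeval T) hc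
    rw [map_sub, map_pow, aeval_X, map_one, map_mul, minpoly.aeval, zero_mul, sub_eq_zero] at h4
    exact h4

/-- **a rational automorphism of finite order of a small space** -/
theorem exists_pow_eq_one {p : ℕ} (hp : p.Prime) {T : V →ₗ[ℚ] V} {M : ℕ} (hM : M ≠ 0) (hT : T ^ M = 1) {e : ℕ}
    (hdim : finrank ℚ V < Nat.totient (p ^ (e + 1))) : ∃ q : ℕ, ¬ p ∣ q ∧ T ^ (q * p ^ e) = 1 := by
  classical
  obtain ⟨a, q, hq, rfl⟩ := Nat.exists_eq_pow_mul_and_not_dvd hM p hp.ne_one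
  refine ⟨q, hq, ?_⟩
  set T₁ := T ^ q with hT₁
  have h1 : T₁ ^ (p ^ a) = 1 := by
    rw [hT₁, ← pow_mul, mul_comm, hT]
  rw [pow_mul, ← hT₁]
  have hex : ∃ a, T₁ ^ (p ^ a) = 1 := ⟨a, h1⟩
  set b := Nat.find hex with hb
  have hb1 : T₁ ^ (p ^ b) = 1 := Nat.find_spec hex
  by_cases hbe : b ≤ e
  · obtain ⟨c, hc⟩ := pow_dvd_pow p hbe
    rw [hc, pow_mul, hb1, one_pow]
  · exfalso
    obtain ⟨c, hc⟩ : ∃ c, b = c + 1 := ⟨b - 1, by omega⟩
    have hb2 : T₁ ^ (p ^ c) ≠ 1 := Nat.find_min hex (by omega)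
    rw [hc] at hb1
    have h3 := totient_le_finrank hp hb1 hb2
    have h4 : Nat.totient (p ^ (e + 1)) ≤ Nat.totient (p ^ (c + 1)) := by
      refine Nat.le_of_dvd (Nat.totient_pos.2 (pow_pos hp.pos _)) (Nat.totient_dvd_of_dvd ?_)
      exact pow_dvd_pow p (by omega)
    omega

end Pool.Agent.N76.EC
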