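import Pool.Agent.N76.EC.Rig
import Pool.Agent.N76.EC.Ari
import Pool.Agent.N76.EC.Ord
import Pool.Agent.N76.EC.Aut
import Pool.Agent.N76.EC.Main3

set_option autoImplicit false

/-!
# Linear growth of the rational span of the regulator vectors
-/

namespace Pool.Agent.N76.EC

open Polynomial MeasureTheory Set Filter Topology Module
open Pool.Agent.TH826.MK (circ)
open Pool.Agent.Y775.CC (uu uu_one)
open scoped Real

/-- linearly independent members of a finite family -/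
theorem exists_indep {V : Type*} [AddCommGroup V] [Module ℚ V] {ι : Type*} [Finite ι] (f : ι → V) {R : ℕ}
    (h : R ≤ finrank ℚ (Submodule.span ℚ (range f))) : ∃ g : Fin R → ι, LinearIndependent ℚ fun i => f (g i) := by
  classical
  obtain ⟨B, hBt, hBspan, hB⟩ := exists_linearIndependent ℚ (range f)
  have hfin : (range f).Finite := finite_range f
  have : Finite B := (hfin.subset hBt).to_subtype
  have : Fintype B := Fintype.ofFinite B
  have h4 : finrank ℚ (Submodule.span ℚ (range f)) = Fintype.card B := by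
    have h5 := finrank_span_eq_card (R := ℚ) hB
    rw [Subtype.range_coe] at h5
    rw [← hBspan, h5]
  rw [h4] at h
  obtain ⟨e⟩ : Nonempty (Fin R ↪ B) := by
    refine Function.Embedding.nonempty_of_card_le ?_
    rwa [Fintype.card_fin]
  choose g hg using fun j : Fin R => hBt (e j).2
  refine ⟨g, ?_⟩
  have h5 : (fun j => f (g j)) = (fun x : B => (x : V)) ∘ e := by
    funext j
    exact hg j
  rw [h5]
  exact hB.comp e e.injective

section vec

variable {K : Type*} [Field K] {L : Type*} [Field L] [Algebra K L]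

/-- the embeddings of `L` above `σ` -/
abbrev Em (L : Type*) [Field L] [Algebra K L] (σ : K →+* ℂ) : Type _ :=
  {s : L →+* ℂ // s.comp (algebraMap K L) = σ}

/-- the special points of level `N` -/
def Sp (F : K[X]) (L : Type*) [Field L] [Algebra K L] (N : ℕ) : Set L :=
  {b | (Chebyshev.C L N).eval ((F.map (algebraMap K L)).eval b) = 2 ∧ ((F.map (algebraMap K L)).eval b) ^ 2 ≠ 4}

/-- the vector of the regulators of `{z, x - b}` -/
noncomputable def vv {n : ℕ} (σ : K →+* ℂ) (X : Fin n → ℝ → ℂ) (η : ℝ) (b : L) : Em L σ × Fin n → ℝ :=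
  fun x => P (X x.2) (Zp η) (x.1.1 b)

/-- the span of the differences -/
noncomputable def WW {n : ℕ} (F : K[X]) (σ : K →+* ℂ) (X : Fin n → ℝ → ℂ) (η : ℝ) (N : ℕ) :
    Submodule ℚ (Em L σ × Fin n → ℝ) :=
  Submodule.span ℚ {w | ∃ b ∈ Sp F L N, ∃ b' ∈ Sp F L N, w = vv σ X η b - vv σ X η b'}

theorem Sp_finite {F : K[X]} (hF : 0 < F.natDegree) (s : L →+* ℂ) {N : ℕ} (hN : 0 < N) : (Sp F L N).Finite := by
  classical
  have hF' : 0 < (F.map (algebraMap K L)).natDegree := by rwa [natDegree_map]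
  have hne : (Chebyshev.C L N).comp (F.map (algebraMap K L)) - C 2 ≠ 0 :=
    Pool.Agent.N686.PF.comp_ne_zero (κ := 2) (ζ := 1) s hF' (by simp) (by
      rw [map_ofNat]
      norm_num) hN
  refine ((((Chebyshev.C L N).comp (F.map (algebraMap K L)) - C 2).roots.toFinset).finite_toSet).subset ?_
  rintro b ⟨hb, -⟩
  rw [Finset.mem_coe, Multiset.mem_toFinset, mem_roots hne, IsRoot.def, eval_sub, eval_comp, hb, eval_C, sub_self]

theorem Sp_map {F : K[X]} {N : ℕ} (τ : L ≃ₐ[K] L) {b : L} (hb : b ∈ Sp F L N) : τ b ∈ Sp F L N := by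
  have h1 : (F.map (algebraMap K L)).eval (τ b) = τ ((F.map (algebraMap K L)).eval b) := by
    rw [eval_map_algebraMap, eval_map_algebraMap, aeval_algHom_apply]
  refine ⟨?_, ?_⟩
  · rw [h1]
    have h2 : (Chebyshev.C L N).eval (τ ((F.map (algebraMap K L)).eval b)) =
        τ ((Chebyshev.C L N).eval ((F.map (algebraMap K L)).eval b)) := by
      have h3 := Chebyshev.map_C (τ : L →+* L) N
      conv_lhs => rw [← h3]
      rw [eval_map]
      exact eval₂_hom (τ : L →+* L) _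
    rw [h2, hb.1, map_ofNat]
  · rw [h1, ← map_pow]
    intro h
    apply hb.2
    apply τ.injective
    rw [h, map_ofNat]

/-- the action of an automorphism -/
noncomputable def TT {n : ℕ} (σ : K →+* ℂ) (τ : L ≃ₐ[K] L) :
    (Em L σ × Fin n → ℝ) →ₗ[ℚ] (Em L σ × Fin n → ℝ) :=
  LinearMap.funLeft ℚ ℝ fun x => (⟨x.1.1.comp (τ : L →+* L), by
    ext y
    have h1 := congrArg (fun f : K →+* ℂ => f y) x.1.2
    simp only [RingHom.comp_apply] at h1 ⊢
    rw [← h1]
    congr 1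
    exact τ.commutes y⟩, x.2)

theorem TT_vv {n : ℕ} (σ : K →+* ℂ) (X : Fin n → ℝ → ℂ) (η : ℝ) (τ : L ≃ₐ[K] L) (b : L) :
    TT σ τ (vv σ X η b) = vv σ X η (τ b) := rfl

theorem TT_pow {n : ℕ} (σ : K →+* ℂ) (τ : L ≃ₐ[K] L) (m : ℕ) : (TT (n := n) σ τ) ^ m = TT σ (τ ^ m) := by
  induction m with
  | zero =>
    rw [pow_zero, pow_zero]
    ext f x
    rfl
  | succ m ih =>
    rw [pow_succ, ih, pow_succ]
    ext f x
    rfl

end vec

section main

variable {K : Type*} [Field K] [NumberField K] {F : K[X]} {n : ℕ} {σ : K →+* ℂ} {η φ₀ ε : ℝ} {B : Fin n → ℂ → ℂ}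
  {X : Fin n → ℝ → ℂ} (S : Sys (F.map σ) n η φ₀ ε B X)

include S

/-- **An automorphism which acts trivially on the regulators.** -/
theorem Sys.no_trivial (hn : 2 ≤ n) {p : ℕ} (hp : p.Prime) : ∃ C₀ : ℕ, ∀ k i : ℕ, C₀ ≤ i → i + C₀ ≤ k →
    ∀ (L : Type*) [Field L] [NumberField L] [Algebra K L],
      ((Chebyshev.C L (p ^ k : ℕ)).comp (F.map (algebraMap K L)) - C 2).Splits →
      ∀ s₀ : Em L σ, ∀ (x : ℤ) (τ : L ≃ₐ[K] L), Ex p i x →
      (∀ (y : L) (j : ℤ), s₀.1 y = uu 1 ((j : ℝ) / (p ^ k : ℕ)) →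
        s₀.1 (τ y) = uu 1 ((x : ℝ) * ((j : ℝ) / (p ^ k : ℕ)))) →
      ¬ ∀ b ∈ Sp F L (p ^ k), ∀ b' ∈ Sp F L (p ^ k),
        vv σ X η (τ b) - vv σ X η (τ b') = vv σ X η b - vv σ X η b' := by
  classical
  obtain ⟨α₀, β₀, δ, hδ, h1, h2, h3⟩ := S.exists_rigid hn
  obtain ⟨C₁, hC₁⟩ := exists_multiple α₀ β₀ hδ hp
  refine ⟨C₁, fun k i hi hk L _ _ _ hsplit s₀ x τ hx hτ hcon => ?_⟩
  set N : ℕ := p ^ k with hN
  have hN0 : 0 < N := pow_pos hp.pos k
  have : NeZero N := ⟨hN0.ne'⟩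
  obtain ⟨j, a, b₀, ha, hb⟩ := hC₁ k i hi hk x hx
  rw [← hN] at ha hb
  set α : ℝ := 2 * π * ((j : ℝ) / N - a) with hα
  set β : ℝ := 2 * π * ((x : ℝ) * ((j : ℝ) / N) - b₀) with hβ
  have hαW := h1 α ha
  have hβW := h2 β hb
  set F' : L[X] := F.map (algebraMap K L) with hF'
  have hFs : F'.map s₀.1 = F.map σ := by
    rw [hF', Polynomial.map_map, s₀.2]
  have hdeg : 0 < F'.natDegree := by
    have h4 := S.deg
    rw [natDegree_map] at h4
    rw [hF', natDegree_map, h4]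
    exact S.pos
  have hcosα : (2 * Complex.cos (α : ℂ)) = uu 1 ((j : ℝ) / N) := by
    rw [uu_cos]
    have e : ((α : ℝ) : ℂ) = ((2 * π * ((j : ℝ) / N) : ℝ) : ℂ) - a * (2 * π) := by
      rw [hα]
      push_cast
      ring
    rw [e, Complex.cos_sub_int_mul_two_pi]
  have hcosβ : (2 * Complex.cos (β : ℂ)) = uu 1 ((x : ℝ) * ((j : ℝ) / N)) := by
    rw [uu_cos]
    have e : ((β : ℝ) : ℂ) = ((2 * π * ((x : ℝ) * ((j : ℝ) / N)) : ℝ) : ℂ) - b₀ * (2 * π) := by
      rw [hβ]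
      push_cast
      ring
    rw [e, Complex.cos_sub_int_mul_two_pi]
  -- the points
  have hpt : ∀ l : Fin n, ∃ b : L, s₀.1 b = B l (α : ℂ) := by
    intro l
    refine exists_point hdeg hN0 hsplit ?_
    rw [hFs, S.Lev l _ (real_mem hαW), hcosα, uu_cos, cheb_cos hN0]
  choose b hbB using hpt
  have hsF : ∀ y : L, (F.map σ).eval (s₀.1 y) = s₀.1 (F'.eval y) := by
    intro y
    rw [← hFs, eval_map, eval₂_hom]
  have hFb : ∀ l, s₀.1 (F'.eval (b l)) = uu 1 ((j : ℝ) / N) := fun l => by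
    rw [← hsF, hbB, S.Lev l _ (real_mem hαW), hcosα]
  have hbS : ∀ l, b l ∈ Sp F L N := by
    intro l
    refine ⟨?_, ?_⟩
    · apply s₀.1.injective
      have h4 := map_cheb' s₀.1 (N : ℤ) (F'.eval (b l))
      rw [h4, hFb, uu_cos, cheb_cos hN0, map_ofNat]
    · intro h4
      have h5 := congrArg s₀.1 h4
      rw [map_pow, hFb, ← hcosα, map_ofNat] at h5
      have h6 : Complex.sin (α : ℂ) ^ 2 = 0 := by
        have h7 := Complex.sin_sq_add_cos_sq (α : ℂ)
        linear_combination h7 - h5 / 4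
      have h8 : Real.sin α = 0 := by
        have h9 := pow_eq_zero_iff (two_ne_zero) |>.1 h6
        rw [← Complex.ofReal_sin] at h9
        exact_mod_cast h9
      exact (S.sin_pos hαW).ne' h8
  -- the images
  have hτb : ∀ l, ∃ r : Fin n, s₀.1 (τ (b l)) = B r (β : ℂ) := by
    intro l
    have h4 : (F.map σ).eval (s₀.1 (τ (b l))) = 2 * Complex.cos (β : ℂ) := by
      rw [hsF]
      have h5 : F'.eval (τ (b l)) = τ (F'.eval (b l)) := by
        rw [hF', eval_map_algebraMap, eval_map_algebraMap, aeval_algHom_apply]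
      rw [h5, hτ _ j (hFb l), hcosβ]
    have h5 := S.prodL (real_mem hβW) (s₀.1 (τ (b l)))
    rw [h4, sub_self] at h5
    obtain ⟨r, -, hr⟩ := Finset.prod_eq_zero_iff.1 h5.symm
    exact ⟨r, sub_eq_zero.1 hr⟩
  choose ρ hρ using hτb
  obtain ⟨l, q, q', hne⟩ := h3 α β ha hb ρ
  apply hne
  have h4 := congrFun (hcon (b q) (hbS q) (b q') (hbS q')) (s₀, l)
  simp only [Pi.sub_apply, vv] at h4
  rw [hρ, hρ, hbB, hbB] at h4
  exact h4.symm

/-- **Linear growth.** -/
theorem Sys.growth (hn : 2 ≤ n) {p : ℕ} (hp : p.Prime) : ∃ c : ℕ, ∀ k : ℕ, c ≤ k →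
    ∀ (L : Type*) [Field L] [NumberField L] [Algebra K L] [Normal K L],
      ((Chebyshev.C L (p ^ k : ℕ)).comp (F.map (algebraMap K L)) - C 2).Splits → Em L σ →
      p ^ (k - c) ≤ finrank ℚ (WW (L := L) F σ X η (p ^ k)) := by
  classical
  obtain ⟨C₁, hC₁⟩ := S.no_trivial hn hp
  obtain ⟨a, ha⟩ := exists_exponent hp (f := (finrank ℚ K).factorial) (Nat.factorial_ne_zero _)
  refine ⟨2 * C₁ + 2 + a, fun k hk L _ _ _ _ hsplit s₀ => ?_⟩
  obtain ⟨e, he⟩ : ∃ e, k = C₁ + 2 + a + e := ⟨k - (C₁ + 2 + a), by omega⟩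
  have hN0 : 0 < p ^ k := pow_pos hp.pos k
  have : NeZero (p ^ k) := ⟨hN0.ne'⟩
  have hcop : (1 + p ^ 2).Coprime (p ^ k) := by
    refine Nat.Coprime.pow_right _ ?_
    have h1 : (1 + p * p).Coprime p := by
      rw [Nat.coprime_add_mul_right_left]
      exact Nat.coprime_one_left _
    rwa [pow_two]
  obtain ⟨τ, hτ⟩ := exists_tau (K := K) s₀.1 (N := p ^ k) hcop
  set x : ℤ := (1 + (p : ℤ) ^ 2) ^ (finrank ℚ K).factorial with hx
  have hxc : (((1 + p ^ 2) ^ (finrank ℚ K).factorial : ℕ) : ℝ) = (x : ℝ) := by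
    rw [hx]
    push_cast
    ring
  rw [hxc] at hτ
  have hdeg : 0 < F.natDegree := by
    have h4 := S.deg
    rw [natDegree_map] at h4
    rw [h4]
    exact S.pos
  set W := WW (L := L) F σ X η (p ^ k) with hW
  have hSf := Sp_finite (L := L) hdeg s₀.1 hN0
  have hWfin : FiniteDimensional ℚ W := by
    refine FiniteDimensional.span_of_finite ℚ ?_
    have h1 : {w : Em L σ × Fin n → ℝ | ∃ b ∈ Sp F L (p ^ k), ∃ b' ∈ Sp F L (p ^ k), w = vv σ X η b - vv σ X η b'} =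
        (fun x : L × L => vv σ X η x.1 - vv σ X η x.2) '' (Sp F L (p ^ k) ×ˢ Sp F L (p ^ k)) := by
      ext w
      constructor
      · rintro ⟨b, hb, b', hb', rfl⟩
        exact ⟨(b, b'), ⟨hb, hb'⟩, rfl⟩
      · rintro ⟨⟨b, b'⟩, ⟨hb, hb'⟩, rfl⟩
        exact ⟨b, hb, b', hb', rfl⟩
    rw [h1]
    exact (hSf.prod hSf).image _
  have hTW : ∀ w ∈ W, TT σ τ w ∈ W := by
    intro w hw
    have h1 : W ≤ W.comap (TT σ τ) := by
      rw [hW]
      unfold WW
      rw [Submodule.span_le]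
      rintro _ ⟨b, hb, b', hb', rfl⟩
      rw [SetLike.mem_coe, Submodule.mem_comap, map_sub, TT_vv, TT_vv]
      exact Submodule.subset_span ⟨τ b, Sp_map τ hb, τ b', Sp_map τ hb', rfl⟩
    exact h1 hw
  have hKL : FiniteDimensional K L := FiniteDimensional.right ℚ K L
  have hord : orderOf τ ≠ 0 := (isOfFinOrder_of_finite τ).orderOf_pos.ne'
  have hT1 : ((TT σ τ).restrict hTW) ^ (orderOf τ) = 1 := by
    rw [Module.End.pow_restrict]
    ext w
    show ((TT σ τ) ^ (orderOf τ)) (w : Em L σ × Fin n → ℝ) _ = _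
    rw [TT_pow, pow_orderOf_eq_one]
    rfl
  have hmain : Nat.totient (p ^ (e + 1)) ≤ finrank ℚ W := by
    by_contra hcon
    push Not at hcon
    obtain ⟨q, hq, hTq⟩ := exists_pow_eq_one hp hord hT1 hcon
    have hx2 : Ex p (2 + a + e) (x ^ (q * p ^ e)) := ha.pow_mul hp hq (by omega)
    refine hC₁ k (2 + a + e) (by omega) (by omega) L hsplit s₀ (x ^ (q * p ^ e)) (τ ^ (q * p ^ e)) hx2
      (tau_pow hτ _) fun b hb b' hb' => ?_
    have h1 : vv σ X η b - vv σ X η b' ∈ W := Submodule.subset_span ⟨b, hb, b', hb', rfl⟩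
    have h2 := congrArg (fun f : W →ₗ[ℚ] W => ((f ⟨_, h1⟩ : W) : Em L σ × Fin n → ℝ)) hTq
    rw [Module.End.pow_restrict] at h2
    have h3 : ((TT σ τ) ^ (q * p ^ e)) (vv σ X η b - vv σ X η b') = vv σ X η b - vv σ X η b' := h2
    rw [TT_pow, map_sub, TT_vv, TT_vv] at h3
    exact h3
  refine le_trans ?_ hmain
  rw [Nat.totient_prime_pow_succ hp]
  have h1 : p ^ (k - (2 * C₁ + 2 + a)) ≤ p ^ e := Nat.pow_le_pow_right hp.pos (by omega)
  refine h1.trans (Nat.le_mul_of_pos_right _ ?_)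
  have := hp.two_le
  omega

end main

end Pool.Agent.N76.EC
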