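import Pool.Agent.N76.EC.Main3

set_option autoImplicit false

/-!
# Special points and smoothness for curves over number fields
-/

namespace Pool.Agent.N76.EC

open Polynomial
open Pool.Agent.TH826.MK (KQ symb Torus Unramified)
open Pool.Agent.TH826.HD (PRing POpen pent toP pcst pDel isDomain_PRing pDel_ne_zero liftP
  liftP_toP)
open Pool.Agent.Y775.CC (SmoothPts)
open Pool.Agent.N686.PF

/-- Solutions of `C_N(F(b)) = 2` are special points. -/
theorem special_of_eval {L : Type*} [Field L] (s : L →+* ℂ) {N : ℕ} (hN : 0 < N) {y : L}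
    (hy : (Chebyshev.C L N).eval y = 2) :
    ∃ (ζ : ℂ) (k : ℕ), k ≠ 0 ∧ ζ ^ k = 1 ∧ s y = ζ + ζ⁻¹ := by
  obtain ⟨η, hη⟩ : ∃ η : ℂ, η ^ 2 - s y * η + 1 = 0 := by
    obtain ⟨d, hd⟩ := IsAlgClosed.exists_pow_nat_eq ((s y) ^ 2 - 4) two_pos
    exact ⟨(s y + d) / 2, by linear_combination hd / 4⟩
  have hη0 : η ≠ 0 := by
    rintro rfl
    norm_num at hη
  have hsy : s y = η + η⁻¹ := by
    field_simp
    linear_combination -hη
  have h3 : η ^ N + (η⁻¹) ^ N = 2 := by
    rw [← eval_cheb ℂ η η⁻¹ (mul_inv_cancel₀ hη0), ← hsy, ← map_ofNat s 2, ← hy, ← Chebyshev.map_C s,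
      eval_map, eval₂_hom]
  have h4 : (η ^ N - 1) * (η ^ N - 1) = 0 := by
    have h5 : η ^ N * (η⁻¹) ^ N = 1 := by rw [← mul_pow, mul_inv_cancel₀ hη0, one_pow]
    linear_combination η ^ N * h3 - h5
  refine ⟨η, N, hN.ne', ?_, hsy⟩
  rcases mul_eq_zero.1 h4 with h5 | h5 <;> exact sub_eq_zero.1 h5

/-- If `F² - 4` is squarefree then `2` and `-2` are not critical values of `F` at any complex place. -/
theorem not_crit {K : Type*} [Field K] [CharZero K] {F : K[X]} (hF : Squarefree (F ^ 2 - 4)) (s : K →+* ℂ) {x : ℂ}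
    (hx : (derivative F).eval₂ s x = 0) : F.eval₂ s x ^ 2 ≠ 4 := by
  intro h
  obtain ⟨a, b, hab⟩ := (PerfectField.separable_iff_squarefree.2 hF : (F ^ 2 - 4).Separable)
  have h1 := congrArg (fun P : K[X] => P.eval₂ s x) hab
  have h4 : (4 : K[X]) = C 4 := (map_ofNat C 4).symm
  have h5 : (4 : K[X]).eval₂ s x = 4 := by rw [h4, eval₂_C, map_ofNat]
  have h6 : derivative (4 : K[X]) = 0 := by rw [h4, derivative_C]
  simp only [eval₂_add, eval₂_mul, eval₂_sub, eval₂_pow, eval₂_one, derivative_sub, h5, h6, sub_zero,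
    derivative_pow, hx, mul_zero, add_zero, h, sub_self] at h1
  exact zero_ne_one h1

theorem not_crit' {K : Type*} [Field K] [CharZero K] {F : K[X]} (hF : Squarefree (F ^ 2 - 4)) (s : K →+* ℂ) {c : ℂ}
    (hc : c ^ 2 = 4) : c ∉ Cv (F.map s) := by
  rintro ⟨x, hx, hxc⟩
  have hx' : (derivative F).eval₂ s x = 0 := by
    rw [← eval_map, ← derivative_map]
    exact hx
  refine not_crit hF s hx' ?_
  have h1 : (F.map s).eval x = c := hxc
  rw [← eval_map, h1, hc]

/-- Smoothness of the complex points. -/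
theorem smooth_of_squarefree {K : Type*} [Field K] [CharZero K] {F : K[X]} (hF : Squarefree (F ^ 2 - 4))
    (s : K →+* ℂ) : SmoothPts s F := by
  intro x z h
  by_cases h1 : 2 * z - F.eval₂ s x = 0
  · right
    have h2 : F.eval₂ s x = 2 * z := by linear_combination -h1
    have h3 : z ^ 2 = 1 := by
      rw [h2] at h
      linear_combination -h
    have hz : z ≠ 0 := by
      rintro rfl
      norm_num at h3
    refine mul_ne_zero (fun hd => not_crit hF s hd ?_) hz
    rw [h2]
    linear_combination 4 * h3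
  · exact Or.inl h1

theorem squarefree_map {K L : Type*} [Field K] [CharZero K] [Field L] [Algebra K L] {F : K[X]}
    (hF : Squarefree (F ^ 2 - 4)) : Squarefree ((F.map (algebraMap K L)) ^ 2 - 4) := by
  have h1 : ((F ^ 2 - 4).map (algebraMap K L)).Separable :=
    (PerfectField.separable_iff_squarefree.2 hF).map
  rw [Polynomial.map_sub, Polynomial.map_pow, Polynomial.map_ofNat] at h1
  exact h1.squarefree

/-- the symbols of special points are unramified -/
theorem exists_lift_unramified {L : Type*} [Field L] [CharZero L] {F : L[X]} (hmL : F.Monic) (hdL : 0 < F.natDegree)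
    (hFL : ∀ i, IsIntegral ℤ (F.coeff i)) (s : L →+* ℂ) {N : ℕ} (hN : 0 < N) {r : ℕ} {b : Fin r → L}
    (hb : ∀ i, (Chebyshev.C L N).eval (F.eval (b i)) = 2) (M : Type*) [Field M] [Algebra (PRing F) M]
    [IsFractionRing (PRing F) M] :
    ∃ f : POpen F b →+* M, (∀ a : PRing F, f (toP F b a) = algebraMap (PRing F) M a) ∧
      ∀ k l, KQ.map 2 f (symb (pent F b k l)) ∈ Unramified M 2 := by
  have hinj : Function.Injective (algebraMap (PRing F) M) := IsFractionRing.injective _ _
  have hdom := isDomain_PRing hdL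
  have hne : algebraMap (PRing F) M (pDel F b) ≠ 0 := by
    rw [Ne, map_eq_zero_iff _ hinj]
    exact pDel_ne_zero b
  have hspec : ∀ k, ∃ (ζ : ℂ) (n : ℕ), n ≠ 0 ∧ ζ ^ n = 1 ∧ s (F.eval (b k)) = ζ + ζ⁻¹ := fun k =>
    special_of_eval s hN (hb k)
  have hint : ∀ k, IsIntegral ℤ (b k) := fun k => by
    obtain ⟨ξ, n, hn, h1, h2⟩ := hspec k
    exact isIntegral_special s hmL hdL hFL hn h1 h2
  exact ⟨liftP (algebraMap (PRing F) M) hne, fun a => liftP_toP _ _ _,
    fun k l => Pool.Agent.TH826.UH.symb_mem_unramified _ s hFL hint k l hspec⟩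

end Pool.Agent.N76.EC
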