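import Pool.Agent.N76.EC.Sys

set_option autoImplicit false

/-!
# The regulator integrals of the `n` loops at the points of the branches

`J l k α` is the regulator integral of the loop `l` at the point `L k α` over `2 cos α`. The sum over `l` does not
depend on `α`, and a combination of the loops for which all the functions of `α` are constant has equal coefficients.
-/

namespace Pool.Agent.N76.EC

open Polynomial MeasureTheory Set Filter Topology Complex
open Pool.Agent.TH826.UH (pr NZ pr_mul pr_one cont_int pr_prod pr_neg)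
open Pool.Agent.N76.IR (Strip mem_Strip isOpen_Strip convex_Strip)
open scoped ComplexConjugate Interval Real

/-- the winding number is real -/
theorem re_int_ld {v : ℝ → ℂ} (hv : NZ v) (hper : ∀ t, v (t + 1) = v t) : (∫ s in (0 : ℝ)..1, ld v s).re = 0 := by
  have h1 := Complex.reCLM.intervalIntegral_comp_comm ((continuous_ld hv).intervalIntegrable (μ := volume) 0 1)
  simp only [Complex.reCLM_apply] at h1
  rw [← h1]
  have h2 := intervalIntegral.integral_eq_sub_of_hasDerivAt (a := 0) (b := 1) (fun s _ => hasDerivAt_log hv s)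
    ((continuous_re.comp (continuous_ld hv)).intervalIntegrable _ _)
  have e : v 1 = v 0 := by
    have := hper 0
    rwa [zero_add] at this
  rw [h2, e, sub_self]

theorem loop_Wp (η : ℝ) : Loop (Wp η) (Zp η) := ⟨contDiff_Wp η, nz_Zp η, Wp_add_one η, Zp_add_one η⟩

theorem aux_pf {a z ζ ξ : ℂ} (h3 : z - ζ ≠ 0) (h4 : z - ξ ≠ 0) (h5 : z ≠ 0) (h6 : ζ - ξ ≠ 0) :
    a / z * ((z - ζ) * (z - ξ) / z)⁻¹ = (ζ - ξ)⁻¹ * (a / (z - ζ) - a / (z - ξ)) := by
  field_simp
  ring

/-- **the symbol `{z, z + 1/z - 2 cos α}`** -/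
theorem T_Wp {η α : ℝ} (h0 : η ≠ 0) (hα : Real.sin α ≠ 0) : (T (Wp η) (Zp η) (2 * Complex.cos α)).im = 0 := by
  set ζ : ℂ := Complex.exp (α * I) with hζ
  have hζ0 : ζ ≠ 0 := Complex.exp_ne_zero _
  have hw : 2 * Complex.cos α = ζ + ζ⁻¹ := by
    rw [hζ, ← Complex.exp_neg, Complex.cos, mul_div_cancel₀ _ two_ne_zero, neg_mul]
  have hd : ζ - ζ⁻¹ = ((2 * Real.sin α : ℝ) : ℂ) * I := by
    rw [hζ, ← Complex.exp_neg, ← neg_mul, Complex.exp_mul_I, Complex.exp_mul_I, Complex.cos_neg, Complex.sin_neg]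
    push_cast
    ring
  have hne : ∀ t, Wp η t - (ζ + ζ⁻¹) ≠ 0 := fun t => by
    rw [← hw, sub_ne_zero]
    exact cos_im_zero h0 hα
  have hfac : ∀ t, Wp η t - (ζ + ζ⁻¹) = (Zp η t - ζ) * (Zp η t - ζ⁻¹) / Zp η t := by
    intro t
    rw [← Zp_add_inv]
    have := Zp_ne_zero η t
    field_simp
    ring
  have h1 : ∀ t, Zp η t - ζ ≠ 0 := fun t h => hne t (by rw [hfac, h, zero_mul, zero_div])
  have h2 : ∀ t, Zp η t - ζ⁻¹ ≠ 0 := fun t h => hne t (by rw [hfac, h, mul_zero, zero_div])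
  have n1 : NZ fun t => Zp η t - ζ := ⟨(contDiff_Zp η).sub contDiff_const, h1⟩
  have n2 : NZ fun t => Zp η t - ζ⁻¹ := ⟨(contDiff_Zp η).sub contDiff_const, h2⟩
  have hs : ((2 * Real.sin α : ℝ) : ℂ) * I ≠ 0 :=
    mul_ne_zero (Complex.ofReal_ne_zero.2 (mul_ne_zero two_ne_zero hα)) I_ne_zero
  have e : T (Wp η) (Zp η) (2 * Complex.cos α) = (((2 * Real.sin α : ℝ) : ℂ) * I)⁻¹ *
      ((∫ s in (0 : ℝ)..1, ld (fun t => Zp η t - ζ) s) - ∫ s in (0 : ℝ)..1, ld (fun t => Zp η t - ζ⁻¹) s) := by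
    rw [← intervalIntegral.integral_sub ((continuous_ld n1).intervalIntegrable _ _)
      ((continuous_ld n2).intervalIntegrable _ _), ← intervalIntegral.integral_const_mul]
    unfold T
    refine intervalIntegral.integral_congr fun t _ => ?_
    show ld (Zp η) t * (Wp η t - 2 * Complex.cos α)⁻¹ = _
    rw [hw, hfac, ← hd]
    unfold ld
    have hdd : DifferentiableAt ℝ (Zp η) t := (contDiff_Zp η).differentiable (by norm_num) t
    rw [deriv_sub_const, deriv_sub_const]
    have h3 := h1 t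
    have h4 := h2 t
    have h5 := Zp_ne_zero η t
    have h6 : ζ - ζ⁻¹ ≠ 0 := by rw [hd]; exact hs
    exact aux_pf h3 h4 h5 h6
  have r1 := re_int_ld n1 fun t => by rw [Zp_add_one]
  have r2 := re_int_ld n2 fun t => by rw [Zp_add_one]
  rw [e]
  set A := ∫ s in (0 : ℝ)..1, ld (fun t => Zp η t - ζ) s
  set B := ∫ s in (0 : ℝ)..1, ld (fun t => Zp η t - ζ⁻¹) s
  have hAB : A - B = ((A - B).im : ℂ) * I := by
    apply Complex.ext
    · rw [sub_re, r1, r2, re_ofReal_mul, I_re]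
      ring
    · rw [im_ofReal_mul, I_im, mul_one]
  have hs2 : (2 * Real.sin α : ℝ) ≠ 0 := mul_ne_zero two_ne_zero hα
  rw [hAB, mul_inv, mul_mul_mul_comm, inv_mul_cancel₀ I_ne_zero, mul_one, ← Complex.ofReal_inv, ← Complex.ofReal_mul,
    ofReal_im]

variable {G : ℂ[X]} {n : ℕ} {η φ₀ ε : ℝ} {L : Fin n → ℂ → ℂ} {X : Fin n → ℝ → ℂ} (S : Sys G n η φ₀ ε L X)

/-- the regulator integral of the loop `l` at the point `L k α` -/
noncomputable def J (X : Fin n → ℝ → ℂ) (η : ℝ) (L : Fin n → ℂ → ℂ) (l k : Fin n) (α : ℝ) : ℝ :=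
  P (X l) (Zp η) (L k α)

include S

theorem Sys.Xint (l : Fin n) (t : ℝ) (k : ℤ) : X l (t + k) = X l t := by
  have hp : Function.Periodic (X l) 1 := (S.loop l).perX
  have := hp.int_mul k t
  rwa [mul_one] at this

omit S in
theorem real_mem {α : ℝ} (hα : |α - φ₀| < ε) : (α : ℂ) ∈ Strip φ₀ ε := by
  rw [mem_Strip, ofReal_re]
  exact hα

theorem Sys.sin_pos {α : ℝ} (hα : |α - φ₀| < ε) : 0 < Real.sin α := by
  have h1 := abs_lt.1 hα
  have h2 := S.h0
  have h3 := S.h1
  exact Real.sin_pos_of_pos_of_lt_pi (by linarith) (by linarith)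

/-- the loops do not meet the other branches -/
theorem Sys.avoid {l k : Fin n} (hlk : l ≠ k) {θ : ℂ} (hθ : θ ∈ Strip φ₀ ε) (t : ℝ) : X l t ≠ L k θ := by
  intro h
  have h1 : Complex.cos (th η t) = Complex.cos θ := by
    have h2 : 2 * Complex.cos (th η t) = 2 * Complex.cos θ := by
      rw [← S.Lev k θ hθ, ← h, S.Xev]
      rfl
    exact mul_left_cancel₀ two_ne_zero h2
  have key : ∀ s : ℝ, X l s = X l t → th η s = θ → False := by
    intro s h3 h4
    have h5 : |2 * π * s - φ₀| < ε := by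
      rw [← h4, mem_Strip, th_re] at hθ
      exact hθ
    have h6 := S.XL l s h5
    rw [h3, h4, h] at h6
    exact hlk (S.Linj θ hθ h6).symm
  obtain ⟨j, hj | hj⟩ := Complex.cos_eq_cos_iff.1 h1
  · exact key (t + j) (S.Xint l t j) (by rw [th_add_int, hj]; ring)
  · refine key (-t + j) ?_ (by rw [th_add_int, th_neg, hj]; ring)
    rw [S.Xint, S.Xneg]

theorem Sys.avoid_real {k : Fin n} {α : ℝ} (hα : |α - φ₀| < ε) (l : Fin n) (t : ℝ) : X l t ≠ L k α := by
  intro h
  have h1 : Wp η t = 2 * Complex.cos α := by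
    rw [← S.Lev k α (real_mem hα), ← h, S.Xev]
  exact cos_im_zero S.hη.ne' (S.sin_pos hα).ne' h1

/-- the fibres of the loops -/
theorem Sys.prodX (t : ℝ) (b : ℂ) : G.eval b - Wp η t = ∏ l, (b - X l t) := by
  have hmon : (G - C (Wp η t)).Monic := by
    refine S.monic.sub_of_left ?_
    rw [degree_eq_natDegree S.monic.ne_zero, S.deg]
    exact lt_of_le_of_lt degree_C_le (by exact_mod_cast S.pos)
  have h1 := Pool.Agent.TH826.UH.eq_prod hmon (by rw [natDegree_sub_C, S.deg]) (S.Xinj t) fun l => by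
    rw [eval_sub, eval_C, S.Xev, sub_self]
  have h2 := congrArg (eval b) h1
  rw [eval_sub, eval_C, eval_prod] at h2
  rw [h2]
  refine Finset.prod_congr rfl fun l _ => ?_
  rw [eval_sub, eval_X, eval_C]

theorem Sys.prodL {θ : ℂ} (hθ : θ ∈ Strip φ₀ ε) (b : ℂ) : G.eval b - 2 * Complex.cos θ = ∏ l, (b - L l θ) := by
  have hmon : (G - C (2 * Complex.cos θ)).Monic := by
    refine S.monic.sub_of_left ?_
    rw [degree_eq_natDegree S.monic.ne_zero, S.deg]
    exact lt_of_le_of_lt degree_C_le (by exact_mod_cast S.pos)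
  have h1 := Pool.Agent.TH826.UH.eq_prod hmon (by rw [natDegree_sub_C, S.deg]) (S.Linj θ hθ) fun l => by
    rw [eval_sub, eval_C, S.Lev l θ hθ, sub_self]
  have h2 := congrArg (eval b) h1
  rw [eval_sub, eval_C, eval_prod] at h2
  rw [h2]
  refine Finset.prod_congr rfl fun l _ => ?_
  rw [eval_sub, eval_X, eval_C]

/-- the sum over all loops -/
theorem Sys.sum_P {b : ℂ} (hb : ∀ l t, X l t ≠ b) : ∑ l, P (X l) (Zp η) b = P (Wp η) (Zp η) (G.eval b) := by
  classical
  unfold P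
  rw [← pr_prod Finset.univ (nz_Zp η) fun l => nz_sub (S.loop l) (hb l)]
  have h1 : ∀ s, ∏ l, (X l s - b) = (-1) ^ n * (G.eval b - Wp η s) := by
    intro s
    rw [S.prodX s b]
    have h2 : ∏ l, (X l s - b) = ∏ l : Fin n, ((-1) * (b - X l s)) := Finset.prod_congr rfl fun l _ => by ring
    rw [h2, Finset.prod_mul_distrib, Finset.prod_const, Finset.card_univ, Fintype.card_fin]
  simp only [h1]
  rcases neg_one_pow_eq_or ℂ n with h2 | h2
  · rw [h2]
    have e : (fun s => (1 : ℂ) * (G.eval b - Wp η s)) = fun s => -(Wp η s - G.eval b) := by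
      funext s
      ring
    rw [e, pr_neg]
  · rw [h2]
    have e : (fun s => (-1 : ℂ) * (G.eval b - Wp η s)) = fun s => Wp η s - G.eval b := by
      funext s
      ring
    rw [e]

theorem Sys.hasDeriv_sum {α : ℝ} (hα : |α - φ₀| < ε) :
    HasDerivAt (fun α : ℝ => P (Wp η) (Zp η) (2 * Complex.cos α)) 0 α := by
  have hs := (S.sin_pos hα).ne'
  have h1 : HasDerivAt (fun α : ℝ => 2 * Complex.cos (α : ℂ)) (2 * -Complex.sin α) α :=
    ((Complex.hasDerivAt_cos (α : ℂ)).comp_ofReal).const_mul 2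
  have h2 := P_path (loop_Wp η) h1 fun t => cos_im_zero S.hη.ne' hs
  refine h2.congr_deriv ?_
  have e : (2 * -Complex.sin α : ℂ) = ((-2 * Real.sin α : ℝ) : ℂ) := by push_cast; ring
  rw [e, Complex.im_mul_ofReal, T_Wp S.hη.ne' hs, zero_mul]

theorem Sys.φ_mem : |φ₀ - φ₀| < ε := by
  rw [sub_self, abs_zero]
  exact S.hε

/-- **the sum over all loops is constant** -/
theorem Sys.sum_J (k : Fin n) {α : ℝ} (hα : |α - φ₀| < ε) : ∑ l, J X η L l k α = P (Wp η) (Zp η) (2 * Complex.cos φ₀) := by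
  unfold J
  rw [S.sum_P fun l t => S.avoid_real hα l t, S.Lev k _ (real_mem hα)]
  have hconv : Convex ℝ (Ioo (φ₀ - ε) (φ₀ + ε)) := convex_Ioo _ _
  have hin : ∀ x ∈ Ioo (φ₀ - ε) (φ₀ + ε), |x - φ₀| < ε := by
    intro x hx
    rw [abs_lt]
    constructor
    · linarith [hx.1]
    · linarith [hx.2]
  have hα' : α ∈ Ioo (φ₀ - ε) (φ₀ + ε) := by
    have := abs_lt.1 hα
    constructor <;> linarith
  have hφ' : φ₀ ∈ Ioo (φ₀ - ε) (φ₀ + ε) := by
    have := S.hε
    constructor <;> linarith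
  have h1 := hconv.norm_image_sub_le_of_norm_hasDerivWithin_le (C := 0) (f' := fun _ => (0 : ℝ))
    (fun x hx => (S.hasDeriv_sum (hin x hx)).hasDerivWithinAt) (fun x _ => by simp) hφ' hα'
  rw [zero_mul] at h1
  exact sub_eq_zero.1 (norm_le_zero_iff.1 h1)

theorem Sys.continuousOn_J (l k : Fin n) : ContinuousOn (J X η L l k) (Ioo (φ₀ - ε) (φ₀ + ε)) := by
  intro α hα
  have h1 : |α - φ₀| < ε := by
    rw [abs_lt]
    constructor
    · linarith [hα.1]
    · linarith [hα.2]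
  have h2 : ContinuousAt (P (X l) (Zp η)) (L k α) :=
    (P_hasFDeriv (S.loop l) fun t => S.avoid_real h1 l t).continuousAt
  have h3 : ContinuousAt (fun α : ℝ => L k (α : ℂ)) α := by
    have h4 : ContinuousAt (L k) (α : ℂ) :=
      ((S.Ld k).differentiableAt ((isOpen_Strip φ₀ ε).mem_nhds (real_mem h1))).continuousAt
    exact ContinuousAt.comp (f := fun α : ℝ => (α : ℂ)) (g := L k) h4 Complex.continuous_ofReal.continuousAt
  exact (ContinuousAt.comp (f := fun α : ℝ => L k (α : ℂ)) (g := P (X l) (Zp η)) h2 h3).continuousWithinAt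

end Pool.Agent.N76.EC
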