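import Pool.Agent.N76.EC.Grow
import Pool.Agent.N76.EC.Fun

set_option autoImplicit false

/-!
# Linearly independent classes on the function field
-/

namespace Pool.Agent.N76.EC

open Polynomial MeasureTheory Set Filter Topology Module
open Pool.Agent.TH826.MK (KQ Torus symb)
open Pool.Agent.TH826.HD
open Pool.Agent.TH826.UH (pr NZ)
open scoped Real

/-- special values are cosines -/
theorem special_cos {y : ℂ} {N : ℕ} (hN : 0 < N) (hy : (Chebyshev.C ℂ N).eval y = 2) (hy4 : y ^ 2 ≠ 4) :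
    ∃ α : ℝ, Real.sin α ≠ 0 ∧ y = 2 * Complex.cos α := by
  obtain ⟨η, hη⟩ : ∃ η : ℂ, η ^ 2 - y * η + 1 = 0 := by
    obtain ⟨d, hd⟩ := IsAlgClosed.exists_pow_nat_eq (y ^ 2 - 4) two_pos
    exact ⟨(y + d) / 2, by linear_combination hd / 4⟩
  have hη0 : η ≠ 0 := by
    rintro rfl
    norm_num at hη
  have hsy : y = η + η⁻¹ := by
    field_simp
    linear_combination -hη
  have h3 : η ^ N + (η⁻¹) ^ N = 2 := by
    rw [← Pool.Agent.N686.PF.eval_cheb ℂ η η⁻¹ (mul_inv_cancel₀ hη0), ← hsy, hy]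
  have h4 : (η ^ N - 1) * (η ^ N - 1) = 0 := by
    have h5 : η ^ N * (η⁻¹) ^ N = 1 := by rw [← mul_pow, mul_inv_cancel₀ hη0, one_pow]
    linear_combination η ^ N * h3 - h5
  have h5 : η ^ N = 1 := by
    rcases mul_eq_zero.1 h4 with h5 | h5 <;> exact sub_eq_zero.1 h5
  have h6 : ‖η‖ = 1 := Complex.norm_eq_one_of_pow_eq_one h5 hN.ne'
  have h7 : Complex.exp (Complex.arg η * Complex.I) = η := by
    have h8 := Complex.norm_mul_exp_arg_mul_I η
    rwa [h6, Complex.ofReal_one, one_mul] at h8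
  have h8 : y = 2 * Complex.cos (Complex.arg η) := by
    rw [Complex.cos, mul_div_cancel₀ _ two_ne_zero, neg_mul, Complex.exp_neg, h7, ← hsy]
  refine ⟨Complex.arg η, fun h => hy4 ?_, h8⟩
  rw [h8, mul_pow]
  have h9 : Complex.cos (Complex.arg η) ^ 2 = 1 := by
    have h10 := Complex.sin_sq_add_cos_sq (Complex.arg η : ℂ)
    rw [← Complex.ofReal_sin, h, Complex.ofReal_zero] at h10
    linear_combination h10
  rw [h9]
  norm_num

theorem bad_eq {η u t : ℝ} : u = -Real.log ‖Zq η u t‖ - η * (Zq η u t / ‖Zq η u t‖).im := by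
  have h1 : ‖Zq η u t‖ = Real.exp (-u - η * Real.sin (2 * π * t)) := by
    rw [Zq_eq, Complex.norm_exp]
    congr 1
    rw [Complex.mul_I_re, Complex.add_im, th_im, Complex.mul_I_im, Complex.ofReal_re]
    ring
  have h2 : Zq η u t = Real.exp (-u - η * Real.sin (2 * π * t)) * Complex.exp ((2 * π * t : ℝ) * Complex.I) := by
    rw [Zq_eq, Complex.ofReal_exp, ← Complex.exp_add]
    congr 1
    unfold th
    push_cast
    linear_combination (u + η * Complex.sin (2 * π * t) : ℂ) * Complex.I_mul_I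
  have h3 : Zq η u t / ‖Zq η u t‖ = Complex.exp ((2 * π * t : ℝ) * Complex.I) := by
    rw [h1, h2, mul_div_cancel_left₀]
    exact_mod_cast (Real.exp_pos _).ne'
  rw [h3, h1, Real.log_exp, Complex.exp_ofReal_mul_I_im]
  ring

/-- **generic heights** -/
theorem exists_generic {η : ℝ} {u : ℝ → ℝ} (hu : Function.Injective u) {s : Set ℝ} (hs : s ∈ 𝓝 (0 : ℝ)) :
    ∃ v ∈ s, ∀ t, ¬ IsAlgebraic ℚ (Zq η (u v) t) := by
  have h1 : {z : ℂ | IsAlgebraic ℚ z}.Countable := Algebraic.countable ℚ ℂ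
  have h2 : ((fun z : ℂ => -Real.log ‖z‖ - η * (z / ‖z‖).im) '' {z : ℂ | IsAlgebraic ℚ z}).Countable := h1.image _
  have h3 := h2.preimage hu
  obtain ⟨v, hv, hvs⟩ := (h3.dense_compl ℝ).inter_nhds_nonempty hs
  refine ⟨v, hvs, fun t ht => hv ?_⟩
  exact ⟨Zq η (u v) t, ht, bad_eq.symm⟩

section main

variable {K : Type*} [Field K] [NumberField K] {F : K[X]} {n : ℕ} {σ : K →+* ℂ} {η φ₀ ε : ℝ} {B : Fin n → ℂ → ℂ}
  {X : Fin n → ℝ → ℂ} (S : Sys (F.map σ) n η φ₀ ε B X)

include S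

omit [NumberField K] in
theorem Sys.avoid_Sp {L : Type*} [Field L] [Algebra K L] (s : Em L σ) {N : ℕ} (hN : 0 < N) {b : L} (hb : b ∈ Sp F L N)
    (l : Fin n) (t : ℝ) : X l t ≠ s.1 b := by
  intro h
  have h1 : (F.map σ).eval (s.1 b) = Wp η t := by rw [← h, S.Xev]
  have h2 : (F.map σ).eval (s.1 b) = s.1 ((F.map (algebraMap K L)).eval b) := by
    have h3 : F.map σ = (F.map (algebraMap K L)).map s.1 := by rw [Polynomial.map_map, s.2]
    rw [h3, eval_map, eval₂_hom]
  have h3 : (Chebyshev.C ℂ N).eval (s.1 ((F.map (algebraMap K L)).eval b)) = 2 := by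
    rw [← Chebyshev.map_C s.1, eval_map, eval₂_hom, hb.1, map_ofNat]
  have h4 : (s.1 ((F.map (algebraMap K L)).eval b)) ^ 2 ≠ 4 := by
    rw [← map_pow]
    intro h
    apply hb.2
    apply s.1.injective
    rw [h, map_ofNat]
  obtain ⟨α, hα, hy⟩ := special_cos hN h3 h4
  refine cos_im_zero (t := t) S.hη.ne' hα ?_
  rw [← h1, h2, hy]

omit [NumberField K] in
/-- **a base point and independent differences** -/
theorem Sys.exists_points {L : Type*} [Field L] [NumberField L] [Algebra K L] (s₀ : Em L σ) {N : ℕ} (hN : 0 < N) {R : ℕ}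
    (hR0 : 0 < R) (hR : R ≤ finrank ℚ (WW (L := L) F σ X η N)) :
    ∃ b : Fin (R + 1) → L, (∀ i, b i ∈ Sp F L N) ∧
      LinearIndependent ℚ fun i : Fin R => vv σ X η (b i.succ) - vv σ X η (b 0) := by
  have hdeg : 0 < F.natDegree := by
    have h4 := S.deg
    rw [natDegree_map] at h4
    rw [h4]
    exact S.pos
  have hSf := Sp_finite (L := L) hdeg s₀.1 hN
  have : Finite (Sp F L N) := hSf.to_subtype
  obtain ⟨b₀, hb₀⟩ : (Sp F L N).Nonempty := by
    by_contra hemp
    rw [Set.not_nonempty_iff_eq_empty] at hemp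
    have h1 : WW (L := L) F σ X η N = ⊥ := by
      unfold WW
      rw [Submodule.span_eq_bot]
      rintro w ⟨b, hb, -⟩
      rw [hemp] at hb
      exact absurd hb (Set.notMem_empty b)
    rw [h1, finrank_bot] at hR
    omega
  set f : Sp F L N → (Em L σ × Fin n → ℝ) := fun b => vv σ X η b.1 - vv σ X η b₀ with hf
  have hfin : FiniteDimensional ℚ (Submodule.span ℚ (range f)) :=
    FiniteDimensional.span_of_finite ℚ (finite_range f)
  have hle : WW (L := L) F σ X η N ≤ Submodule.span ℚ (range f) := by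
    unfold WW
    rw [Submodule.span_le]
    rintro _ ⟨b, hb, b', hb', rfl⟩
    have h1 : vv σ X η b - vv σ X η b' = f ⟨b, hb⟩ - f ⟨b', hb'⟩ := by
      simp only [hf]
      abel
    rw [h1]
    exact Submodule.sub_mem _ (Submodule.subset_span ⟨_, rfl⟩) (Submodule.subset_span ⟨_, rfl⟩)
  obtain ⟨g, hg⟩ := exists_indep f (hR.trans (Submodule.finrank_mono hle))
  refine ⟨Fin.cons b₀ fun i => (g i).1, fun i => ?_, ?_⟩
  · refine Fin.cases ?_ (fun i => ?_) i
    · exact hb₀
    · exact (g i).2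
  · exact hg

omit [NumberField K] in
/-- **linearly independent classes on the function field** -/
theorem Sys.classes_independent {L : Type*} [Field L] [NumberField L] [Algebra K L] {N : ℕ} (hN : 0 < N) {R : ℕ}
    {b : Fin (R + 1) → L} (hb : ∀ i, b i ∈ Sp F L N)
    (hind : LinearIndependent ℚ fun i : Fin R => vv σ X η (b i.succ) - vv σ X η (b 0))
    (M : Type*) [Field M] [Algebra (PRing (F.map (algebraMap K L))) M] [IsFractionRing (PRing (F.map (algebraMap K L))) M]
    (f : POpen (F.map (algebraMap K L)) b →+* M)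
    (hf : ∀ a : PRing (F.map (algebraMap K L)), f (toP (F.map (algebraMap K L)) b a) = algebraMap _ M a) :
    LinearIndependent ℚ fun i : Fin R => KQ.map 2 f (symb (pent (F.map (algebraMap K L)) b i.succ 0)) := by
  classical
  rw [Fintype.linearIndependent_iff]
  intro q hq
  rw [Fintype.linearIndependent_iff] at hind
  refine hind q ?_
  funext ⟨s, l⟩
  have hgoal : (∑ i, q i • (vv σ X η (b i.succ) - vv σ X η (b 0)) : Em L σ × Fin n → ℝ) (s, l) =
      ∑ i, (q i : ℝ) * (P (X l) (Zp η) (s.1 (b i.succ)) - P (X l) (Zp η) (s.1 (b 0))) := by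
    rw [Finset.sum_apply]
    refine Finset.sum_congr rfl fun i _ => ?_
    rw [Pi.smul_apply, Pi.sub_apply, Rat.smul_def]
    rfl
  rw [hgoal, Pi.zero_apply]
  by_contra hne
  obtain ⟨u, Y, huc, hu0, huinj, hYc, hY0, hYper, hYs, hYev, hYd⟩ := S.exists_family l
  have hav : ∀ i, ∀ t ∈ Icc (0 : ℝ) 1, Y (0, t) ≠ s.1 (b i) := by
    intro i t _
    rw [hY0]
    exact S.avoid_Sp s hN (hb i) l t
  have hlim : ∀ i, Tendsto (fun v => pr (Zq η (u v)) fun t => Y (v, t) - s.1 (b i)) (𝓝 0)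
      (𝓝 (P (X l) (Zp η) (s.1 (b i)))) := by
    intro i
    have h1 := (tendsto_pr huc hu0 hYc hYs hYev hYd (hav i)).1
    have h2 : (fun t => Y (0, t) - s.1 (b i)) = fun t => X l t - s.1 (b i) := by
      funext t
      rw [hY0]
    rw [h2] at h1
    exact h1
  have hlim2 : Tendsto (fun v => ∑ i : Fin R, (q i : ℝ) * ((pr (Zq η (u v)) fun t => Y (v, t) - s.1 (b i.succ)) -
      pr (Zq η (u v)) fun t => Y (v, t) - s.1 (b 0))) (𝓝 0)
      (𝓝 (∑ i, (q i : ℝ) * (P (X l) (Zp η) (s.1 (b i.succ)) - P (X l) (Zp η) (s.1 (b 0))))) :=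
    tendsto_finsetSum _ fun i _ => ((hlim i.succ).sub (hlim 0)).const_mul _
  have hev := hlim2.eventually_ne hne
  obtain ⟨v, hv, htr⟩ := exists_generic (η := η) huinj hev
  have heq : ∀ t, Zq η (u v) t ^ 2 - (F.map (algebraMap K L)).eval₂ s.1 (Y (v, t)) * Zq η (u v) t + 1 = 0 := by
    intro t
    have h1 : (F.map (algebraMap K L)).eval₂ s.1 (Y (v, t)) = Wq η (u v) t := by
      rw [← hYev v t, ← eval_map, Polynomial.map_map, s.2]
    rw [h1, ← Zq_add_inv]
    have := Zq_ne_zero η (u v) t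
    field_simp
    ring
  have hdeg : 0 < (F.map (algebraMap K L)).natDegree := by
    have h4 := S.deg
    rw [natDegree_map] at h4 ⊢
    rw [h4]
    exact S.pos
  have hinj : ∀ t, Function.Injective (evP s.1 (Y (v, t)) (Zq η (u v) t) (heq t)) := fun t =>
    evP_injective hdeg (heq t) (htr t)
  have h1 := congrArg (torM (F := F.map (algebraMap K L)) (s := s.1) M (hYs v) (nz_Zq η (u v)).smooth (hYper v)
    (Zq_add_one η (u v)) heq hinj).reg hq
  rw [map_sum, map_zero] at h1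
  apply hv
  rw [← h1]
  refine Finset.sum_congr rfl fun i _ => ?_
  rw [map_smul, torM_reg M (hYs v) (nz_Zq η (u v)) (hYper v) (Zq_add_one η (u v)) heq hinj f hf i.succ 0, Rat.smul_def]

/-- **Linear growth of the rational rank.** -/
theorem Sys.linear_growth.{v, w} (hn : 2 ≤ n) {p : ℕ} (hp : p.Prime) : ∃ c : ℕ, ∀ k : ℕ, c ≤ k →
    ∀ (L : Type v) [Field L] [NumberField L] [Algebra K L] [Normal K L],
      ((Chebyshev.C L (p ^ k : ℕ)).comp (F.map (algebraMap K L)) - C 2).Splits →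
      ∃ b : Fin (p ^ (k - c) + 1) → L, (∀ i, b i ∈ Sp F L (p ^ k)) ∧
        ∀ (M : Type w) [Field M] [Algebra (PRing (F.map (algebraMap K L))) M]
          [IsFractionRing (PRing (F.map (algebraMap K L))) M] (f : POpen (F.map (algebraMap K L)) b →+* M)
          (_ : ∀ a : PRing (F.map (algebraMap K L)), f (toP (F.map (algebraMap K L)) b a) = algebraMap _ M a),
          LinearIndependent ℚ fun i : Fin (p ^ (k - c)) =>
            KQ.map 2 f (symb (pent (F.map (algebraMap K L)) b i.succ 0)) := by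
  obtain ⟨c, hc⟩ := S.growth hn hp
  refine ⟨c, fun k hk L _ _ _ _ hsplit => ?_⟩
  have hKL : FiniteDimensional K L := FiniteDimensional.right ℚ K L
  have hne : Nonempty (Em L σ) := by
    let _ : Algebra K ℂ := σ.toAlgebra
    have h1 : Nonempty (L →ₐ[K] ℂ) := ⟨IsAlgClosed.lift⟩
    obtain ⟨s⟩ := h1
    exact ⟨⟨s.toRingHom, s.comp_algebraMap⟩⟩
  obtain ⟨s₀⟩ := hne
  have hN0 : 0 < p ^ k := pow_pos hp.pos k
  obtain ⟨b, hb, hind⟩ := S.exists_points s₀ hN0 (pow_pos hp.pos (k - c)) (hc k hk L hsplit s₀)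
  exact ⟨b, hb, fun M _ _ _ f hf => S.classes_independent hN0 hb hind M f hf⟩

end main

end Pool.Agent.N76.EC
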