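import Pool.Agent.N76.EC.LG

set_option autoImplicit false

/-!
# Linear growth over all number fields which contain the special points
-/

namespace Pool.Agent.N76.EC

open Polynomial MeasureTheory Set Filter Topology Module
open Pool.Agent.TH826.MK (KQ Torus symb)
open Pool.Agent.TH826.HD
open Pool.Agent.TH826.UH (pr NZ)
open scoped Real

theorem Em_nonempty {K : Type*} [Field K] [NumberField K] (L : Type*) [Field L] [NumberField L] [Algebra K L]
    (σ : K →+* ℂ) : Nonempty (Em L σ) := by
  have hKL : FiniteDimensional K L := FiniteDimensional.right ℚ K L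
  let _ : Algebra K ℂ := σ.toAlgebra
  have h1 : Nonempty (L →ₐ[K] ℂ) := ⟨IsAlgClosed.lift⟩
  obtain ⟨s⟩ := h1
  exact ⟨⟨s.toRingHom, s.comp_algebraMap⟩⟩

section main

variable {K : Type*} [Field K] [NumberField K] {F : K[X]} {n : ℕ} {σ : K →+* ℂ} {η φ₀ ε : ℝ} {B : Fin n → ℂ → ℂ}
  {X : Fin n → ℝ → ℂ} (S : Sys (F.map σ) n η φ₀ ε B X)

include S

/-- **growth of the regulator vectors over all number fields which contain the special points** -/
theorem Sys.growth_all (hn : 2 ≤ n) {p : ℕ} (hp : p.Prime) : ∃ c : ℕ, ∀ k : ℕ, c ≤ k →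
    ∀ (L : Type*) [Field L] [NumberField L] [Algebra K L],
      ((Chebyshev.C L (p ^ k : ℕ)).comp (F.map (algebraMap K L)) - C 2).Splits →
      ∃ b : Fin (p ^ (k - c) + 1) → L, (∀ i, b i ∈ Sp F L (p ^ k)) ∧
        LinearIndependent ℚ fun i : Fin (p ^ (k - c)) => vv σ X η (b i.succ) - vv σ X η (b 0) := by
  obtain ⟨c, hc⟩ := S.growth hn hp
  refine ⟨c, fun k hk L _ _ _ hsplit => ?_⟩
  have hN0 : 0 < p ^ k := pow_pos hp.pos k
  -- the field generated by the special points
  set Q : K[X] := (Chebyshev.C K (p ^ k : ℕ)).comp F - C 2 with hQ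
  have hmap : ∀ (E : Type _) [Field E] [Algebra K E], Q.map (algebraMap K E) =
      (Chebyshev.C E (p ^ k : ℕ)).comp (F.map (algebraMap K E)) - C 2 := by
    intro E _ _
    rw [hQ, Polynomial.map_sub, Polynomial.map_comp, Chebyshev.map_C, Polynomial.map_C, map_ofNat]
  have hQL : (Q.map (algebraMap K L)).Splits := by
    rw [hmap]
    exact hsplit
  set E := IntermediateField.adjoin K (Q.rootSet L) with hE
  have hsf : Q.IsSplittingField K E := IntermediateField.adjoin_rootSet_isSplittingField hQL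
  have hnorm : Normal K E := Normal.of_isSplittingField Q
  have hnf : NumberField E := NumberField.of_intermediateField E
  have hsplE : ((Chebyshev.C E (p ^ k : ℕ)).comp (F.map (algebraMap K E)) - C 2).Splits := by
    rw [← hmap]
    exact hsf.splits
  obtain ⟨s₀⟩ := Em_nonempty E σ
  obtain ⟨b, hb, hind⟩ := S.exists_points s₀ hN0 (pow_pos hp.pos (k - c)) (hc k hk E hsplE s₀)
  refine ⟨fun i => algebraMap E L (b i), fun i => ?_, ?_⟩
  · have h1 : (F.map (algebraMap K L)).eval (algebraMap E L (b i)) =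
        algebraMap E L ((F.map (algebraMap K E)).eval (b i)) := by
      rw [IsScalarTower.algebraMap_eq K E L, ← Polynomial.map_map, eval_map, eval₂_hom]
    refine ⟨?_, ?_⟩
    · rw [h1, ← Chebyshev.map_C (algebraMap E L), eval_map, eval₂_hom, (hb i).1, map_ofNat]
    · rw [h1, ← map_pow]
      intro h
      apply (hb i).2
      apply (algebraMap E L).injective
      rw [h, map_ofNat]
  · have hext : ∀ s : Em E σ, ∃ s' : Em L σ, s'.1.comp (algebraMap E L) = s.1 := by
      intro s
      obtain ⟨t⟩ := Em_nonempty (K := E) L s.1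
      refine ⟨⟨t.1, ?_⟩, t.2⟩
      rw [IsScalarTower.algebraMap_eq K E L, ← RingHom.comp_assoc, t.2, s.2]
    choose ext hext using hext
    have h2 : (LinearMap.funLeft ℚ ℝ fun x : Em E σ × Fin n => ((ext x.1, x.2) : Em L σ × Fin n)) ∘
        (fun i : Fin (p ^ (k - c)) => vv σ X η (algebraMap E L (b i.succ)) - vv σ X η (algebraMap E L (b 0))) =
        fun i : Fin (p ^ (k - c)) => vv σ X η (b i.succ) - vv σ X η (b 0) := by
      funext i x
      have h3 : ∀ y : E, (ext x.1).1 (algebraMap E L y) = x.1.1 y := fun y =>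
        congrArg (fun f : E →+* ℂ => f y) (hext x.1)
      simp only [Function.comp_apply, LinearMap.funLeft_apply, Pi.sub_apply, vv, h3]
    exact LinearIndependent.of_comp (LinearMap.funLeft ℚ ℝ fun x : Em E σ × Fin n => ((ext x.1, x.2) : Em L σ × Fin n))
      (by rw [h2]; exact hind)

/-- **Linear growth of the rational rank.** -/
theorem Sys.linear_growth_all.{v, w} (hn : 2 ≤ n) {p : ℕ} (hp : p.Prime) : ∃ c : ℕ, ∀ k : ℕ, c ≤ k →
    ∀ (L : Type v) [Field L] [NumberField L] [Algebra K L],
      ((Chebyshev.C L (p ^ k : ℕ)).comp (F.map (algebraMap K L)) - C 2).Splits →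
      ∃ b : Fin (p ^ (k - c) + 1) → L, (∀ i, b i ∈ Sp F L (p ^ k)) ∧
        ∀ (M : Type w) [Field M] [Algebra (PRing (F.map (algebraMap K L))) M]
          [IsFractionRing (PRing (F.map (algebraMap K L))) M] (f : POpen (F.map (algebraMap K L)) b →+* M)
          (_ : ∀ a : PRing (F.map (algebraMap K L)), f (toP (F.map (algebraMap K L)) b a) = algebraMap _ M a),
          LinearIndependent ℚ fun i : Fin (p ^ (k - c)) =>
            KQ.map 2 f (symb (pent (F.map (algebraMap K L)) b i.succ 0)) := by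
  obtain ⟨c, hc⟩ := S.growth_all hn hp
  refine ⟨c, fun k hk L _ _ _ hsplit => ?_⟩
  obtain ⟨b, hb, hind⟩ := hc k hk L hsplit
  exact ⟨b, hb, fun M _ _ _ f hf => S.classes_independent (pow_pos hp.pos k) hb hind M f hf⟩

end main

end Pool.Agent.N76.EC
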