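import Pool.Agent.N76.EC.Pt
import Pool.Agent.N76.IR.Cx3

set_option autoImplicit false

/-!
# Lifts to the curve `z + 1/z = G(x)`

The loop `z = exp (i θ)`, `θ = 2πt + i η sin 2πt`, has closed lifts to the curve: `z + 1/z` does not change under
`t ↦ -t`, so a lift `x(t)` is even, and even about `1/2`, so periodic.
-/

namespace Pool.Agent.N76.EC

open Polynomial MeasureTheory Set Filter Topology Complex
open Pool.Agent.TH826.UH (pr NZ pr_mul pr_one cont_int)
open Pool.Agent.N76.IR (Strip mem_Strip isOpen_Strip convex_Strip)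
open scoped ComplexConjugate Interval Real

/-- the critical values -/
def Cv (G : ℂ[X]) : Set ℂ := (fun x => G.eval x) '' {x | (derivative G).eval x = 0}

section lift

variable {A : Type*} [TopologicalSpace A] [SimplyConnectedSpace A] [LocallyPathConnectedSpace A] {G : ℂ[X]} {f : A → ℂ}

theorem exists_lift (hf : Continuous f) (hs : ∀ a, f a ∉ Cv G) (a₀ : A) {x₀ : ℂ} (hx : G.eval x₀ = f a₀) :
    ∃ F : A → ℂ, Continuous F ∧ F a₀ = x₀ ∧ ∀ a, G.eval (F a) = f a := by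
  obtain ⟨F, ⟨hF0, hF⟩, -⟩ := G.isCoveringMapOn_eval.existsUnique_continuousMap_lifts ⟨f, hf⟩ (a₀ := a₀)
    (e₀ := x₀) hx hs
  exact ⟨F, F.continuous, hF0, fun a => congrFun hF a⟩

theorem lift_unique (hf : Continuous f) (hs : ∀ a, f a ∉ Cv G) {F F' : A → ℂ} (hF : Continuous F)
    (hF' : Continuous F') (h : ∀ a, G.eval (F a) = f a) (h' : ∀ a, G.eval (F' a) = f a) {a₀ : A}
    (ha : F a₀ = F' a₀) : F = F' := by
  obtain ⟨E, -, hu⟩ := G.isCoveringMapOn_eval.existsUnique_continuousMap_lifts ⟨f, hf⟩ (a₀ := a₀)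
    (e₀ := F a₀) (h a₀) hs
  have h1 := hu ⟨F, hF⟩ ⟨rfl, funext h⟩
  have h2 := hu ⟨F', hF'⟩ ⟨ha.symm, funext h'⟩
  have h3 := h1.trans h2.symm
  exact congrArg (fun g : C(A, ℂ) => (g : A → ℂ)) h3

end lift

/-- the argument of `z`, complex -/
noncomputable def th (η t : ℝ) : ℂ := ((2 * π * t : ℝ) : ℂ) + ((η * Real.sin (2 * π * t) : ℝ) : ℂ) * I

noncomputable def Wp (η t : ℝ) : ℂ := 2 * Complex.cos (th η t)

noncomputable def Zp (η t : ℝ) : ℂ := Complex.exp (th η t * I)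

theorem th_re (η t : ℝ) : (th η t).re = 2 * π * t := by
  unfold th
  rw [add_re, ofReal_re, re_ofReal_mul, I_re]
  ring

theorem th_im (η t : ℝ) : (th η t).im = η * Real.sin (2 * π * t) := by
  unfold th
  rw [add_im, ofReal_im, im_ofReal_mul, I_im]
  ring

theorem th_neg (η t : ℝ) : th η (-t) = -th η t := by
  apply Complex.ext
  · rw [neg_re, th_re, th_re]
    ring
  · rw [neg_im, th_im, th_im, show 2 * π * -t = -(2 * π * t) by ring, Real.sin_neg]
    ring

theorem th_add_int (η t : ℝ) (k : ℤ) : th η (t + k) = th η t + 2 * k * π := by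
  have e : (2 * k * π : ℂ) = ((2 * k * π : ℝ) : ℂ) := by push_cast; ring
  rw [e]
  apply Complex.ext
  · rw [add_re, th_re, th_re, ofReal_re]
    ring
  · rw [add_im, th_im, th_im, ofReal_im, show 2 * π * (t + k) = 2 * π * t + k * (2 * π) by ring,
      Real.sin_add_int_mul_two_pi, add_zero]

theorem Wp_neg (η t : ℝ) : Wp η (-t) = Wp η t := by
  unfold Wp
  rw [th_neg, Complex.cos_neg]

theorem Wp_add_int (η t : ℝ) (k : ℤ) : Wp η (t + k) = Wp η t := by
  unfold Wp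
  rw [th_add_int, show (2 * k * π : ℂ) = k * (2 * π) by ring, Complex.cos_add_int_mul_two_pi]

theorem Wp_add_one (η t : ℝ) : Wp η (t + 1) = Wp η t := by
  have := Wp_add_int η t 1
  rwa [Int.cast_one] at this

theorem Zp_ne_zero (η t : ℝ) : Zp η t ≠ 0 := Complex.exp_ne_zero _

theorem Zp_add_one (η t : ℝ) : Zp η (t + 1) = Zp η t := by
  have h := th_add_int η t 1
  rw [Int.cast_one, Int.cast_one] at h
  unfold Zp
  rw [h, show (th η t + 2 * 1 * π) * I = th η t * I + 2 * π * I by ring, Complex.exp_add, Complex.exp_two_pi_mul_I,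
    mul_one]

theorem Zp_add_inv (η t : ℝ) : Zp η t + (Zp η t)⁻¹ = Wp η t := by
  unfold Zp Wp
  rw [← Complex.exp_neg, Complex.cos, mul_div_cancel₀ _ (two_ne_zero), neg_mul]

theorem contDiff_th (η : ℝ) : ContDiff ℝ 2 (th η) := by
  unfold th
  have h1 : ContDiff ℝ 2 fun t : ℝ => 2 * π * t := contDiff_const.mul contDiff_id
  exact (ofRealCLM.contDiff.comp h1).add
    ((ofRealCLM.contDiff.comp (contDiff_const.mul (Real.contDiff_sin.comp h1))).mul contDiff_const)

theorem contDiff_Zp (η : ℝ) : ContDiff ℝ 2 (Zp η) := ((contDiff_th η).mul contDiff_const).cexp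

theorem contDiff_Wp (η : ℝ) : ContDiff ℝ 2 (Wp η) := by
  have e : Wp η = fun t => Zp η t + (Zp η t)⁻¹ := funext fun t => (Zp_add_inv η t).symm
  rw [e]
  exact (contDiff_Zp η).add ((contDiff_Zp η).inv (Zp_ne_zero η))

theorem nz_Zp (η : ℝ) : NZ (Zp η) := ⟨contDiff_Zp η, Zp_ne_zero η⟩

theorem hasDerivAt_th (η t : ℝ) :
    HasDerivAt (th η) (((2 * π : ℝ) : ℂ) + ((η * (Real.cos (2 * π * t) * (2 * π)) : ℝ) : ℂ) * I) t := by
  have h1 : HasDerivAt (fun t : ℝ => 2 * π * t) (2 * π) t := by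
    simpa using (hasDerivAt_id t).const_mul (2 * π)
  have h2 : HasDerivAt (fun t : ℝ => η * Real.sin (2 * π * t)) (η * (Real.cos (2 * π * t) * (2 * π))) t :=
    ((Real.hasDerivAt_sin _).comp t h1).const_mul η
  exact h1.ofReal_comp.add (h2.ofReal_comp.mul_const I)

theorem ld_Zp_im (η t : ℝ) : (ld (Zp η) t).im = 2 * π := by
  have h1 : HasDerivAt (Zp η) (Complex.exp (th η t * I) *
      ((((2 * π : ℝ) : ℂ) + ((η * (Real.cos (2 * π * t) * (2 * π)) : ℝ) : ℂ) * I) * I)) t :=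
    ((hasDerivAt_th η t).mul_const I).cexp
  unfold ld
  rw [h1.deriv]
  unfold Zp
  rw [mul_div_cancel_left₀ _ (Complex.exp_ne_zero _), Complex.mul_I_im, add_re, ofReal_re, re_ofReal_mul, I_re]
  ring

theorem cos_im_zero {η t α : ℝ} (h0 : η ≠ 0) (hα : Real.sin α ≠ 0) : Wp η t ≠ 2 * Complex.cos α := by
  intro h
  unfold Wp at h
  obtain ⟨k, hk⟩ := Complex.cos_eq_cos_iff.1 (mul_left_cancel₀ two_ne_zero h.symm)
  have key : ∀ s : ℝ, th η t = 2 * k * π + s * α → s = 1 ∨ s = -1 → False := by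
    intro s h1 hs
    have h2 := congrArg Complex.re h1
    have h3 := congrArg Complex.im h1
    have e : (2 * k * π + s * α : ℂ) = ((2 * k * π + s * α : ℝ) : ℂ) := by push_cast; ring
    rw [e, th_im, ofReal_im] at h3
    rw [e, th_re, ofReal_re] at h2
    have h4 := (mul_eq_zero.1 h3).resolve_left h0
    rw [h2, show 2 * k * π + s * α = s * α + k * (2 * π) by ring, Real.sin_add_int_mul_two_pi] at h4
    rcases hs with rfl | rfl
    · rw [one_mul] at h4
      exact hα h4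
    · rw [neg_one_mul, Real.sin_neg, neg_eq_zero] at h4
      exact hα h4
  rcases hk with hk | hk
  · exact key 1 (by rw [hk]; push_cast; ring) (Or.inl rfl)
  · exact key (-1) (by rw [hk]; push_cast; ring) (Or.inr rfl)

theorem Wp_inj {η η' t t' : ℝ} (h : Wp η t = Wp η' t') (hs : Real.sin (2 * π * t) ≠ 0) : η = η' := by
  unfold Wp at h
  obtain ⟨k, hk⟩ := Complex.cos_eq_cos_iff.1 (mul_left_cancel₀ two_ne_zero h)
  have key : ∀ s : ℝ, th η' t' = 2 * k * π + s * th η t → s = 1 ∨ s = -1 → η = η' := by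
    intro s h1 hs'
    have e : (2 * k * π : ℂ) = ((2 * k * π : ℝ) : ℂ) := by push_cast; ring
    have h2 := congrArg Complex.re h1
    have h3 := congrArg Complex.im h1
    rw [e, add_re, ofReal_re, re_ofReal_mul, th_re, th_re] at h2
    rw [e, add_im, ofReal_im, im_ofReal_mul, th_im, th_im, h2,
      show 2 * k * π + s * (2 * π * t) = s * (2 * π * t) + k * (2 * π) by ring, Real.sin_add_int_mul_two_pi] at h3
    rcases hs' with rfl | rfl
    · rw [one_mul, one_mul, zero_add] at h3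
      exact (mul_right_cancel₀ hs h3).symm
    · rw [neg_one_mul, Real.sin_neg] at h3
      apply mul_right_cancel₀ hs
      linarith
  rcases hk with hk | hk
  · exact key 1 (by rw [hk]; push_cast; ring) (Or.inl rfl)
  · exact key (-1) (by rw [hk]; push_cast; ring) (Or.inr rfl)

theorem Wp_of_sin {η t : ℝ} (hs : Real.sin (2 * π * t) = 0) : Wp η t = 2 ∨ Wp η t = -2 := by
  have h1 : th η t = ((2 * π * t : ℝ) : ℂ) := by
    unfold th
    rw [hs]
    simp
  unfold Wp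
  rw [h1, ← Complex.ofReal_cos]
  have h2 := Real.sin_sq_add_cos_sq (2 * π * t)
  rw [hs] at h2
  have h3 : (Real.cos (2 * π * t) - 1) * (Real.cos (2 * π * t) + 1) = 0 := by linarith
  rcases mul_eq_zero.1 h3 with h | h
  · left
    rw [sub_eq_zero.1 h]
    simp
  · right
    rw [eq_neg_of_add_eq_zero_left h]
    push_cast
    ring

/-- **a height of the path** -/
theorem exists_eta {S : Set ℂ} (hS : S.Finite) (h1 : (2 : ℂ) ∉ S) (h2 : (-2 : ℂ) ∉ S) :
    ∃ η : ℝ, 0 < η ∧ ∀ t, Wp η t ∉ S := by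
  have hfin : {η : ℝ | ∃ t, Wp η t ∈ S}.Finite := by
    have h3 : {η : ℝ | ∃ t, Wp η t ∈ S} ⊆ ⋃ w ∈ S, {η : ℝ | ∃ t, Real.sin (2 * π * t) ≠ 0 ∧ Wp η t = w} := by
      rintro η ⟨t, ht⟩
      simp only [mem_iUnion]
      refine ⟨_, ht, t, fun hs => ?_, rfl⟩
      rcases Wp_of_sin (η := η) hs with h | h
      · rw [h] at ht
        exact h1 ht
      · rw [h] at ht
        exact h2 ht
    refine (hS.biUnion fun w _ => Set.Subsingleton.finite ?_).subset h3
    rintro η ⟨t, ht, h4⟩ η' ⟨t', -, h5⟩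
    exact Wp_inj (h4.trans h5.symm) ht
  obtain ⟨η, hη, hη2⟩ := ((Ioi_infinite (0 : ℝ)).sdiff hfin).nonempty
  exact ⟨η, hη, fun t ht => hη2 ⟨t, ht⟩⟩

/-- **a vertical strip** -/
theorem exists_phi {S : Set ℂ} (hS : S.Finite) :
    ∃ φ₀ ε : ℝ, 0 < ε ∧ 0 < φ₀ - ε ∧ φ₀ + ε < π ∧ ∀ θ ∈ Strip φ₀ ε, 2 * Complex.cos θ ∉ S := by
  set R : Set ℝ := {x | x ∈ Ioo 0 π ∧ ∃ θ : ℂ, θ.re = x ∧ 2 * Complex.cos θ ∈ S} with hR
  have hfin : R.Finite := by
    have h3 : R ⊆ ⋃ w ∈ S, {x : ℝ | x ∈ Ioo 0 π ∧ ∃ θ : ℂ, θ.re = x ∧ 2 * Complex.cos θ = w} := by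
      rintro x ⟨hx, θ, h4, h5⟩
      simp only [mem_iUnion]
      exact ⟨_, h5, hx, θ, h4, rfl⟩
    refine (hS.biUnion fun w _ => Set.Subsingleton.finite ?_).subset h3
    rintro x ⟨hx, θ, h4, h5⟩ x' ⟨hx', θ', h4', h5'⟩
    obtain ⟨k, hk⟩ := Complex.cos_eq_cos_iff.1 (mul_left_cancel₀ two_ne_zero (h5.trans h5'.symm))
    have e : (2 * k * π : ℂ) = ((2 * k * π : ℝ) : ℂ) := by push_cast; ring
    have hπ := Real.pi_pos
    rcases hk with hk | hk
    · have h6 := congrArg Complex.re hk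
      rw [e, add_re, ofReal_re, h4, h4'] at h6
      have h7 : k = 0 := by
        have h8 : (k : ℝ) < 1 := by nlinarith [hx.1, hx.2, hx'.1, hx'.2]
        have h9 : (-1 : ℝ) < k := by nlinarith [hx.1, hx.2, hx'.1, hx'.2]
        have h10 : k < 1 := by exact_mod_cast h8
        have h11 : -1 < k := by exact_mod_cast h9
        omega
      rw [h7] at h6
      push_cast at h6
      linarith
    · exfalso
      have h6 := congrArg Complex.re hk
      rw [e, sub_re, ofReal_re, h4, h4'] at h6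
      have h8 : (k : ℝ) < 1 := by nlinarith [hx.1, hx.2, hx'.1, hx'.2]
      have h9 : (0 : ℝ) < k := by nlinarith [hx.1, hx.2, hx'.1, hx'.2]
      have h10 : k < 1 := by exact_mod_cast h8
      have h11 : 0 < k := by exact_mod_cast h9
      omega
  obtain ⟨φ₀, hφ, hφR⟩ := ((Ioo_infinite Real.pi_pos).sdiff hfin).nonempty
  have hopen : IsOpen (Ioo 0 π \ R) := isOpen_Ioo.sdiff hfin.isClosed
  obtain ⟨ε, hε, hball⟩ := Metric.isOpen_iff.1 hopen φ₀ ⟨hφ, hφR⟩
  have hin : ∀ x : ℝ, |x - φ₀| < ε → x ∈ Ioo 0 π \ R := fun x hx => hball (by rwa [Metric.mem_ball, Real.dist_eq])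
  refine ⟨φ₀, ε / 2, by positivity, ?_, ?_, fun θ hθ h => ?_⟩
  · exact (hin (φ₀ - ε / 2) (by
      rw [show φ₀ - ε / 2 - φ₀ = -(ε / 2) by ring, abs_neg, abs_of_pos (by positivity)]
      linarith)).1.1
  · exact (hin (φ₀ + ε / 2) (by
      rw [show φ₀ + ε / 2 - φ₀ = ε / 2 by ring, abs_of_pos (by positivity)]
      linarith)).1.2
  · rw [mem_Strip] at hθ
    have h3 := hin θ.re (by linarith)
    exact h3.2 ⟨h3.1, θ, rfl, h⟩

end Pool.Agent.N76.EC
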