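import Pool.Agent.TH826.UH.Pair

set_option autoImplicit false

/-!
# The regulator integral of `{z, x - b}` on a loop, as a function of `b`

For a loop `(X, Z)` the integral `P(b) = ∮ log |z| d arg (x - b) - log |x - b| d arg z` is the imaginary part of a
holomorphic primitive of `T(b) = ∮ (x - b)⁻¹ dz / z`.
-/

namespace Pool.Agent.N76.EC

open MeasureTheory Set Filter Topology Complex
open Pool.Agent.TH826.UH (pr NZ pr_mul pr_one cont_int)
open scoped ComplexConjugate Interval Real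

/-- the logarithmic derivative -/
noncomputable def ld (Z : ℝ → ℂ) (s : ℝ) : ℂ := deriv Z s / Z s

/-- a closed smooth curve -/
structure Loop (X Z : ℝ → ℂ) : Prop where
  hX : ContDiff ℝ 2 X
  hZ : NZ Z
  perX : ∀ t, X (t + 1) = X t
  perZ : ∀ t, Z (t + 1) = Z t

/-- the derivative of `log |Z|` -/
theorem hasDerivAt_log {Z : ℝ → ℂ} (hZ : NZ Z) (s : ℝ) :
    HasDerivAt (fun s => Real.log ‖Z s‖) (ld Z s).re s := by
  have h1 : HasDerivAt Z (deriv Z s) s := (hZ.smooth.differentiable (by norm_num) s).hasDerivAt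
  have h0 := hZ.ne_zero s
  have h2 : HasDerivAt (fun t => Z t / Z s) (deriv Z s / Z s) s := h1.div_const _
  have h3 : (Z s / Z s) ∈ slitPlane := by
    rw [div_self h0]
    exact one_mem_slitPlane
  have h4 := h2.clog_real h3
  have h5 : HasDerivAt (fun t => (Complex.log (Z t / Z s)).re) (deriv Z s / Z s / (Z s / Z s)).re s :=
    (reCLM.hasFDerivAt.comp_hasDerivAt s h4)
  rw [div_self h0, div_one] at h5
  have h6 : (fun s => Real.log ‖Z s‖) = fun t => (Complex.log (Z t / Z s)).re + Real.log ‖Z s‖ := by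
    funext t
    rw [Complex.log_re, norm_div, Real.log_div (norm_ne_zero_iff.2 (hZ.ne_zero t)) (norm_ne_zero_iff.2 h0)]
    ring
  rw [h6]
  exact h5.add_const _

theorem continuous_ld {Z : ℝ → ℂ} (hZ : NZ Z) : Continuous (ld Z) := hZ.cont_ld

/-- **functions with values in the slit plane** -/
theorem pr_slit {Z v : ℝ → ℂ} (hZ : NZ Z) (perZ : ∀ t, Z (t + 1) = Z t) (hv : ContDiff ℝ 2 v)
    (hvs : ∀ t, v t ∈ slitPlane) (hper : ∀ t, v (t + 1) = v t) :
    pr Z v = -∫ s in (0 : ℝ)..1, (ld Z s * Complex.log (v s)).im := by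
  have nv : NZ v := ⟨hv, fun s => slitPlane_ne_zero (hvs s)⟩
  have hl : ∀ s, HasDerivAt (fun s => Complex.log (v s)) (deriv v s / v s) s := fun s =>
    ((hv.differentiable (by norm_num) s).hasDerivAt).clog_real (hvs s)
  have hcl : Continuous fun s => Complex.log (v s) :=
    continuous_iff_continuousAt.2 fun s => (hl s).continuousAt
  have hA : ∀ s, HasDerivAt (fun s => Real.log ‖Z s‖ * (Complex.log (v s)).im)
      ((ld Z s).re * (Complex.log (v s)).im + Real.log ‖Z s‖ * (deriv v s / v s).im) s := by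
    intro s
    have h1 : HasDerivAt (fun s => (Complex.log (v s)).im) (deriv v s / v s).im s :=
      imCLM.hasFDerivAt.comp_hasDerivAt s (hl s)
    exact (hasDerivAt_log hZ s).mul h1
  have c1 : Continuous fun s => (ld Z s).re * (Complex.log (v s)).im :=
    (continuous_re.comp (continuous_ld hZ)).mul (continuous_im.comp hcl)
  have c2 : Continuous fun s => Real.log ‖Z s‖ * (deriv v s / v s).im := hZ.cont_log.mul nv.cont_im
  have hint := intervalIntegral.integral_eq_sub_of_hasDerivAt (a := 0) (b := 1) (fun s _ => hA s)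
    ((c1.add c2).intervalIntegrable _ _)
  have e0 : Z 1 = Z 0 := by
    have := perZ 0
    rwa [zero_add] at this
  have e1 : v 1 = v 0 := by
    have := hper 0
    rwa [zero_add] at this
  rw [e0, e1, sub_self, intervalIntegral.integral_add (c1.intervalIntegrable _ _) (c2.intervalIntegrable _ _)] at hint
  have c3 : Continuous fun s => Real.log ‖v s‖ * (deriv Z s / Z s).im := nv.cont_log.mul hZ.cont_im
  unfold pr
  rw [intervalIntegral.integral_sub (c2.intervalIntegrable _ _) (c3.intervalIntegrable _ _)]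
  have e2 : (∫ s in (0 : ℝ)..1, (ld Z s * Complex.log (v s)).im) =
      (∫ s in (0 : ℝ)..1, (ld Z s).re * (Complex.log (v s)).im) + ∫ s in (0 : ℝ)..1, Real.log ‖v s‖ * (deriv Z s / Z s).im := by
    rw [← intervalIntegral.integral_add (c1.intervalIntegrable _ _) (c3.intervalIntegrable _ _)]
    refine intervalIntegral.integral_congr fun s _ => ?_
    show (ld Z s * Complex.log (v s)).im = _
    rw [Complex.mul_im, Complex.log_re]
    unfold ld
    ring
  rw [e2]
  linarith

theorem pr_const' {Z : ℝ → ℂ} (c : ℂ) : pr Z (fun _ => c) = -(Real.log ‖c‖ * ∫ s in (0 : ℝ)..1, (ld Z s).im) := by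
  unfold pr
  rw [← intervalIntegral.integral_const_mul, ← intervalIntegral.integral_neg]
  refine intervalIntegral.integral_congr fun s _ => ?_
  simp [ld]

/-- the regulator integral -/
noncomputable def P (X Z : ℝ → ℂ) (b : ℂ) : ℝ := pr Z fun t => X t - b

/-- its derivative -/
noncomputable def T (X Z : ℝ → ℂ) (b : ℂ) : ℂ := ∫ s in (0 : ℝ)..1, ld Z s * (X s - b)⁻¹

variable {X Z : ℝ → ℂ} (H : Loop X Z)

include H

theorem Loop.continuous : Continuous X := H.hX.continuous

theorem Loop.exists_Icc (t : ℝ) : ∃ s ∈ Icc (0 : ℝ) 1, X s = X t := by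
  have hp : Function.Periodic X 1 := H.perX
  obtain ⟨y, hy, h1⟩ := hp.exists_mem_Ico₀ one_pos t
  exact ⟨y, ⟨hy.1, hy.2.le⟩, h1.symm⟩

theorem exists_dist {b : ℂ} (hb : ∀ t, X t ≠ b) :
    ∃ d : ℝ, 0 < d ∧ ∀ y : ℂ, ‖y - b‖ < d → ∀ t, d ≤ ‖X t - y‖ := by
  have hK : IsCompact (X '' Icc (0 : ℝ) 1) := isCompact_Icc.image H.continuous
  have hxK : b ∉ X '' Icc (0 : ℝ) 1 := by
    rintro ⟨t, ht, h1⟩
    exact hb t h1
  obtain ⟨ε, hε, h1⟩ := Metric.isOpen_iff.1 hK.isClosed.isOpen_compl b hxK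
  refine ⟨ε / 2, by positivity, fun y hy t => ?_⟩
  obtain ⟨s, hs, hst⟩ := H.exists_Icc t
  rw [← hst]
  have h2 : ε ≤ ‖X s - b‖ := by
    by_contra hcon
    push Not at hcon
    have h3 : X s ∈ Metric.ball b ε := by rwa [Metric.mem_ball, dist_eq_norm]
    exact h1 h3 ⟨s, hs, rfl⟩
  have h3 : ‖X s - b‖ ≤ ‖X s - y‖ + ‖y - b‖ := by
    have e : X s - b = (X s - y) + (y - b) := by ring
    rw [e]
    exact norm_add_le _ _
  linarith

theorem exists_bound_ld : ∃ M : ℝ, 0 ≤ M ∧ ∀ t ∈ Icc (0 : ℝ) 1, ‖ld Z t‖ ≤ M := by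
  obtain ⟨M, hM⟩ := (isCompact_Icc (a := (0 : ℝ)) (b := 1)).exists_bound_of_continuousOn
    (continuous_ld H.hZ).continuousOn
  exact ⟨|M|, abs_nonneg _, fun t ht => (hM t ht).trans (le_abs_self _)⟩

theorem T_diff {b : ℂ} (hb : ∀ t, X t ≠ b) : DifferentiableAt ℂ (T X Z) b := by
  obtain ⟨d, hd, h1⟩ := exists_dist H hb
  obtain ⟨M, hM0, hM⟩ := exists_bound_ld H
  have hI : ∀ t ∈ Ι (0 : ℝ) 1, t ∈ Icc (0 : ℝ) 1 := fun t ht => by
    rw [uIoc_of_le zero_le_one] at ht
    exact ⟨ht.1.le, ht.2⟩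
  have hml : Measurable (ld Z) := (continuous_ld H.hZ).measurable
  have hmX : Measurable X := H.continuous.measurable
  have hm : ∀ y : ℂ, AEStronglyMeasurable (fun t => ld Z t * (X t - y)⁻¹) (volume.restrict (Ι (0 : ℝ) 1)) := fun y =>
    (hml.mul (hmX.sub measurable_const).inv).aestronglyMeasurable
  have h2 := intervalIntegral.hasDerivAt_integral_of_dominated_loc_of_deriv_le (𝕜 := ℂ) (μ := volume)
    (a := 0) (b := 1) (F := fun y t => ld Z t * (X t - y)⁻¹) (F' := fun y t => ld Z t * ((X t - y) ^ 2)⁻¹) (x₀ := b)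
    (s := Metric.ball b d) (bound := fun _ => M * (d ^ 2)⁻¹) (Metric.ball_mem_nhds b hd)
    (Eventually.of_forall hm) ?_ ?_ ?_ ?_ ?_
  · exact h2.2.differentiableAt
  · refine Continuous.intervalIntegrable ?_ _ _
    exact (continuous_ld H.hZ).mul ((H.continuous.sub continuous_const).inv₀ fun t => sub_ne_zero.2 (hb t))
  · exact (hml.mul ((hmX.sub measurable_const).pow_const 2).inv).aestronglyMeasurable
  · refine Eventually.of_forall fun t ht y hy => ?_
    rw [Metric.mem_ball, dist_eq_norm] at hy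
    have h3 := h1 y hy t
    rw [norm_mul, norm_inv, norm_pow]
    exact mul_le_mul (hM t (hI t ht)) (inv_anti₀ (by positivity) (pow_le_pow_left₀ hd.le h3 2)) (by positivity) hM0
  · exact intervalIntegrable_const
  · refine Eventually.of_forall fun t ht y hy => ?_
    rw [Metric.mem_ball, dist_eq_norm] at hy
    have h3 := h1 y hy t
    have h4 : X t - y ≠ 0 := norm_pos_iff.1 (hd.trans_le h3)
    have h5 := (((hasDerivAt_id y).const_sub (X t)).inv h4).const_mul (ld Z t)
    simp only [id] at h5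
    refine h5.congr_deriv ?_
    rw [neg_neg, one_div]

theorem nz_sub {b : ℂ} (hb : ∀ t, X t ≠ b) : NZ fun t => X t - b :=
  ⟨H.hX.sub contDiff_const, fun t => sub_ne_zero.2 (hb t)⟩

/-- **the increment of the regulator integral** -/
theorem P_add {b h : ℂ} {d : ℝ} (hd : 0 < d) (hb : ∀ t, d ≤ ‖X t - b‖) (hh : ‖h‖ < d) :
    P X Z (b + h) - P X Z b = -∫ s in (0 : ℝ)..1, (ld Z s * Complex.log (1 - h * (X s - b)⁻¹)).im := by
  have hb0 : ∀ t, X t - b ≠ 0 := fun t => norm_pos_iff.1 (hd.trans_le (hb t))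
  have hlt : ∀ t, ‖h * (X t - b)⁻¹‖ < 1 := by
    intro t
    rw [norm_mul, norm_inv, ← div_eq_mul_inv, div_lt_one (norm_pos_iff.2 (hb0 t))]
    exact hh.trans_le (hb t)
  have hsl : ∀ t, 1 - h * (X t - b)⁻¹ ∈ slitPlane := by
    intro t
    have h1 := Complex.mem_slitPlane_of_norm_lt_one (z := -(h * (X t - b)⁻¹)) (by rw [norm_neg]; exact hlt t)
    rwa [← sub_eq_add_neg] at h1
  have hsm : ContDiff ℝ 2 fun t => 1 - h * (X t - b)⁻¹ :=
    contDiff_const.sub (contDiff_const.mul ((H.hX.sub contDiff_const).inv hb0))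
  have nb : NZ fun t => X t - b := ⟨H.hX.sub contDiff_const, hb0⟩
  have nv : NZ fun t => 1 - h * (X t - b)⁻¹ := ⟨hsm, fun t => slitPlane_ne_zero (hsl t)⟩
  have e : (fun t => X t - (b + h)) = fun t => (X t - b) * (1 - h * (X t - b)⁻¹) := by
    funext t
    have := hb0 t
    field_simp
    ring
  have h2 := pr_mul H.hZ nb nv
  unfold P
  rw [e, h2, pr_slit H.hZ H.perZ hsm hsl (fun t => by rw [H.perX])]
  ring

theorem P_hasFDeriv {b : ℂ} (hb : ∀ t, X t ≠ b) :
    HasFDerivAt (P X Z) (Complex.imCLM.comp ((T X Z b) • (1 : ℂ →L[ℝ] ℂ))) b := by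
  obtain ⟨d, hd, h1⟩ := exists_dist H hb
  obtain ⟨M, hM0, hM⟩ := exists_bound_ld H
  rw [hasFDerivAt_iff_isLittleO_nhds_zero]
  have hb0 : ∀ t, X t - b ≠ 0 := fun t => sub_ne_zero.2 (hb t)
  have hbd : ∀ t, d ≤ ‖X t - b‖ := h1 b (by rw [sub_self, norm_zero]; exact hd)
  have cinv : Continuous fun t => (X t - b)⁻¹ := (H.continuous.sub continuous_const).inv₀ hb0
  have key : ∀ h : ℂ, ‖h‖ < d / 2 →
      ‖P X Z (b + h) - P X Z b - (Complex.imCLM.comp ((T X Z b) • (1 : ℂ →L[ℝ] ℂ))) h‖ ≤ (M / d ^ 2) * ‖‖h‖ ^ 2‖ := by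
    intro h hh
    have hlt : ∀ t, ‖h * (X t - b)⁻¹‖ ≤ ‖h‖ / d := by
      intro t
      rw [norm_mul, norm_inv, ← div_eq_mul_inv]
      exact div_le_div_of_nonneg_left (norm_nonneg _) hd (hbd t)
    have hlt2 : ∀ t, ‖h * (X t - b)⁻¹‖ ≤ 1 / 2 := by
      intro t
      refine (hlt t).trans ?_
      rw [div_le_iff₀ hd]
      linarith
    have hsl : ∀ t, 1 - h * (X t - b)⁻¹ ∈ slitPlane := by
      intro t
      have h1 := Complex.mem_slitPlane_of_norm_lt_one (z := -(h * (X t - b)⁻¹)) (by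
        rw [norm_neg]
        have := hlt2 t
        linarith)
      rwa [← sub_eq_add_neg] at h1
    have cl : Continuous fun t => Complex.log (1 - h * (X t - b)⁻¹) :=
      (continuous_const.sub (continuous_const.mul cinv)).clog hsl
    have e1 : (Complex.imCLM.comp ((T X Z b) • (1 : ℂ →L[ℝ] ℂ))) h =
        ∫ t in (0 : ℝ)..1, (ld Z t * (X t - b)⁻¹ * h).im := by
      have h2 : (∫ t in (0 : ℝ)..1, ld Z t * (X t - b)⁻¹ * h) = T X Z b * h := by
        unfold T
        rw [intervalIntegral.integral_mul_const]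
      have h3' : IntervalIntegrable (fun t => ld Z t * (X t - b)⁻¹ * h) volume 0 1 :=
        (((continuous_ld H.hZ).mul cinv).mul continuous_const).intervalIntegrable (μ := volume) 0 1
      have h3 := Complex.imCLM.intervalIntegral_comp_comm h3'
      simp only [Complex.imCLM_apply] at h3
      rw [h3, h2]
      simp
    have c1 : Continuous fun t => (ld Z t * Complex.log (1 - h * (X t - b)⁻¹)).im :=
      continuous_im.comp ((continuous_ld H.hZ).mul cl)
    have c2 : Continuous fun t => (ld Z t * (X t - b)⁻¹ * h).im :=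
      continuous_im.comp (((continuous_ld H.hZ).mul cinv).mul continuous_const)
    have c1' : Continuous fun t => -(ld Z t * Complex.log (1 - h * (X t - b)⁻¹)).im := c1.neg
    rw [P_add H hd hbd (by linarith), e1, ← intervalIntegral.integral_neg,
      ← intervalIntegral.integral_sub (c1'.intervalIntegrable _ _) (c2.intervalIntegrable _ _)]
    have h4 := intervalIntegral.norm_integral_le_of_norm_le_const (a := (0 : ℝ)) (b := 1) (C := (M / d ^ 2) * ‖‖h‖ ^ 2‖)
      (f := fun t => -(ld Z t * Complex.log (1 - h * (X t - b)⁻¹)).im - (ld Z t * (X t - b)⁻¹ * h).im) (fun t ht => ?_)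
    · rwa [sub_zero, abs_one, mul_one] at h4
    · rw [uIoc_of_le zero_le_one] at ht
      have ht' : t ∈ Icc (0 : ℝ) 1 := ⟨ht.1.le, ht.2⟩
      set u : ℂ := h * (X t - b)⁻¹ with hu
      have e2 : -(ld Z t * Complex.log (1 - u)).im - (ld Z t * (X t - b)⁻¹ * h).im =
          -(ld Z t * (Complex.log (1 - u) + u)).im := by
        have e3 : ld Z t * (X t - b)⁻¹ * h = ld Z t * u := by rw [hu]; ring
        rw [e3, mul_add, Complex.add_im]
        ring
      rw [e2, norm_neg]
      refine (Complex.abs_im_le_norm _).trans ?_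
      rw [norm_mul]
      have h10 := Complex.norm_log_one_add_sub_self_le (z := -u) (by
        rw [norm_neg]
        have := hlt2 t
        linarith)
      rw [← sub_eq_add_neg, sub_neg_eq_add, norm_neg] at h10
      have h11 : (1 - ‖u‖)⁻¹ / 2 ≤ 1 := by
        rw [div_le_one two_pos]
        refine inv_le_of_inv_le₀ two_pos ?_
        have := hlt2 t
        linarith
      have h12 : ‖Complex.log (1 - u) + u‖ ≤ (‖h‖ / d) ^ 2 := by
        refine h10.trans ?_
        rw [mul_div_assoc]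
        calc ‖u‖ ^ 2 * ((1 - ‖u‖)⁻¹ / 2) ≤ ‖u‖ ^ 2 * 1 := mul_le_mul_of_nonneg_left h11 (by positivity)
          _ ≤ (‖h‖ / d) ^ 2 := by
            rw [mul_one]
            exact pow_le_pow_left₀ (norm_nonneg _) (hlt t) 2
      calc ‖ld Z t‖ * ‖Complex.log (1 - u) + u‖ ≤ M * (‖h‖ / d) ^ 2 :=
            mul_le_mul (hM t ht') h12 (norm_nonneg _) hM0
        _ = (M / d ^ 2) * ‖‖h‖ ^ 2‖ := by
          rw [Real.norm_of_nonneg (by positivity), div_pow]
          ring
  have hO : (fun h => P X Z (b + h) - P X Z b - (Complex.imCLM.comp ((T X Z b) • (1 : ℂ →L[ℝ] ℂ))) h)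
      =O[𝓝 0] fun h : ℂ => ‖h‖ ^ 2 := by
    refine Asymptotics.IsBigO.of_bound (M / d ^ 2) ?_
    filter_upwards [Metric.ball_mem_nhds (0 : ℂ) (half_pos hd)] with h hh
    rw [mem_ball_zero_iff] at hh
    exact key h hh
  exact hO.trans_isLittleO (Asymptotics.isLittleO_norm_pow_id one_lt_two)

/-- the regulator integral along a path -/
theorem P_path {p : ℝ → ℂ} {p' : ℂ} {s : ℝ} (hp : HasDerivAt p p' s) (hx : ∀ t, X t ≠ p s) :
    HasDerivAt (fun s => P X Z (p s)) (T X Z (p s) * p').im s := by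
  have h1 := (P_hasFDeriv H hx).comp_hasDerivAt s hp
  refine h1.congr_deriv ?_
  simp

/-- **the growth of the regulator integral** -/
theorem P_near (hw : ∫ s in (0 : ℝ)..1, (ld Z s).im = 2 * π) :
    ∃ M C : ℝ, 0 < M ∧ ∀ b : ℂ, M ≤ ‖b‖ → |P X Z b + 2 * π * Real.log ‖b‖| ≤ C := by
  obtain ⟨M₁, hM₁⟩ := (isCompact_Icc (a := (0 : ℝ)) (b := 1)).exists_bound_of_continuousOn
    H.continuous.continuousOn
  obtain ⟨M₂, hM₂0, hM₂⟩ := exists_bound_ld H
  refine ⟨2 * |M₁| + 1, M₂, by positivity, fun b hb => ?_⟩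
  have hb0 : 0 < ‖b‖ := by
    have := abs_nonneg M₁
    linarith
  have hbne : b ≠ 0 := norm_pos_iff.1 hb0
  have hXM : ∀ t, ‖X t‖ ≤ |M₁| := by
    intro t
    obtain ⟨s, hs, hst⟩ := H.exists_Icc t
    rw [← hst]
    exact (hM₁ s hs).trans (le_abs_self _)
  have hlt : ∀ t, ‖X t * b⁻¹‖ ≤ 1 / 2 := by
    intro t
    rw [norm_mul, norm_inv, ← div_eq_mul_inv, div_le_iff₀ hb0]
    have := hXM t
    linarith
  have hsl : ∀ t, 1 - X t * b⁻¹ ∈ slitPlane := by
    intro t
    have h1 := Complex.mem_slitPlane_of_norm_lt_one (z := -(X t * b⁻¹)) (by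
      rw [norm_neg]
      have := hlt t
      linarith)
    rwa [← sub_eq_add_neg] at h1
  have hsm : ContDiff ℝ 2 fun t => 1 - X t * b⁻¹ := contDiff_const.sub (H.hX.mul contDiff_const)
  have nv : NZ fun t => 1 - X t * b⁻¹ := ⟨hsm, fun t => slitPlane_ne_zero (hsl t)⟩
  have nc : NZ fun _ : ℝ => -b := ⟨contDiff_const, fun _ => neg_ne_zero.2 hbne⟩
  have e : (fun t => X t - b) = fun t => (-b) * (1 - X t * b⁻¹) := by
    funext t
    field_simp
    ring
  have h2 := pr_mul H.hZ nc nv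
  have cl : Continuous fun t => Complex.log (1 - X t * b⁻¹) := hsm.continuous.clog hsl
  have e3 : P X Z b + 2 * π * Real.log ‖b‖ = -∫ s in (0 : ℝ)..1, (ld Z s * Complex.log (1 - X s * b⁻¹)).im := by
    unfold P
    rw [e, h2, pr_const', pr_slit H.hZ H.perZ hsm hsl (fun t => by rw [H.perX]), hw, norm_neg]
    ring
  rw [e3, abs_neg]
  have h4 := intervalIntegral.norm_integral_le_of_norm_le_const (a := (0 : ℝ)) (b := 1) (C := M₂)
    (f := fun s => (ld Z s * Complex.log (1 - X s * b⁻¹)).im) (fun t ht => ?_)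
  · rwa [sub_zero, abs_one, mul_one, Real.norm_eq_abs] at h4
  · rw [uIoc_of_le zero_le_one] at ht
    have ht' : t ∈ Icc (0 : ℝ) 1 := ⟨ht.1.le, ht.2⟩
    refine (Complex.abs_im_le_norm _).trans ?_
    rw [norm_mul]
    set u : ℂ := X t * b⁻¹ with hu
    have h5 : ‖Complex.log (1 - u)‖ ≤ 1 := by
      have h6 := Complex.norm_log_one_add_half_le_self (z := -u) (by rw [norm_neg]; exact hlt t)
      rw [← sub_eq_add_neg, norm_neg] at h6
      have := hlt t
      refine h6.trans ?_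
      rw [← hu] at this
      linarith
    calc ‖ld Z t‖ * ‖Complex.log (1 - u)‖ ≤ M₂ * 1 := mul_le_mul (hM₂ t ht') h5 (norm_nonneg _) hM₂0
      _ = M₂ := mul_one _

end Pool.Agent.N76.EC
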