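import Pool.Agent.N76.EC.Comb

set_option autoImplicit false

/-!
# The fibres of the regulator functions are not rigid

The differences `J l k α - J l k' α` of the values at the points of the fibre over `2 cos α` are not, up to a
permutation of the fibre, the same for all `α`.
-/

namespace Pool.Agent.N76.EC

open Polynomial MeasureTheory Set Filter Topology Complex
open Pool.Agent.TH826.UH (pr NZ pr_mul pr_one cont_int pr_prod pr_neg)
open Pool.Agent.N76.IR (Strip mem_Strip isOpen_Strip convex_Strip)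
open scoped ComplexConjugate Interval Real

variable {G : ℂ[X]} {n : ℕ} {η φ₀ ε : ℝ} {L : Fin n → ℂ → ℂ} {X : Fin n → ℝ → ℂ} (S : Sys G n η φ₀ ε L X)

include S

/-- **the sum over a fibre** -/
theorem Sys.sum_fibre (l : Fin n) {α : ℝ} (hα : |α - φ₀| < ε) :
    ∑ k, J X η L l k α = P (Wp η) (Zp η) (2 * Complex.cos φ₀) := by
  classical
  have h1 : P (Wp η) (Zp η) (2 * Complex.cos α) = P (Wp η) (Zp η) (2 * Complex.cos φ₀) := by
    have h2 := S.sum_J l hα
    rw [← h2]
    unfold J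
    rw [S.sum_P fun l t => S.avoid_real hα l t, S.Lev l _ (real_mem hα)]
  rw [← h1]
  unfold J P
  rw [← pr_prod Finset.univ (nz_Zp η) fun k => nz_sub (S.loop l) fun t => S.avoid_real (k := k) hα l t]
  congr 1
  funext t
  rw [← S.prodL (real_mem hα), S.Xev]

omit S in
theorem isOpen_W (φ₀ ε : ℝ) : IsOpen {x : ℝ | |x - φ₀| < ε} :=
  isOpen_lt (continuous_abs.comp (continuous_id.sub continuous_const)) continuous_const

theorem Sys.contAt_J (l k : Fin n) {α : ℝ} (hα : |α - φ₀| < ε) : ContinuousAt (J X η L l k) α := by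
  refine (S.continuousOn_J l k).continuousAt (Ioo_mem_nhds ?_ ?_)
  · have := abs_lt.1 hα
    linarith
  · have := abs_lt.1 hα
    linarith

/-- a rigid fibre is constant -/
theorem Sys.const_J (h : ∀ α, |α - φ₀| < ε → ∃ ρ : Fin n → Fin n, ∀ l k k', J X η L l k α - J X η L l k' α =
    J X η L l (ρ k) φ₀ - J X η L l (ρ k') φ₀) (l k : Fin n) {α : ℝ} (hα : |α - φ₀| < ε) :
    J X η L l k α = J X η L l k φ₀ := by
  classical
  have key : ∀ k', J X η L l k α - J X η L l k' α = J X η L l k φ₀ - J X η L l k' φ₀ := by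
    intro k'
    set T : Set ℝ := Set.range fun x : Fin n × Fin n => J X η L l x.1 φ₀ - J X η L l x.2 φ₀ with hT
    have hTf : T.Finite := Set.finite_range _
    have hpre : IsPreconnected (Ioo (φ₀ - ε) (φ₀ + ε)) := isPreconnected_Ioo
    have hin : ∀ x ∈ Ioo (φ₀ - ε) (φ₀ + ε), |x - φ₀| < ε := by
      intro x hx
      rw [abs_lt]
      constructor
      · linarith [hx.1]
      · linarith [hx.2]
    have h1 := hpre.constant_of_mapsTo (T := T) (f := fun α => J X η L l k α - J X η L l k' α)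
      hTf.isDiscrete ((S.continuousOn_J l k).sub (S.continuousOn_J l k')) (fun x hx => by
        obtain ⟨ρ, hρ⟩ := h x (hin x hx)
        exact ⟨(ρ k, ρ k'), (hρ l k k').symm⟩) (x := α) (y := φ₀)
        (by
          have := abs_lt.1 hα
          constructor <;> linarith) (by
          have := S.hε
          constructor <;> linarith)
    exact h1
  have h2 : ∑ k', (J X η L l k α - J X η L l k' α) = ∑ k', (J X η L l k φ₀ - J X η L l k' φ₀) :=
    Finset.sum_congr rfl fun k' _ => key k'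
  rw [Finset.sum_sub_distrib, Finset.sum_sub_distrib, S.sum_fibre l hα, S.sum_fibre l S.φ_mem, Finset.sum_const,
    Finset.sum_const, Finset.card_univ, Fintype.card_fin, nsmul_eq_mul, nsmul_eq_mul] at h2
  have hn : (n : ℝ) ≠ 0 := by
    have := S.pos
    positivity
  exact mul_left_cancel₀ hn (by linarith)

/-- **the fibres are not rigid** -/
theorem Sys.exists_bad (hn : 2 ≤ n) : ∃ α₀, |α₀ - φ₀| < ε ∧ ∀ ρ : Fin n → Fin n, ∃ l k k',
    J X η L l k α₀ - J X η L l k' α₀ ≠ J X η L l (ρ k) φ₀ - J X η L l (ρ k') φ₀ := by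
  classical
  by_contra hcon
  push Not at hcon
  have h2 := S.comb_const (Pi.single ⟨0, by omega⟩ 1) (fun k α hα => by
    refine Finset.sum_congr rfl fun l _ => ?_
    rw [S.const_J hcon l k hα]) ⟨0, by omega⟩ ⟨1, by omega⟩
  rw [Pi.single_eq_same, Pi.single_eq_of_ne (by
    intro h
    have := congrArg Fin.val h
    simp at this)] at h2
  exact one_ne_zero h2

/-- **two windows with different fibres** -/
theorem Sys.exists_rigid (hn : 2 ≤ n) : ∃ α₀ β₀ δ : ℝ, 0 < δ ∧ (∀ α, |α - α₀| < δ → |α - φ₀| < ε) ∧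
    (∀ β, |β - β₀| < δ → |β - φ₀| < ε) ∧ ∀ α β, |α - α₀| < δ → |β - β₀| < δ → ∀ ρ : Fin n → Fin n, ∃ l k k',
      J X η L l k α - J X η L l k' α ≠ J X η L l (ρ k) β - J X η L l (ρ k') β := by
  classical
  obtain ⟨α₀, hα₀, h⟩ := S.exists_bad hn
  have h1 : ∀ᶠ x : ℝ × ℝ in 𝓝 (α₀, φ₀), ∀ ρ : Fin n → Fin n, ∃ l k k',
      J X η L l k x.1 - J X η L l k' x.1 ≠ J X η L l (ρ k) x.2 - J X η L l (ρ k') x.2 := by
    rw [eventually_all]
    intro ρ
    obtain ⟨l, k, k', h2⟩ := h ρ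
    have c1 : ∀ k, ContinuousAt (fun x : ℝ × ℝ => J X η L l k x.1) (α₀, φ₀) := fun k =>
      ContinuousAt.comp (f := Prod.fst) (g := J X η L l k) (S.contAt_J l k hα₀) continuousAt_fst
    have c2 : ∀ k, ContinuousAt (fun x : ℝ × ℝ => J X η L l k x.2) (α₀, φ₀) := fun k =>
      ContinuousAt.comp (f := Prod.snd) (g := J X η L l k) (S.contAt_J l k S.φ_mem) continuousAt_snd
    have c3 := ((c1 k).sub (c1 k')).sub ((c2 (ρ k)).sub (c2 (ρ k')))
    have h3 := c3.eventually_ne (sub_ne_zero.2 h2)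
    filter_upwards [h3] with x hx
    exact ⟨l, k, k', sub_ne_zero.1 hx⟩
  have h2 : ∀ᶠ x : ℝ × ℝ in 𝓝 (α₀, φ₀), |x.1 - φ₀| < ε ∧ |x.2 - φ₀| < ε := by
    refine Filter.Eventually.and ?_ ?_
    · exact (continuousAt_fst (p := ((α₀, φ₀) : ℝ × ℝ))).eventually ((isOpen_W φ₀ ε).mem_nhds hα₀)
    · exact (continuousAt_snd (p := ((α₀, φ₀) : ℝ × ℝ))).eventually ((isOpen_W φ₀ ε).mem_nhds S.φ_mem)
  obtain ⟨δ, hδ, hball⟩ := Metric.eventually_nhds_iff.1 (h1.and h2)
  have hd : ∀ α β : ℝ, |α - α₀| < δ → |β - φ₀| < δ → dist (α, β) (α₀, φ₀) < δ := by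
    intro α β hα hβ
    rw [Prod.dist_eq, max_lt_iff]
    exact ⟨hα, hβ⟩
  refine ⟨α₀, φ₀, δ, hδ, fun α hα => (hball (hd α φ₀ hα (by simpa using hδ))).2.1, fun β hβ =>
    (hball (hd α₀ β (by simpa using hδ) hβ)).2.2, fun α β hα hβ => (hball (hd α β hα hβ)).1⟩

end Pool.Agent.N76.EC
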