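import Pool.Agent.N76.EC.Lift

set_option autoImplicit false

/-!
# The loops and the branches on a vertical strip
-/

namespace Pool.Agent.N76.EC

open Polynomial MeasureTheory Set Filter Topology Complex
open Pool.Agent.TH826.UH (pr NZ pr_mul pr_one cont_int)
open Pool.Agent.N76.IR (Strip mem_Strip isOpen_Strip convex_Strip)
open scoped ComplexConjugate Interval Real

/-- a local inverse -/
theorem exists_inv {G : ℂ[X]} {a : ℂ} (ha : (derivative G).eval a ≠ 0) :
    ∃ g : ℂ → ℂ, ContDiffAt ℂ 2 g (G.eval a) ∧ ∀ᶠ x in 𝓝 a, g (G.eval x) = x := by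
  have h0 : ContDiff ℂ 2 fun x => G.eval x := by
    have h := G.contDiff_aeval (𝕜 := ℂ) 2
    simpa [Polynomial.coe_aeval_eq_eval] using h
  have h1 : ContDiffAt ℂ 2 (fun x => G.eval x) a := h0.contDiffAt
  have h2 : HasFDerivAt (fun x => G.eval x)
      ((ContinuousLinearEquiv.unitsEquivAut ℂ (Units.mk0 _ ha) : ℂ ≃L[ℂ] ℂ) : ℂ →L[ℂ] ℂ) a :=
    ((G.hasStrictDerivAt a).hasStrictFDerivAt_equiv ha).hasFDerivAt
  refine ⟨h1.localInverse h2 (by norm_num), h1.to_localInverse h2 (by norm_num), ?_⟩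
  exact (h1.hasStrictFDerivAt' h2 (by norm_num)).eventually_left_inverse

/-- the roots over a regular value -/
theorem exists_fibre {G : ℂ[X]} (hG : G.Monic) {n : ℕ} (hn : 0 < n) (hdeg : G.natDegree = n) {w : ℂ}
    (hw : w ∉ Cv G) : ∃ x : Fin n → ℂ, Function.Injective x ∧ ∀ i, G.eval (x i) = w := by
  classical
  have hmon : (G - C w).Monic := by
    refine hG.sub_of_left ?_
    rw [degree_eq_natDegree hG.ne_zero, hdeg]
    exact lt_of_le_of_lt degree_C_le (by exact_mod_cast hn)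
  have hdegu : (G - C w).natDegree = n := by rw [natDegree_sub_C, hdeg]
  have hcard : (G - C w).roots.card = n := by
    rw [← hdegu]
    exact (IsAlgClosed.splits _).natDegree_eq_card_roots.symm
  have hnodup : (G - C w).roots.Nodup := by
    rw [Multiset.nodup_iff_count_le_one]
    intro x
    rw [count_roots]
    by_contra hcon
    push Not at hcon
    have h1 := (one_lt_rootMultiplicity_iff_isRoot hmon.ne_zero).1 hcon
    have h2 : (derivative G).eval x = 0 := by
      have := h1.2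
      rw [derivative_sub, derivative_C, sub_zero] at this
      exact this
    have h3 : G.eval x = w := by
      have := h1.1
      rw [IsRoot.def, eval_sub, eval_C, sub_eq_zero] at this
      exact this
    exact hw ⟨x, h2, h3⟩
  set S := (G - C w).roots.toFinset with hS
  have hSc : S.card = n := by
    rw [hS, Multiset.toFinset_card_of_nodup hnodup, hcard]
  have hSr : ∀ y ∈ S, G.eval y = w := by
    intro y hy
    rw [hS, Multiset.mem_toFinset, mem_roots hmon.ne_zero, IsRoot.def, eval_sub, eval_C,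
      sub_eq_zero] at hy
    exact hy
  exact ⟨fun i => ((S.equivFinOfCardEq hSc).symm i : ℂ), fun i j hij =>
    (S.equivFinOfCardEq hSc).symm.injective (Subtype.ext hij), fun i =>
    hSr _ ((S.equivFinOfCardEq hSc).symm i).2⟩

/-- **the system of branches and loops** -/
structure Sys (G : ℂ[X]) (n : ℕ) (η φ₀ ε : ℝ) (L : Fin n → ℂ → ℂ) (X : Fin n → ℝ → ℂ) : Prop where
  monic : G.Monic
  deg : G.natDegree = n
  pos : 0 < n
  hη : 0 < η
  hε : 0 < ε
  h0 : 0 < φ₀ - ε
  h1 : φ₀ + ε < π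
  Ld : ∀ k, DifferentiableOn ℂ (L k) (Strip φ₀ ε)
  Lev : ∀ k, ∀ θ ∈ Strip φ₀ ε, G.eval (L k θ) = 2 * Complex.cos θ
  Linj : ∀ θ ∈ Strip φ₀ ε, Function.Injective fun k => L k θ
  loop : ∀ l, Loop (X l) (Zp η)
  Xev : ∀ l t, G.eval (X l t) = Wp η t
  Xneg : ∀ l t, X l (-t) = X l t
  Xinj : ∀ t, Function.Injective fun l => X l t
  XL : ∀ l t, |2 * π * t - φ₀| < ε → X l t = L l (th η t)

theorem sc_strip {φ₀ ε : ℝ} (hε : 0 < ε) : SimplyConnectedSpace (Strip φ₀ ε) ∧ LocallyPathConnectedSpace (Strip φ₀ ε) := by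
  have h0 : (φ₀ : ℂ) ∈ Strip φ₀ ε := by
    rw [mem_Strip]
    simpa using hε
  have : ContractibleSpace (Strip φ₀ ε) := (convex_Strip φ₀ ε).contractibleSpace ⟨φ₀, h0⟩
  exact ⟨SimplyConnectedSpace.ofContractible _, (isOpen_Strip φ₀ ε).locallyPathConnectedSpace⟩

theorem sc_Ioo {a b c : ℝ} (h : c ∈ Ioo a b) : SimplyConnectedSpace (Ioo a b) ∧ LocallyPathConnectedSpace (Ioo a b) := by
  have : ContractibleSpace (Ioo a b) := (convex_Ioo a b).contractibleSpace ⟨c, h⟩
  exact ⟨SimplyConnectedSpace.ofContractible _, isOpen_Ioo.locallyPathConnectedSpace⟩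

theorem th_mem {η φ₀ ε t : ℝ} (h : |2 * π * t - φ₀| < ε) : th η t ∈ Strip φ₀ ε := by
  rw [mem_Strip, th_re]
  exact h

theorem exists_sys {G : ℂ[X]} (hG : G.Monic) {n : ℕ} (hn : 0 < n) (hdeg : G.natDegree = n)
    (h2 : (2 : ℂ) ∉ Cv G) (h2' : (-2 : ℂ) ∉ Cv G) :
    ∃ (η φ₀ ε : ℝ) (L : Fin n → ℂ → ℂ) (X : Fin n → ℝ → ℂ), Sys G n η φ₀ ε L X := by
  classical
  have hfin : (Cv G).Finite := Pool.Agent.Y775.CC.finite_crit (by rw [hdeg]; exact hn)
  obtain ⟨η, hη, hηS⟩ := exists_eta hfin h2 h2'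
  obtain ⟨φ₀, ε, hε, h0, h1, hS⟩ := exists_phi hfin
  have hφmem : (φ₀ : ℂ) ∈ Strip φ₀ ε := by
    rw [mem_Strip]
    simpa using hε
  obtain ⟨x, hxinj, hx⟩ := exists_fibre hG hn hdeg (hS _ hφmem)
  obtain ⟨i1, i2⟩ := sc_strip (φ₀ := φ₀) hε
  -- the branches on the strip
  have hfc : Continuous fun θ : Strip φ₀ ε => 2 * Complex.cos (θ : ℂ) :=
    continuous_const.mul (Complex.continuous_cos.comp continuous_subtype_val)
  have hex : ∀ k, ∃ F : Strip φ₀ ε → ℂ, Continuous F ∧ F ⟨φ₀, hφmem⟩ = x k ∧ ∀ θ, G.eval (F θ) = 2 * Complex.cos (θ : ℂ) :=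
    fun k => exists_lift hfc (fun θ => hS θ θ.2) ⟨φ₀, hφmem⟩ (hx k)
  choose F hFc hF0 hFev using hex
  set L : Fin n → ℂ → ℂ := fun k θ => if h : θ ∈ Strip φ₀ ε then F k ⟨θ, h⟩ else 0 with hL
  have hLF : ∀ k θ (h : θ ∈ Strip φ₀ ε), L k θ = F k ⟨θ, h⟩ := fun k θ h => dif_pos h
  have hLev : ∀ k, ∀ θ ∈ Strip φ₀ ε, G.eval (L k θ) = 2 * Complex.cos θ := fun k θ h => by
    rw [hLF k θ h]
    exact hFev k ⟨θ, h⟩
  have hLc : ∀ k, ContinuousOn (L k) (Strip φ₀ ε) := fun k => by
    rw [continuousOn_iff_continuous_domRestrict]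
    have e : (Strip φ₀ ε).domRestrict (L k) = F k := by
      funext a
      exact hLF k a a.2
    rw [e]
    exact hFc k
  have hLd : ∀ k, DifferentiableOn ℂ (L k) (Strip φ₀ ε) := by
    intro k θ hθ
    have hd : (derivative G).eval (L k θ) ≠ 0 := by
      intro h
      exact hS θ hθ ⟨_, h, hLev k θ hθ⟩
    obtain ⟨g, hg, hgev⟩ := exists_inv hd
    have hcont : ContinuousAt (L k) θ := (hLc k).continuousAt ((isOpen_Strip φ₀ ε).mem_nhds hθ)
    have h3 : L k =ᶠ[𝓝 θ] fun v => g (2 * Complex.cos v) := by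
      filter_upwards [hcont.eventually hgev, (isOpen_Strip φ₀ ε).mem_nhds hθ] with v hv hvS
      rw [← hLev k v hvS, hv]
    rw [hLev k θ hθ] at hg
    have h4 : DifferentiableAt ℂ (fun v => g (2 * Complex.cos v)) θ :=
      (hg.differentiableAt (by norm_num)).comp θ ((Complex.differentiableAt_cos).const_mul 2)
    exact (h4.congr_of_eventuallyEq h3).differentiableWithinAt
  have hLinj : ∀ θ ∈ Strip φ₀ ε, Function.Injective fun k => L k θ := by
    intro θ hθ k l hkl
    have hkl' : F k ⟨θ, hθ⟩ = F l ⟨θ, hθ⟩ := by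
      rw [← hLF k θ hθ, ← hLF l θ hθ]
      exact hkl
    have h3 := lift_unique hfc (fun θ => hS θ θ.2) (hFc k) (hFc l) (hFev k) (hFev l) hkl'
    apply hxinj
    rw [← hF0 k, ← hF0 l, h3]
  -- the loops
  set t₀ : ℝ := φ₀ / (2 * π) with ht₀
  have hπ := Real.pi_pos
  have ht0 : 2 * π * t₀ = φ₀ := by
    rw [ht₀]
    field_simp
  have ht0' : |2 * π * t₀ - φ₀| < ε := by
    rw [ht0, sub_self, abs_zero]
    exact hε
  have hWc : Continuous (Wp η) := (contDiff_Wp η).continuous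
  have hexX : ∀ l, ∃ F : ℝ → ℂ, Continuous F ∧ F t₀ = L l (th η t₀) ∧ ∀ t, G.eval (F t) = Wp η t := fun l =>
    exists_lift hWc hηS t₀ (hLev l _ (th_mem ht0'))
  choose X hXc hX0 hXev using hexX
  have hXu : ∀ {F F' : ℝ → ℂ}, Continuous F → Continuous F' → (∀ t, G.eval (F t) = Wp η t) →
      (∀ t, G.eval (F' t) = Wp η t) → ∀ {a : ℝ}, F a = F' a → F = F' := fun hF hF' h h' _ ha =>
    lift_unique hWc hηS hF hF' h h' ha
  have hXneg : ∀ l t, X l (-t) = X l t := by
    intro l t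
    have h3 := hXu (F := fun t => X l (-t)) (F' := X l) ((hXc l).comp continuous_neg) (hXc l)
      (fun t => by rw [hXev, Wp_neg]) (hXev l) (a := 0) (by simp)
    exact congrFun h3 t
  have hXsym : ∀ l t, X l (1 - t) = X l t := by
    intro l t
    have h3 := hXu (F := fun t => X l (1 - t)) (F' := X l) ((hXc l).comp (continuous_const.sub continuous_id)) (hXc l)
      (fun t => by
        rw [hXev, show (1 : ℝ) - t = -t + 1 by ring, Wp_add_one, Wp_neg]) (hXev l) (a := 1 / 2) (by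
        show X l (1 - 1 / 2) = X l (1 / 2)
        congr 1
        norm_num)
    exact congrFun h3 t
  have hXper : ∀ l t, X l (t + 1) = X l t := by
    intro l t
    rw [show t + 1 = 1 - (-t) by ring, hXsym, hXneg]
  have hXsm : ∀ l, ContDiff ℝ 2 (X l) := by
    intro l
    rw [contDiff_iff_contDiffAt]
    intro t
    have hd : (derivative G).eval (X l t) ≠ 0 := by
      intro h
      exact hηS t ⟨_, h, hXev l t⟩
    obtain ⟨g, hg, hgev⟩ := exists_inv hd
    have h3 : X l =ᶠ[𝓝 t] fun v => g (Wp η v) := by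
      filter_upwards [(hXc l).continuousAt.eventually hgev] with v hv
      rw [← hXev l v, hv]
    rw [hXev l t] at hg
    exact ((hg.restrict_scalars ℝ).comp t (contDiff_Wp η).contDiffAt).congr_of_eventuallyEq h3
  refine ⟨η, φ₀, ε, L, X, hG, hdeg, hn, hη, hε, h0, h1, hLd, hLev, hLinj, fun l => ⟨hXsm l, nz_Zp η, hXper l, Zp_add_one η⟩,
    hXev, hXneg, ?_, ?_⟩
  · intro t k l hkl
    have h3 := hXu (hXc k) (hXc l) (hXev k) (hXev l) hkl
    have h4 : L k (th η t₀) = L l (th η t₀) := by rw [← hX0 k, ← hX0 l, h3]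
    exact hLinj _ (th_mem ht0') h4
  · intro l t ht
    set a : ℝ := (φ₀ - ε) / (2 * π) with ha
    set b : ℝ := (φ₀ + ε) / (2 * π) with hb
    have hI : ∀ s, s ∈ Ioo a b ↔ |2 * π * s - φ₀| < ε := by
      intro s
      rw [mem_Ioo, ha, hb, div_lt_iff₀ (by positivity), lt_div_iff₀ (by positivity), abs_lt]
      constructor
      · rintro ⟨h3, h4⟩
        constructor <;> linarith
      · rintro ⟨h3, h4⟩
        constructor <;> linarith
    obtain ⟨i3, i4⟩ := sc_Ioo ((hI t₀).2 ht0')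
    have hthc : Continuous (th η) := (contDiff_th η).continuous
    have h5 := lift_unique (A := Ioo a b) (G := G) (f := fun s => Wp η s) (hWc.comp continuous_subtype_val)
      (fun s => hηS s) (F := fun s => X l s) (F' := fun s => L l (th η s)) ((hXc l).comp continuous_subtype_val)
      (by
        rw [continuous_iff_continuousAt]
        intro s
        have h6 : ContinuousAt (L l) (th η s) :=
          (hLc l).continuousAt ((isOpen_Strip φ₀ ε).mem_nhds (th_mem ((hI s).1 s.2)))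
        exact ContinuousAt.comp (f := fun s : Ioo a b => th η s) (g := L l) h6
          (hthc.comp continuous_subtype_val).continuousAt)
      (fun s => hXev l s) (fun s => by
        rw [hLev l _ (th_mem ((hI s).1 s.2))]
        rfl) (a₀ := ⟨t₀, (hI t₀).2 ht0'⟩) (hX0 l)
    exact congrFun h5 ⟨t, (hI t).2 ht⟩

end Pool.Agent.N76.EC
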